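import Pool.Agent.H789R2.GP.Defs

set_option autoImplicit false

open Filter Topology Set Metric unitInterval

namespace Pool.Agent.H789R2.GP

open Pool.Agent.H789R2.AN

variable {X : Type*} [MetricSpace X]

theorem T1_iter_sub (g : X ≃ₜ X) {k m : ℕ} (hk : k ≤ m) (x : X) :
    g^[k] (g.symm^[m] x) = g.symm^[m - k] x := by
  obtain ⟨j, rfl⟩ := Nat.exists_eq_add_of_le hk
  rw [Function.iterate_add_apply, iterR, Nat.add_sub_cancel_left]

theorem T1_iter_add (g : X ≃ₜ X) {k m : ℕ} (hk : m ≤ k) (x : X) :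
    g^[k] (g.symm^[m] x) = g^[k - m] x := by
  obtain ⟨j, rfl⟩ := Nat.exists_eq_add_of_le hk
  rw [Nat.add_comm m j, Function.iterate_add_apply, iterR, Nat.add_sub_cancel]

theorem expansive {g : X ≃ₜ X} {c : ℝ} (h : LP g c) {x y : X} (h1 : SR g c x y)
    (h2 : SR g.symm c x y) : x = y := by
  have key : ∀ m : ℕ, dist x y ≤ c * (1 / 2) ^ m := by
    intro m
    have h3 : SR g c (g.symm^[m] x) (g.symm^[m] y) := by
      intro k
      rcases le_total k m with hk | hk
      · rw [T1_iter_sub g hk, T1_iter_sub g hk]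
        exact h2 _
      · rw [T1_iter_add g hk, T1_iter_add g hk]
        exact h1 _
    have h4 := h.cS _ _ h3 m
    rwa [iterR, iterR] at h4
  have h5 : Tendsto (fun n : ℕ => c * (1 / 2 : ℝ) ^ n) atTop (𝓝 0) := by
    have := (tendsto_pow_atTop_nhds_zero_of_lt_one (by norm_num : (0:ℝ) ≤ 1 / 2)
      (by norm_num)).const_mul c
    simpa using this
  have h6 : dist x y ≤ 0 := ge_of_tendsto' h5 key
  exact dist_le_zero.mp h6

theorem fin_exp [CompactSpace X] {g : X ≃ₜ X} {c : ℝ} (h : LP g c) : ∀ ε > 0, ∃ N : ℕ, ∀ x y : X,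
    (∀ k ≤ N, dist (g^[k] x) (g^[k] y) ≤ c) → (∀ k ≤ N, dist (g.symm^[k] x) (g.symm^[k] y) ≤ c) →
    dist x y < ε := by
  intro ε hε
  by_contra hcon
  push Not at hcon
  let K : ℕ → Set (X × X) := fun N => {p | ε ≤ dist p.1 p.2 ∧
    (∀ k ≤ N, dist (g^[k] p.1) (g^[k] p.2) ≤ c) ∧
    (∀ k ≤ N, dist (g.symm^[k] p.1) (g.symm^[k] p.2) ≤ c)}
  have hcl : ∀ N, IsClosed (K N) := by
    intro N
    have e : K N = {p | ε ≤ dist p.1 p.2} ∩ ((⋂ k : ℕ, ⋂ _ : k ≤ N,
        {p : X × X | dist (g^[k] p.1) (g^[k] p.2) ≤ c}) ∩ (⋂ k : ℕ, ⋂ _ : k ≤ N,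
        {p : X × X | dist (g.symm^[k] p.1) (g.symm^[k] p.2) ≤ c})) := by
      ext p
      simp only [K, Set.mem_setOf_eq, Set.mem_inter_iff, Set.mem_iInter]
    rw [e]
    refine (isClosed_le continuous_const (by fun_prop)).inter
      ((isClosed_iInter fun k => isClosed_iInter fun _ => isClosed_le ?_ continuous_const).inter
        (isClosed_iInter fun k => isClosed_iInter fun _ => isClosed_le ?_ continuous_const))
    · exact ((g.continuous.iterate k).comp continuous_fst).dist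
        ((g.continuous.iterate k).comp continuous_snd)
    · exact ((g.symm.continuous.iterate k).comp continuous_fst).dist
        ((g.symm.continuous.iterate k).comp continuous_snd)
  have hne : ∀ N, (K N).Nonempty := by
    intro N
    obtain ⟨x, y, h1, h2, h3⟩ := hcon N
    exact ⟨(x, y), h3, h1, h2⟩
  obtain ⟨p, hp⟩ := IsCompact.nonempty_iInter_of_sequence_nonempty_isCompact_isClosed K
    (fun N p hp => ⟨hp.1, fun k hk => hp.2.1 k (by omega), fun k hk => hp.2.2 k (by omega)⟩)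
    hne (hcl 0).isCompact hcl
  rw [Set.mem_iInter] at hp
  have h1 : p.1 = p.2 := expansive h (fun k => (hp k).2.1 k le_rfl) (fun k => (hp k).2.2 k le_rfl)
  have h2 := (hp 0).1
  rw [h1, dist_self] at h2
  linarith

theorem T1_unif [CompactSpace X] (g : X ≃ₜ X) (N : ℕ) {ε : ℝ} (hε : 0 < ε) : ∃ η > 0,
    ∀ k ≤ N, ∀ x y : X, dist x y < η → dist (g^[k] x) (g^[k] y) < ε := by
  induction N with
  | zero =>
    refine ⟨ε, hε, fun k hk x y hxy => ?_⟩
    obtain rfl : k = 0 := by omega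
    exact hxy
  | succ N ih =>
    obtain ⟨η, hη, h1⟩ := ih
    have hu : UniformContinuous (g^[N + 1]) :=
      CompactSpace.uniformContinuous_of_continuous (g.continuous.iterate _)
    obtain ⟨η', hη', h2⟩ := Metric.uniformContinuous_iff.mp hu ε hε
    refine ⟨min η η', lt_min hη hη', fun k hk x y hxy => ?_⟩
    rcases Nat.lt_or_ge N k with h3 | h3
    · obtain rfl : k = N + 1 := by omega
      exact h2 (hxy.trans_le (min_le_right _ _))
    · exact h1 k h3 x y (hxy.trans_le (min_le_left _ _))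

theorem br_unif [CompactSpace X] {g : X ≃ₜ X} {c : ℝ} (h : LP g c) : ∀ ε > 0, ∃ η > 0,
    ∀ x x' y y' z z' : X, SR g (c / 3) x z → SR g.symm (c / 3) y z → SR g (c / 3) x' z' →
      SR g.symm (c / 3) y' z' → dist x x' < η → dist y y' < η → dist z z' < ε := by
  intro ε hε
  obtain ⟨N, hN⟩ := fin_exp h ε hε
  have hc3 : 0 < c / 3 := by linarith [h.c_pos]
  obtain ⟨η₁, hη₁, h1⟩ := T1_unif g N hc3
  obtain ⟨η₂, hη₂, h2⟩ := T1_unif g.symm N hc3
  refine ⟨min η₁ η₂, lt_min hη₁ hη₂, fun x x' y y' z z' hxz hyz hxz' hyz' hx hy => ?_⟩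
  refine hN z z' (fun k hk => ?_) (fun k hk => ?_)
  · have a1 := hxz k
    have a2 := hxz' k
    have a3 := h1 k hk x x' (hx.trans_le (min_le_left _ _))
    have a4 := dist_triangle4 (g^[k] z) (g^[k] x) (g^[k] x') (g^[k] z')
    rw [dist_comm] at a1
    linarith
  · have a1 := hyz k
    have a2 := hyz' k
    have a3 := h2 k hk y y' (hy.trans_le (min_le_right _ _))
    have a4 := dist_triangle4 (g.symm^[k] z) (g.symm^[k] y) (g.symm^[k] y') (g.symm^[k] z')
    rw [dist_comm] at a1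
    linarith

theorem T1_unique {g : X ≃ₜ X} {c : ℝ} (h : LP g c) {x y z z' : X} (h1 : SR g (c / 3) x z)
    (h2 : SR g.symm (c / 3) y z) (h3 : SR g (c / 3) x z') (h4 : SR g.symm (c / 3) y z') :
    z = z' := by
  have hc := h.c_pos
  refine expansive h (fun k => ?_) (fun k => ?_)
  · have a1 := h1 k
    have a2 := h3 k
    have a3 := dist_triangle_left (g^[k] z) (g^[k] z') (g^[k] x)
    linarith
  · have a1 := h2 k
    have a2 := h4 k
    have a3 := dist_triangle_left (g.symm^[k] z) (g.symm^[k] z') (g.symm^[k] y)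
    linarith

theorem exists_br [CompactSpace X] {g : X ≃ₜ X} {c : ℝ} (h : LP g c) :
    ∃ (br : X → X → X) (δ : ℝ), 0 < δ ∧
      (∀ x y, dist x y < δ → SR g (c / 3) x (br x y) ∧ SR g.symm (c / 3) y (br x y)) ∧
      (∀ ε > 0, ∃ η > 0, ∀ x y, dist x y < η → SR g ε x (br x y) ∧ SR g.symm ε y (br x y)) ∧
      (∀ x y z, dist x y < δ → SR g (c / 3) x z → SR g.symm (c / 3) y z → z = br x y) ∧
      (∀ ε > 0, ∃ η > 0, ∀ x x' y y', dist x y < δ → dist x' y' < δ → dist x x' < η →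
        dist y y' < η → dist (br x y) (br x' y') < ε) := by
  have hc3 : 0 < c / 3 := by linarith [h.c_pos]
  obtain ⟨δ, hδ, h1⟩ := h.lp (c / 3) hc3
  have h2 : ∀ x y : X, ∃ z, dist x y < δ → SR g (c / 3) x z ∧ SR g.symm (c / 3) y z := by
    intro x y
    by_cases hxy : dist x y < δ
    · obtain ⟨z, hz⟩ := h1 x y hxy
      exact ⟨z, fun _ => hz⟩
    · exact ⟨x, fun h => absurd h hxy⟩
  choose br hbr using h2
  have huniq : ∀ x y z, dist x y < δ → SR g (c / 3) x z → SR g.symm (c / 3) y z → z = br x y :=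
    fun x y z hxy h3 h4 => T1_unique h h3 h4 (hbr x y hxy).1 (hbr x y hxy).2
  refine ⟨br, δ, hδ, hbr, fun ε hε => ?_, huniq, fun ε hε => ?_⟩
  · obtain ⟨δ', hδ', h3⟩ := h.lp (min ε (c / 3)) (lt_min hε hc3)
    refine ⟨min δ δ', lt_min hδ hδ', fun x y hxy => ?_⟩
    obtain ⟨z, h4, h5⟩ := h3 x y (hxy.trans_le (min_le_right _ _))
    have h6 := huniq x y z (hxy.trans_le (min_le_left _ _)) (h4.mono (min_le_right _ _))
      (h5.mono (min_le_right _ _))
    rw [← h6]
    exact ⟨h4.mono (min_le_left _ _), h5.mono (min_le_left _ _)⟩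
  · obtain ⟨η, hη, h3⟩ := br_unif h ε hε
    exact ⟨η, hη, fun x x' y y' hxy hxy' hx hy => h3 x x' y y' _ _ (hbr x y hxy).1 (hbr x y hxy).2
      (hbr x' y' hxy').1 (hbr x' y' hxy').2 hx hy⟩

end Pool.Agent.H789R2.GP
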