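import Pool.Agent.H789R2.GP.Leaf
import Pool.Agent.H789R2.GP.Br
import Pool.Agent.H721R2.CovMap

set_option autoImplicit false

open Filter Topology Set Metric

namespace Pool.Agent.H789R2.GP

open Pool.Agent.H789R2.AN

variable {X : Type*} [MetricSpace X]

theorem _root_.Pool.Agent.H789R2.AN.SR.dist12 {g : X ≃ₜ X} {ε : ℝ} {x y : X} (h : SR g ε x y) : dist x y ≤ ε := h 0

theorem _root_.Pool.Agent.H789R2.AN.SR.nonneg12 {g : X ≃ₜ X} {ε : ℝ} {x y : X} (h : SR g ε x y) : 0 ≤ ε :=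
  dist_nonneg.trans (h 0)

theorem _root_.Pool.Agent.H789R2.AN.SR.tr12 {g : X ≃ₜ X} {ε ε' : ℝ} {x y z : X} (h : SR g ε x y) (h' : SR g ε' y z) :
    SR g (ε + ε') x z := fun k =>
  (dist_triangle _ (g^[k] y) _).trans (add_le_add (h k) (h' k))

theorem _root_.Pool.Agent.H789R2.AN.SR.it12 {g : X ≃ₜ X} {ε : ℝ} {x y : X} (h : SR g ε x y) (n : ℕ) :
    SR g ε (g^[n] x) (g^[n] y) := fun k => by
  rw [← Function.iterate_add_apply, ← Function.iterate_add_apply]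
  exact h _

theorem _root_.Pool.Agent.H789R2.AN.WS.level12 {g : X ≃ₜ X} {x y : X} (h : WS g x y) {ε : ℝ} (hε : 0 < ε) :
    ∃ j : ℕ, SR g ε (g^[j] x) (g^[j] y) := by
  obtain ⟨m, hm⟩ := h.eventually_lt hε
  refine ⟨m, fun k => ?_⟩
  rw [← Function.iterate_add_apply, ← Function.iterate_add_apply]
  exact (hm _ (Nat.le_add_left _ _)).le

theorem WS_of_SR12 {g : X ≃ₜ X} {c : ℝ} (h : LP g c) {x y : X} (hs : SR g c x y) : WS g x y :=
  WS.of_SR (h.cS _ _ hs)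

theorem WS_of_SR12' {g : X ≃ₜ X} {c : ℝ} (h : LP g c) {x y : X} (hs : SR g.symm c x y) :
    WS g.symm x y :=
  WS.of_SR (h.cU _ _ hs)

/-- `z'` is reached from `z` by a small stable step followed by a small unstable step. -/
def Nb {g : X ≃ₜ X} {c' : ℝ} (T : QS g c') {p : X} (ε : ℝ) (z z' : Leaf g p) : Prop :=
  ∃ w, T.Q p z'.s z.u w ∧ SR g ε (z.pr T) w ∧ SR g.symm ε w (z'.pr T)

theorem Nb.mono {g : X ≃ₜ X} {c' : ℝ} {T : QS g c'} {p : X} {ε ε' : ℝ} (h : ε ≤ ε')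
    {z z' : Leaf g p} (hn : Nb T ε z z') : Nb T ε' z z' := by
  obtain ⟨w, h1, h2, h3⟩ := hn
  exact ⟨w, h1, h2.mono h, h3.mono h⟩

/-- existence of sheets -/
theorem Nb_exists {g : X ≃ₜ X} {c c' : ℝ} (h : LP g c) (T : QS g c') {p : X} (ε : ℝ)
    (hε : 0 < ε) : ∃ η > 0, ∀ (z : Leaf g p) (y : X), dist (z.pr T) y < η →
    ∃ z' : Leaf g p, z'.pr T = y ∧ Nb T ε z z' := by
  obtain ⟨δ, hδ, hlp⟩ := h.lp (min ε c) (lt_min hε h.c_pos)
  refine ⟨δ, hδ, fun z y hy => ?_⟩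
  obtain ⟨w, h1, h2⟩ := hlp _ _ hy
  have hw1 : SR g ε (z.pr T) w := h1.mono (min_le_left _ _)
  have hw2 : SR g.symm ε w y := h2.symm'.mono (min_le_left _ _)
  have hw3 : WS g (z.pr T) w := WS_of_SR12 h (h1.mono (min_le_right _ _))
  have hw4 : WS g.symm w y := WS_of_SR12' h (h2.symm'.mono (min_le_right _ _))
  -- the stable coordinate
  have hxs : WS g.symm (z.pr T) z.s := (T.wU _ _ _ _ (z.pr_spec T)).symm'
  obtain ⟨s', hs'⟩ := T.ex _ _ _ hw3 hxs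
  have hss' : WS g z.s s' := T.wS _ _ _ _ hs'
  have hQ1 : T.Q p s' z.u w := T.compS _ _ _ _ _ _ (z.pr_spec T) (T.flipU _ _ _ _ hs')
  -- the unstable coordinate
  have hwu : WS g w z.u := (T.wS _ _ _ _ hQ1).symm'
  obtain ⟨u', hu'⟩ := T.ex _ _ _ hwu hw4
  have huu' : WS g.symm z.u u' := T.wU _ _ _ _ hu'
  have hQ2 : T.Q p s' u' y := T.compU _ _ _ _ _ _ hQ1 (T.flipS _ _ _ _ hu')
  let z' : Leaf g p := ⟨u', s', z.hu.trans huu', z.hs.trans hss'⟩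
  have hpr : z'.pr T = y := Leaf.pr_eq T hQ2
  exact ⟨z', hpr, w, hQ1, hw1, by rw [hpr]; exact hw2⟩

/-- uniqueness of sheets -/
theorem Nb_unique {g : X ≃ₜ X} {c c' : ℝ} (h0 : LP g c) (T : QS g c') {p : X} {ε : ℝ}
    (hε : 2 * ε ≤ c) {z z' z'' : Leaf g p} (h : Nb T ε z z')
    (h' : Nb T ε z z'') (hpr : z'.pr T = z''.pr T) : z' = z'' := by
  obtain ⟨w, h1, h2, h3⟩ := h
  obtain ⟨w', h1', h2', h3'⟩ := h'
  rw [← hpr] at h3'
  have e1 : w = w' := expansive h0 ((h2.symm'.tr12 h2').mono (by linarith))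
    ((h3.tr12 h3'.symm').mono (by linarith))
  rw [← e1] at h1'
  have e2 : z'.s = z''.s := T.unique _ _ _ _ _ (T.flipU _ _ _ _ h1) (T.flipU _ _ _ _ h1')
  have h4 := z'.pr_spec T
  have h5 := z''.pr_spec T
  rw [← hpr, ← e2] at h5
  have e3 : z'.u = z''.u := T.unique _ _ _ _ _ (T.flipS _ _ _ _ h4) (T.flipS _ _ _ _ h5)
  exact Leaf.ext e3 e2

/-- triangles -/
theorem Nb_trans {g : X ≃ₜ X} {c c' : ℝ} (h0 : LP g c) (T : QS g c') {p : X} (ε' : ℝ)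
    (hε' : 0 < ε') : ∃ ε > 0, ∀ z z' z'' : Leaf g p, Nb T ε z z' → Nb T ε z' z'' →
    Nb T ε' z z'' := by
  obtain ⟨ε₂, hε₂, htiny⟩ := T.tiny
  obtain ⟨δ, hδ, hlp⟩ := h0.lp (min (ε' / 2) ε₂) (by positivity)
  refine ⟨min (min (ε' / 2) ε₂) (δ / 3), by positivity, fun z z' z'' h h' => ?_⟩
  obtain ⟨w, h1, h2, h3⟩ := h
  obtain ⟨w', h1', h2', h3'⟩ := h'
  have la : min (min (ε' / 2) ε₂) (δ / 3) ≤ ε' / 2 := (min_le_left _ _).trans (min_le_left _ _)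
  have lb : min (min (ε' / 2) ε₂) (δ / 3) ≤ ε₂ := (min_le_left _ _).trans (min_le_right _ _)
  have lc : min (min (ε' / 2) ε₂) (δ / 3) ≤ δ / 3 := min_le_right _ _
  have hd : dist w w' < δ := by
    have a1 := h3.dist12
    have a2 := h2'.dist12
    have := dist_triangle w (z'.pr T) w'
    linarith
  obtain ⟨v, hv1, hv2⟩ := hlp w w' hd
  have q1 : T.Q (z'.pr T) w' w v := htiny _ _ _ _ (h2'.mono lb) (h3.symm'.mono lb)
    (hv1.mono (min_le_right _ _)) (hv2.mono (min_le_right _ _))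
  have q2 : T.Q z'.s z''.s (z'.pr T) w' := T.compS _ _ _ _ _ _ (T.flipS _ _ _ _ (z'.pr_spec T)) h1'
  have q3 : T.Q z'.s z''.s w v := T.compU _ _ _ _ _ _ q2 q1
  have q4 : T.Q p z''.s z.u v := T.compS _ _ _ _ _ _ h1 q3
  refine ⟨v, q4, (h2.tr12 hv1).mono ?_, (hv2.symm'.tr12 h3').mono ?_⟩
  · have := min_le_left (ε' / 2) ε₂
    linarith
  · have := min_le_left (ε' / 2) ε₂
    linarith

/-- symmetry -/
theorem Nb_symm {g : X ≃ₜ X} {c c' : ℝ} (h0 : LP g c) (T : QS g c') {p : X} (ε' : ℝ)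
    (hε' : 0 < ε') : ∃ ε > 0, ∀ z z' : Leaf g p, Nb T ε z z' → Nb T ε' z' z := by
  obtain ⟨ε₂, hε₂, htiny⟩ := T.tiny
  obtain ⟨δ, hδ, hlp⟩ := h0.lp (min ε' ε₂) (by positivity)
  refine ⟨min (min ε' ε₂) (δ / 3), by positivity, fun z z' h => ?_⟩
  obtain ⟨w, h1, h2, h3⟩ := h
  have lb : min (min ε' ε₂) (δ / 3) ≤ ε₂ := (min_le_left _ _).trans (min_le_right _ _)
  have lc : min (min ε' ε₂) (δ / 3) ≤ δ / 3 := min_le_right _ _
  have hd : dist (z'.pr T) (z.pr T) < δ := by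
    have a1 := h3.dist12
    have a2 := h2.dist12
    have := dist_triangle (z'.pr T) w (z.pr T)
    rw [dist_comm (z'.pr T) w, dist_comm w (z.pr T)] at this
    linarith
  obtain ⟨v, hv1, hv2⟩ := hlp _ _ hd
  have q1 : T.Q w (z.pr T) (z'.pr T) v := htiny _ _ _ _ (h2.symm'.mono lb)
    (h3.mono lb) (hv1.mono (min_le_right _ _)) (hv2.mono (min_le_right _ _))
  have q2 : T.Q z'.s z.s w (z.pr T) := T.compS _ _ _ _ _ _ (T.flipS _ _ _ _ h1) (z.pr_spec T)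
  have q3 : T.Q z'.s z.s (z'.pr T) v := T.compU _ _ _ _ _ _ q2 q1
  have q4 : T.Q p z.s z'.u v := T.compS _ _ _ _ _ _ (z'.pr_spec T) q3
  exact ⟨v, q4, hv1.mono (min_le_left _ _), hv2.symm'.mono (min_le_left _ _)⟩

/-- closeness in the leaf space implies `Nb` -/
theorem Nb_of_dist [CompactSpace X] {g : X ≃ₜ X} {c' : ℝ} (hc' : 0 < c') (T : QS g c') {p : X}
    (z : Leaf g p) (ε : ℝ) (hε : 0 < ε) : ∃ r > 0,
    ∀ z' : Leaf g p, dist z z' < r → Nb T ε z z' := by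
  obtain ⟨j1, hj1⟩ := (T.wU _ _ _ _ (z.pr_spec T)).level12 hc'
  obtain ⟨j1, hj1⟩ : ∃ j : ℕ, SR g.symm c' (g.symm^[j] z.s) (g.symm^[j] (z.pr T)) := ⟨j1, hj1⟩
  obtain ⟨η1, hη1, H1⟩ := T.contS j1 (min ε (c' / 2)) (by positivity)
  obtain ⟨j2, hj2⟩ : ∃ j : ℕ, SR g (c' / 2) (g^[j] z.u) (g^[j] (z.pr T)) :=
    (T.wS _ _ _ _ (z.pr_spec T)).level12 (by positivity)
  obtain ⟨η2, hη2, H2⟩ := T.contU j2 ε hε
  refine ⟨min η1 η2, lt_min hη1 hη2, fun z' hz' => ?_⟩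
  obtain ⟨hu, hs⟩ := (Leaf.dist_le z z' (le_min hη1.le hη2.le)).mp hz'.le
  obtain ⟨w, hw⟩ := T.ex p z'.s z.u z'.hs z.hu
  have q1 : T.Q z.s z'.s (z.pr T) w := T.compS _ _ _ _ _ _ (T.flipS _ _ _ _ (z.pr_spec T)) hw
  have h1 : SR g (min ε (c' / 2)) (z.pr T) w :=
    H1 _ _ _ _ q1 (hs.mono (min_le_left _ _)) hj1
  have q2 : T.Q z.u w z'.u (z'.pr T) := T.compU _ _ _ _ _ _ (T.flipU _ _ _ _ hw) (z'.pr_spec T)
  have h2 : SR g.symm ε w (z'.pr T) := by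
    apply H2 _ _ _ _ q2 (hu.mono (min_le_right _ _))
    exact (hj2.tr12 ((h1.mono (min_le_right _ _)).it12 j2)).mono (by linarith)
  exact ⟨w, hw, h1.mono (min_le_left _ _), h2⟩

/-- `Nb` implies closeness in the leaf space -/
theorem dist_of_Nb [CompactSpace X] {g : X ≃ₜ X} {c' : ℝ} (hc' : 0 < c') (T : QS g c') {p : X}
    (z : Leaf g p) (r : ℝ) (hr : 0 < r) : ∃ ε > 0,
    ∀ z' : Leaf g p, Nb T ε z z' → dist z z' ≤ r := by
  obtain ⟨j1, hj1⟩ : ∃ j : ℕ, SR g.symm c' (g.symm^[j] (z.pr T)) (g.symm^[j] z.s) :=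
    (T.wU _ _ _ _ (z.pr_spec T)).symm'.level12 hc'
  obtain ⟨η1, hη1, H1⟩ := T.contS j1 r hr
  obtain ⟨j2, hj2⟩ : ∃ j : ℕ, SR g (c' / 2) (g^[j] (z.pr T)) (g^[j] z.u) :=
    (T.wS _ _ _ _ (z.pr_spec T)).symm'.level12 (by positivity)
  obtain ⟨η2, hη2, H2⟩ := T.contU j2 r hr
  refine ⟨min (min η1 η2) (c' / 2), by positivity, fun z' hz' => ?_⟩
  have l1 : min (min η1 η2) (c' / 2) ≤ η1 := (min_le_left _ _).trans (min_le_left _ _)
  have l2 : min (min η1 η2) (c' / 2) ≤ η2 := (min_le_left _ _).trans (min_le_right _ _)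
  have l3 : min (min η1 η2) (c' / 2) ≤ c' / 2 := min_le_right _ _
  obtain ⟨w, hw, h1, h2⟩ := hz'
  rw [Leaf.dist_le z z' hr.le]
  have q1 : T.Q z.s z'.s (z.pr T) w := T.compS _ _ _ _ _ _ (T.flipS _ _ _ _ (z.pr_spec T)) hw
  have q2 : T.Q z.u w z'.u (z'.pr T) := T.compU _ _ _ _ _ _ (T.flipU _ _ _ _ hw) (z'.pr_spec T)
  refine ⟨?_, H1 _ _ _ _ (T.flipU _ _ _ _ q1) (h1.mono l1) hj1⟩
  apply H2 _ _ _ _ (T.flipS _ _ _ _ q2) (h2.mono l2)
  exact (((h1.mono l3).symm'.it12 j2).tr12 hj2).mono (by linarith)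

/-- T12a: the corner map is a covering -/
theorem pr_isCoveringMap [CompactSpace X] {g : X ≃ₜ X} {c c' : ℝ} (h : LP g c) (hc' : 0 < c')
    (T : QS g c') (p : X) : IsCoveringMap (Leaf.pr T : Leaf g p → X) := by
  have hc := h.c_pos
  obtain ⟨ε₃, hε₃, htr⟩ := Nb_trans h T (p := p) (c / 2) (by positivity)
  obtain ⟨ε₄, hε₄, hsy⟩ := Nb_symm h T (p := p) (c / 2) (by positivity)
  set ε := min (min ε₃ ε₄) (c / 2) with hε
  have hε0 : 0 < ε := by positivity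
  have l1 : ε ≤ ε₃ := (min_le_left _ _).trans (min_le_left _ _)
  have l2 : ε ≤ ε₄ := (min_le_left _ _).trans (min_le_right _ _)
  have l4 : ε ≤ c / 2 := min_le_right _ _
  obtain ⟨η, hη, hex⟩ := Nb_exists h T (p := p) ε hε0
  refine Pool.Agent.H721R2.isCoveringMap_of_sheets (Leaf.pr T) (Nb T ε) (Nb T (c / 2)) η hη
    (fun z z' h => h.mono l4) hex
    (fun z z' z'' h1 h' hp => Nb_unique h T (by linarith) h1 h' hp)
    (fun z z' z'' h h' => htr z z' z'' (h.mono l1) (h'.mono l1))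
    (fun z z' h => hsy z z' (h.mono l2)) ?_
  intro z
  apply le_antisymm
  · apply le_inf
    · rw [← tendsto_iff_comap]
      rw [Metric.tendsto_nhds_nhds]
      intro r hr
      obtain ⟨r', hr', h⟩ := Nb_of_dist hc' T z (r / 3) (by positivity)
      refine ⟨r', hr', fun z' hz' => ?_⟩
      obtain ⟨w, -, h1, h2⟩ := h z' (by rwa [dist_comm])
      have a1 := h1.dist12
      have a2 := h2.dist12
      have := dist_triangle (z.pr T) w (z'.pr T)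
      rw [dist_comm]
      linarith
    · rw [le_principal_iff]
      obtain ⟨r', hr', h⟩ := Nb_of_dist hc' T z ε hε0
      filter_upwards [Metric.ball_mem_nhds z hr'] with z' hz'
      exact h z' (by rw [dist_comm]; exact hz')
  · intro U hU
    obtain ⟨r, hr, hball⟩ := Metric.mem_nhds_iff.mp hU
    obtain ⟨ε', hε', h1⟩ := dist_of_Nb hc' T z (r / 2) (by positivity)
    obtain ⟨η', hη', h2⟩ := Nb_exists h T (p := p) (min ε' ε) (lt_min hε' hε0)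
    have hmem : {z' : Leaf g p | dist (z.pr T) (z'.pr T) < η'} ∩ {z' | Nb T ε z z'} ∈
        comap (Leaf.pr T) (𝓝 (z.pr T)) ⊓ 𝓟 {z' | Nb T ε z z'} := by
      apply inter_mem_inf _ (mem_principal_self _)
      refine ⟨Metric.ball (z.pr T) η', Metric.ball_mem_nhds _ hη', ?_⟩
      intro z' hz'
      show dist (z.pr T) (z'.pr T) < η'
      rw [dist_comm]; exact hz'
    refine mem_of_superset hmem ?_
    rintro z' ⟨hz1, hz2⟩
    obtain ⟨z'', hz3, hz4⟩ := h2 z (z'.pr T) hz1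
    have e1 : z'' = z' := Nb_unique h T (ε := c / 2) (by linarith)
      (hz4.mono ((min_le_right _ _).trans l4)) (hz2.mono l4) hz3
    rw [e1] at hz4
    have h3 := h1 z' (hz4.mono (min_le_left _ _))
    apply hball
    rw [Metric.mem_ball, dist_comm]
    linarith

end Pool.Agent.H789R2.GP
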