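import Pool.Agent.H789R2.GP.Leaf
import Pool.Agent.H721R2.Brown

set_option autoImplicit false

open Filter Topology Set Metric

namespace Pool.Agent.H789R2.GP

open Pool.Agent.H789R2.AN

/-- Around every point in the source of a partial homeomorphism to a normed space there is an
open cell. -/
private theorem covB_exists_cell {E Z : Type*} [NormedAddCommGroup E] [NormedSpace ℝ E]
    [TopologicalSpace Z] (Φ : OpenPartialHomeomorph Z E) (z₀ : Z) (hz : z₀ ∈ Φ.source) :
    ∃ e : E → Z, IsOpenEmbedding e ∧ e 0 = z₀ := by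
  obtain ⟨r, hr, hball⟩ := Metric.isOpen_iff.mp Φ.open_target (Φ z₀) (Φ.map_source hz)
  let B := OpenPartialHomeomorph.univBall (Φ z₀) r
  have hsrc : (B.trans Φ.symm).source = Set.univ := by
    rw [OpenPartialHomeomorph.trans_source]
    apply Set.eq_univ_of_forall
    intro x
    refine ⟨by simp [B], ?_⟩
    show B x ∈ Φ.target
    apply hball
    have : B x ∈ B.target := B.map_source (by simp [B])
    rwa [OpenPartialHomeomorph.univBall_target _ hr] at this
  refine ⟨B.trans Φ.symm, (B.trans Φ.symm).isOpenEmbedding hsrc, ?_⟩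
  show Φ.symm (B 0) = z₀
  have : B 0 = Φ z₀ := by simp [B]
  rw [this, Φ.left_inv hz]

variable {X : Type*} [MetricSpace X]

private theorem covB_fix {g : X ≃ₜ X} {p : X} {N : ℕ} (hp : g^[N] p = p) : g.symm^[N] p = p := by
  have := iterL g N p
  rwa [hp] at this

private theorem covB_WU {g : X ≃ₜ X} {p : X} {N : ℕ} (hp : g^[N] p = p) {u : X}
    (h : WS g p u) : WS g p (g^[N] u) := by
  have := (WS.iter (g := g) N).mpr h
  rwa [hp] at this

private theorem covB_WU' {g : X ≃ₜ X} {p : X} {N : ℕ} (hp : g^[N] p = p) {u : X}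
    (h : WS g p u) : WS g p (g.symm^[N] u) := by
  have h1 : WS g (g^[N] (g.symm^[N] p)) (g^[N] (g.symm^[N] u)) := by
    rw [iterR, iterR]; exact h
  have h2 := (WS.iter (g := g) N).mp h1
  rwa [covB_fix hp] at h2

/-- The expanding map of the leaf space. -/
private def covB_ex {g : X ≃ₜ X} {p : X} {N : ℕ} (hp : g^[N] p = p) (z : Leaf g p) :
    Leaf g p where
  u := g^[N] z.u
  s := g.symm^[N] z.s
  hu := covB_WU' (g := g.symm) (covB_fix hp) z.hu
  hs := covB_WU' hp z.hs

/-- The contracting map of the leaf space. -/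
private def covB_co {g : X ≃ₜ X} {p : X} {N : ℕ} (hp : g^[N] p = p) (z : Leaf g p) :
    Leaf g p where
  u := g.symm^[N] z.u
  s := g^[N] z.s
  hu := covB_WU (g := g.symm) (covB_fix hp) z.hu
  hs := covB_WU hp z.hs

private theorem covB_SR_iter {g : X ≃ₜ X} {ε : ℝ} {x y : X} (m : ℕ) (h : SR g ε x y) :
    SR g ε (g^[m] x) (g^[m] y) := fun k => by
  rw [← Function.iterate_add_apply, ← Function.iterate_add_apply]
  exact h _

private theorem covB_SR_back [CompactSpace X] (g : X ≃ₜ X) (N : ℕ) (ε : ℝ) (hε : 0 < ε) :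
    ∃ η > 0, ∀ x y : X, SR g η x y → SR g ε (g.symm^[N] x) (g.symm^[N] y) := by
  have h1 : ∀ j : ℕ, ∃ η > 0, ∀ x y : X, dist x y ≤ η →
      dist (g.symm^[j] x) (g.symm^[j] y) ≤ ε := by
    intro j
    have hu : UniformContinuous (g.symm^[j]) :=
      CompactSpace.uniformContinuous_of_continuous (g.symm.continuous.iterate j)
    rw [Metric.uniformContinuous_iff] at hu
    obtain ⟨δ, hδ, h⟩ := hu ε hε
    exact ⟨δ / 2, by positivity, fun x y hxy => (h (by linarith)).le⟩
  choose η hη h2 using h1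
  have hne : (Finset.range (N + 1)).Nonempty := ⟨0, by simp⟩
  refine ⟨min ε ((Finset.range (N + 1)).inf' hne η), lt_min hε ?_, ?_⟩
  · rw [Finset.lt_inf'_iff]
    exact fun j _ => hη j
  · intro x y hxy k
    rcases le_or_gt N k with hk | hk
    · obtain ⟨l, rfl⟩ := Nat.exists_eq_add_of_le hk
      rw [Nat.add_comm N l, Function.iterate_add_apply, Function.iterate_add_apply, iterR, iterR]
      exact (hxy l).trans (min_le_left _ _)
    · obtain ⟨l, rfl⟩ := Nat.exists_eq_add_of_le hk.le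
      rw [Function.iterate_add_apply g.symm, Function.iterate_add_apply g.symm, iterR, iterR]
      apply h2 l
      have h3 := (hxy 0).trans (min_le_right _ _)
      exact h3.trans (Finset.inf'_le _ (Finset.mem_range.mpr (by omega)))

variable [CompactSpace X]

private theorem covB_ex_cont {g : X ≃ₜ X} {p : X} {N : ℕ} (hp : g^[N] p = p) :
    Continuous (covB_ex hp : Leaf g p → Leaf g p) := by
  rw [Metric.continuous_iff]
  intro b ε hε
  obtain ⟨η1, hη1, h1⟩ := covB_SR_back g.symm N (ε / 2) (by positivity)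
  obtain ⟨η2, hη2, h2⟩ := covB_SR_back g N (ε / 2) (by positivity)
  refine ⟨min η1 η2, lt_min hη1 hη2, fun a ha => ?_⟩
  obtain ⟨hu, hs⟩ := (Leaf.dist_le a b (le_min hη1.le hη2.le)).mp ha.le
  have : dist (covB_ex hp a) (covB_ex hp b) ≤ ε / 2 := by
    rw [Leaf.dist_le _ _ (by positivity)]
    exact ⟨h1 _ _ (hu.mono (min_le_left _ _)), h2 _ _ (hs.mono (min_le_right _ _))⟩
  linarith

private theorem covB_co_cont {g : X ≃ₜ X} {p : X} {N : ℕ} (hp : g^[N] p = p) :
    Continuous (covB_co hp : Leaf g p → Leaf g p) := by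
  rw [Metric.continuous_iff]
  intro b ε hε
  refine ⟨ε / 2, by positivity, fun a ha => ?_⟩
  obtain ⟨hu, hs⟩ := (Leaf.dist_le a b (by positivity)).mp ha.le
  have : dist (covB_co hp a) (covB_co hp b) ≤ ε / 2 := by
    rw [Leaf.dist_le _ _ (by positivity)]
    exact ⟨covB_SR_iter N hu, covB_SR_iter N hs⟩
  linarith

/-- The expanding homeomorphism. -/
private def covB_H {g : X ≃ₜ X} {p : X} {N : ℕ} (hp : g^[N] p = p) : Leaf g p ≃ₜ Leaf g p where
  toFun := covB_ex hp
  invFun := covB_co hp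
  left_inv := fun z => Leaf.ext (iterL g N z.u) (iterR g N z.s)
  right_inv := fun z => Leaf.ext (iterR g N z.u) (iterL g N z.s)
  continuous_toFun := covB_ex_cont hp
  continuous_invFun := covB_co_cont hp

private theorem covB_H_base {g : X ≃ₜ X} {p : X} {N : ℕ} (hp : g^[N] p = p) :
    covB_H hp (Leaf.base g p) = Leaf.base g p :=
  Leaf.ext hp (covB_fix hp)

private theorem covB_co_iter {g : X ≃ₜ X} {p : X} {N : ℕ} (hp : g^[N] p = p) (k : ℕ)
    (z : Leaf g p) : ((covB_H hp).symm^[k] z).u = g.symm^[N * k] z.u ∧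
      ((covB_H hp).symm^[k] z).s = g^[N * k] z.s := by
  induction k with
  | zero => exact ⟨rfl, rfl⟩
  | succ k ih =>
    rw [Function.iterate_succ_apply', Nat.mul_succ, Nat.add_comm (N * k) N,
      Function.iterate_add_apply, Function.iterate_add_apply]
    obtain ⟨h1, h2⟩ := ih
    exact ⟨by rw [← h1]; rfl, by rw [← h2]; rfl⟩

private theorem covB_fixmul {f : X → X} {p : X} {N : ℕ} (hp : f^[N] p = p) (k : ℕ) :
    f^[N * k] p = p := by
  rw [Function.iterate_mul]
  exact Function.iterate_fixed hp k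

private theorem covB_shrink {g : X ≃ₜ X} {p : X} {N : ℕ} (hN : 1 ≤ N) (hp : g^[N] p = p) {c : ℝ}
    (hc : 0 < c) {s : X} (h : ∀ n : ℕ, dist (g^[n] s) (g^[n] p) ≤ c * (1 / 2) ^ n) (k : ℕ) :
    SR g ((1 / 2) ^ k * c) (g^[N * k] s) p := by
  intro j
  have h1 := h (j + N * k)
  rw [Function.iterate_add_apply, Function.iterate_add_apply, covB_fixmul hp k] at h1
  refine h1.trans ?_
  rw [mul_comm]
  apply mul_le_mul_of_nonneg_right _ hc.le
  apply pow_le_pow_of_le_one (by norm_num) (by norm_num)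
  nlinarith

private theorem covB_contract {g : X ≃ₜ X} {c : ℝ} (h : LP g c) {p : X} {N : ℕ} (hN : 1 ≤ N)
    (hp : g^[N] p = p) (k : ℕ) (z : Leaf g p) (hz : dist z (Leaf.base g p) ≤ c) :
    dist ((covB_H hp).symm^[k] z) (Leaf.base g p) ≤ (1 / 2) ^ k * c := by
  have hc := h.c_pos
  obtain ⟨hu, hs⟩ := (Leaf.dist_le _ _ hc.le).mp hz
  rw [Leaf.dist_le _ _ (by positivity)]
  obtain ⟨e1, e2⟩ := covB_co_iter hp k z
  rw [e1, e2]
  exact ⟨covB_shrink hN (covB_fix hp) hc (h.cU _ _ hu) k, covB_shrink hN hp hc (h.cS _ _ hs) k⟩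

private theorem covB_near {g : X ≃ₜ X} {p : X} {N : ℕ} (hN : 1 ≤ N) (hp : g^[N] p = p) {c : ℝ}
    (hc : 0 < c) {s : X} (h : WS g p s) : ∃ m : ℕ, ∀ k ≥ m, SR g c (g^[N * k] s) p := by
  obtain ⟨m, hm⟩ := h.eventually_lt hc
  refine ⟨m, fun k hk j => ?_⟩
  have h1 := hm (j + N * k) (by nlinarith)
  rw [Function.iterate_add_apply, Function.iterate_add_apply, covB_fixmul hp k, dist_comm] at h1
  exact h1.le

private theorem covB_reach {g : X ≃ₜ X} {c : ℝ} (h : LP g c) {p : X} {N : ℕ} (hN : 1 ≤ N)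
    (hp : g^[N] p = p) (z : Leaf g p) :
    ∃ k : ℕ, dist ((covB_H hp).symm^[k] z) (Leaf.base g p) < c := by
  have hc := h.c_pos
  obtain ⟨m1, h1⟩ := covB_near hN (covB_fix hp) (half_pos hc) z.hu
  obtain ⟨m2, h2⟩ := covB_near hN hp (half_pos hc) z.hs
  refine ⟨max m1 m2, ?_⟩
  have h3 : dist ((covB_H hp).symm^[max m1 m2] z) (Leaf.base g p) ≤ c / 2 := by
    rw [Leaf.dist_le _ _ (by positivity)]
    obtain ⟨e1, e2⟩ := covB_co_iter hp (max m1 m2) z
    rw [e1, e2]
    exact ⟨h1 _ (le_max_left _ _), h2 _ (le_max_right _ _)⟩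
  linarith

/-- Uniform contraction of compact sets. -/
private theorem covB_absorb {g : X ≃ₜ X} {c : ℝ} (h : LP g c) {p : X} {N : ℕ} (hN : 1 ≤ N)
    (hp : g^[N] p = p) (C : Set (Leaf g p)) (hC : IsCompact C)
    (U : Set (Leaf g p)) (hU : U ∈ 𝓝 (Leaf.base g p)) :
    ∃ k : ℕ, ∀ z ∈ C, (covB_H hp).symm^[k] z ∈ U := by
  have hc := h.c_pos
  have hVo : ∀ k : ℕ, IsOpen {z : Leaf g p | dist ((covB_H hp).symm^[k] z) (Leaf.base g p) < c} := by
    intro k
    have : Continuous (fun z : Leaf g p => dist ((covB_H hp).symm^[k] z) (Leaf.base g p)) :=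
      ((covB_H hp).symm.continuous.iterate k).dist continuous_const
    exact isOpen_lt this continuous_const
  have hmono : ∀ k l : ℕ, k ≤ l →
      {z : Leaf g p | dist ((covB_H hp).symm^[k] z) (Leaf.base g p) < c} ⊆
      {z : Leaf g p | dist ((covB_H hp).symm^[l] z) (Leaf.base g p) < c} := by
    intro k l hkl z hz
    obtain ⟨d, rfl⟩ := Nat.exists_eq_add_of_le' hkl
    rcases Nat.eq_zero_or_pos d with h0 | h0
    · subst h0; simpa using hz
    · have h1 := covB_contract h hN hp d _ (le_of_lt hz)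
      rw [← Function.iterate_add_apply] at h1
      have h2 : (1 / 2 : ℝ) ^ d ≤ (1 / 2) ^ 1 :=
        pow_le_pow_of_le_one (by norm_num) (by norm_num) h0
      have h3 := mul_le_mul_of_nonneg_right h2 hc.le
      show dist _ _ < c
      linarith
  obtain ⟨k, hk⟩ := hC.elim_directed_cover _ hVo
    (fun z _ => by
      obtain ⟨k, hk⟩ := covB_reach h hN hp z
      exact Set.mem_iUnion.mpr ⟨k, hk⟩)
    (directed_of_isDirected_le hmono)
  obtain ⟨ρ, hρ, hball⟩ := Metric.mem_nhds_iff.mp hU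
  obtain ⟨m, hm⟩ : ∃ m : ℕ, (1 / 2 : ℝ) ^ m * c < ρ := by
    have : Tendsto (fun k : ℕ => (1 / 2 : ℝ) ^ k * c) atTop (nhds (0 * c)) :=
      (tendsto_pow_atTop_nhds_zero_of_lt_one (by norm_num) (by norm_num)).mul_const _
    rw [zero_mul] at this
    exact ((tendsto_order.mp this).2 ρ hρ).exists
  refine ⟨m + k, fun z hz => ?_⟩
  apply hball
  rw [Function.iterate_add_apply]
  exact lt_of_le_of_lt (covB_contract h hN hp m _ (le_of_lt (hk hz))) hm

/-- T12b: the leaf space is a cell -/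
theorem leaf_homeo {E : Type*} [NormedAddCommGroup E] [NormedSpace ℝ E]
    [ProperSpace E] {g : X ≃ₜ X} {c : ℝ} (h : LP g c) (p : X) (N : ℕ) (hN : 1 ≤ N)
    (hp : g^[N] p = p) (Φ : OpenPartialHomeomorph (Leaf g p) E) (hΦ : Leaf.base g p ∈ Φ.source) :
    Nonempty (E ≃ₜ Leaf g p) := by
  obtain ⟨e, he, he0⟩ := covB_exists_cell Φ _ hΦ
  have hnhds : Set.range e ∈ 𝓝 (Leaf.base g p) := by
    rw [← he0]
    exact he.isOpen_range.mem_nhds ⟨0, rfl⟩
  have hit : ∀ k : ℕ, IsOpenEmbedding ((covB_H hp)^[k] : Leaf g p → Leaf g p) := by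
    intro k
    induction k with
    | zero => exact IsOpenEmbedding.id
    | succ k ih =>
      rw [Function.iterate_succ']
      exact (covB_H hp).isOpenEmbedding.comp ih
  have hinv : ∀ (k : ℕ) (z : Leaf g p), (covB_H hp)^[k] ((covB_H hp).symm^[k] z) = z :=
    fun k z => (Function.LeftInverse.iterate (covB_H hp).apply_symm_apply k) z
  have hcell : ∀ C : Set (Leaf g p), IsCompact C → ∃ h : E → Leaf g p, IsOpenEmbedding h ∧
      h 0 = Leaf.base g p ∧ C ⊆ Set.range h := by
    intro C hC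
    obtain ⟨k, hk⟩ := covB_absorb h hN hp C hC _ hnhds
    refine ⟨(covB_H hp)^[k] ∘ e, (hit k).comp he, ?_, ?_⟩
    · show (covB_H hp)^[k] (e 0) = _
      rw [he0]
      exact Function.iterate_fixed (covB_H_base hp) k
    · intro z hz
      obtain ⟨x, hx⟩ := hk z hz
      exact ⟨x, by show (covB_H hp)^[k] (e x) = z; rw [hx, hinv]⟩
  have hopen : IsOpen (e '' Metric.ball 0 1) := he.isOpenMap _ Metric.isOpen_ball
  have hn1 : e '' Metric.closedBall 0 1 ∈ 𝓝 (Leaf.base g p) := by
    refine mem_of_superset (hopen.mem_nhds ⟨0, Metric.mem_ball_self one_pos, he0⟩) ?_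
    exact Set.image_mono Metric.ball_subset_closedBall
  refine Pool.Agent.H721R2.brown hcell (fun k => (covB_H hp)^[k] '' (e '' Metric.closedBall 0 1))
    (fun k => ((isCompact_closedBall 0 1).image he.continuous).image (hit k).continuous) ?_
  intro z
  obtain ⟨k, hk⟩ := covB_absorb h hN hp {z} isCompact_singleton _ hn1
  exact ⟨k, _, hk z rfl, hinv k z⟩

end Pool.Agent.H789R2.GP
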