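import Pool.Agent.H789R2.GP.LeafP

/-! Task T11 (helper828): the quadrilateral structure. -/

set_option autoImplicit false

open Filter Topology Set Metric unitInterval

namespace Pool.Agent.H789R2.GP

open Pool.Agent.H789R2.AN

variable {X : Type*} [MetricSpace X]

/-- The displacement pairs `(a, s)` and `(u, x)` are joined by a path. -/
def QJ [CompactSpace X] (g : X ≃ₜ X) (a s u x : X) : Prop :=
  ∃ (h1 : WS g a s) (h2 : WS g u x), Joined (⟨a, s, h1⟩ : Pr g) ⟨u, x, h2⟩

theorem qs_fst_cont [CompactSpace X] (g : X ≃ₜ X) : Continuous (Pr.fst : Pr g → SM g.symm) :=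
  ((Pr.continuous_iff (fun q : Pr g => q)).1 continuous_id).1

theorem qs_snd_cont [CompactSpace X] (g : X ≃ₜ X) : Continuous (Pr.snd : Pr g → SM g.symm) :=
  ((Pr.continuous_iff (fun q : Pr g => q)).1 continuous_id).2.1

theorem QJ.of_strip [CompactSpace X] {g : X ≃ₜ X} (Γ : C(I, Pr g)) {a s u x : X}
    (ha : (Γ 0).x = a) (hs : (Γ 0).y = s) (hu : (Γ 1).x = u) (hx : (Γ 1).y = x) :
    QJ g a s u x := by
  subst ha hs hu hx
  exact ⟨(Γ 0).h, (Γ 1).h, ⟨⟨Γ, rfl, rfl⟩⟩⟩

theorem QJ.strip [CompactSpace X] {g : X ≃ₜ X} {a s u x : X} (h : QJ g a s u x) :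
    ∃ Γ : C(I, Pr g), (Γ 0).x = a ∧ (Γ 0).y = s ∧ (Γ 1).x = u ∧ (Γ 1).y = x := by
  obtain ⟨h1, h2, ⟨p⟩⟩ := h
  refine ⟨p.toContinuousMap, ?_, ?_, ?_, ?_⟩
  · exact congrArg Pr.x p.source
  · exact congrArg Pr.y p.source
  · exact congrArg Pr.x p.target
  · exact congrArg Pr.y p.target

theorem QJ.ex [CompactSpace X] {g : X ≃ₜ X} {c : ℝ} (h : LP g c) (hX : ULC X)
    (hall : ∀ a s, WS g a s → Lf g a s) {a s u : X} (hs : WS g a s) (hu : WS g.symm a u) :
    ∃ x, QJ g a s u x := by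
  obtain ⟨v, h0, h1⟩ := leaf_conn h.symm hX a u hu
  obtain ⟨x, Γ, e1, e2, e3⟩ := hall a s hs v (by rw [h0])
  exact ⟨x, QJ.of_strip Γ (by rw [e3, h0]) e1 (by rw [e3, h1]) e2⟩

theorem QJ.unique [CompactSpace X] {g : X ≃ₜ X} {c : ℝ} (h : LP g c) (hX : ULC X)
    (hall : ∀ a s, WS g a s → Lf g a s) {a s u x x' : X} (h1 : QJ g a s u x)
    (h2 : QJ g a s u x') : x = x' := by
  obtain ⟨Γ, e1, e2, e3, e4⟩ := h1.strip
  obtain ⟨Γ', e1', e2', e3', e4'⟩ := h2.strip
  have hfst := qs_fst_cont g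
  let v : C(I, SM g.symm) := ⟨fun t => (Γ t).fst, hfst.comp Γ.continuous⟩
  let v' : C(I, SM g.symm) := ⟨fun t => (Γ' t).fst, hfst.comp Γ'.continuous⟩
  have hv0 : v 0 = v' 0 := SM.ext (e1.trans e1'.symm)
  have hv1 : v 1 = v' 1 := SM.ext (e3.trans e3'.symm)
  obtain ⟨H, H0, H1, H2, H3⟩ := leaf_homotopy h.symm hX v v' hv0 hv1
  have hL : ∀ r : I, ∃ G : C(I, Pr g), (G 0).y = s ∧ ∀ t, (G t).x = (H (r, t)).val := by
    intro r
    have hr : (H (r, 0)).val = a := by rw [H2]; exact e1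
    obtain ⟨y, G, g1, g2, g3⟩ := hall a s h1.choose
      ⟨fun t => H (r, t), H.continuous.comp (by fun_prop)⟩ hr
    exact ⟨G, g1, g3⟩
  choose G hG1 hG2 using hL
  let F : v.HomotopyRel v' {0, 1} :=
    { toFun := H
      continuous_toFun := H.continuous
      map_zero_left := H0
      map_one_left := H1
      prop' := by
        intro t y hy
        rcases hy with hy | hy
        · subst hy
          exact H2 t
        · rw [Set.mem_singleton_iff] at hy
          subst hy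
          exact H3 t }
  have hloc := fst_isLocalHomeomorph h
  have hsep : IsSeparatedMap (Pr.fst : Pr g → SM g.symm) := T2Space.isSeparatedMap _
  have hm := hloc.monodromy_theorem hsep F G (fun t r => SM.ext (hG2 t r)) (fun t => by
    apply Pr.ext
    · rw [hG2, hG2, H2, H2]
    · rw [hG1, hG1]) 1
  have hG0 : ⇑(G 0) = ⇑Γ := by
    refine hsep.eq_of_comp_eq hloc.isLocallyInjective (G 0).continuous Γ.continuous ?_ 0 ?_
    · funext t
      refine SM.ext ?_
      show (G 0 t).x = (Γ t).x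
      rw [hG2, H0]
      rfl
    · apply Pr.ext
      · rw [hG2, H0]
        rfl
      · rw [hG1, e2]
  have hG1' : ⇑(G 1) = ⇑Γ' := by
    refine hsep.eq_of_comp_eq hloc.isLocallyInjective (G 1).continuous Γ'.continuous ?_ 0 ?_
    · funext t
      refine SM.ext ?_
      show (G 1 t).x = (Γ' t).x
      rw [hG2, H1]
      rfl
    · apply Pr.ext
      · rw [hG2, H1]
        rfl
      · rw [hG1, e2']
  rw [← e4, ← e4', ← hG0, ← hG1', hm]

theorem WS_of_path [CompactSpace X] {g : X ≃ₜ X} {c : ℝ} (h : LP g c) (v : C(I, SM g))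
    (t t' : I) : WS g (v t).val (v t').val := by
  have hl : IsLocallyConstant (fun t : I => {y | WS g (v t).val y}) := by
    rw [IsLocallyConstant.iff_eventually_eq]
    intro t
    filter_upwards [(Metric.continuous_iff'.1 v.continuous) t c h.c_pos] with r hr
    have h1 : WS g (v r).val (v t).val :=
      WS.of_SR (h.cS _ _ ((SM.dist_le _ _ h.c_pos.le).1 hr.le))
    ext y
    exact ⟨fun hy => h1.symm'.trans hy, fun hy => h1.trans hy⟩
  have h1 := hl.apply_eq_of_preconnectedSpace t t'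
  have h2 : (v t').val ∈ {y | WS g (v t).val y} := by
    rw [h1]
    exact WS.refl _ _
  exact h2

theorem QJ.wU [CompactSpace X] {g : X ≃ₜ X} {c : ℝ} (h : LP g c) {a s u x : X}
    (h1 : QJ g a s u x) : WS g.symm s x := by
  obtain ⟨Γ, e1, e2, e3, e4⟩ := h1.strip
  have := WS_of_path h.symm ⟨fun t => (Γ t).snd, (qs_snd_cont g).comp Γ.continuous⟩ 0 1
  rw [← e2, ← e4]
  exact this

theorem QJ.compS [CompactSpace X] {g : X ≃ₜ X} {c : ℝ} (h : LP g c) (hX : ULC X)
    (hall : ∀ a s, WS g a s → Lf g a s) {a s u x s' x' : X} (h1 : QJ g a s u x)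
    (h2 : QJ g s s' x x') : QJ g a s' u x' := by
  obtain ⟨Γ, e1, e2, e3, e4⟩ := h1.strip
  have hfst := qs_fst_cont g
  have hsnd := qs_snd_cont g
  let v : C(I, SM g.symm) := ⟨fun t => (Γ t).snd, hsnd.comp Γ.continuous⟩
  obtain ⟨y, G, g1, g2, g3⟩ := hall s s' h2.choose v e2
  have g3' : ∀ t, (G t).x = (Γ t).y := g3
  have hy : QJ g s s' x y := QJ.of_strip G (by rw [g3', e2]) g1 (by rw [g3', e4]) g2
  have hxy : y = x' := QJ.unique h hX hall hy h2
  subst hxy
  let K : I → Pr g := fun t => ⟨(Γ t).x, (G t).y, (Γ t).h.trans (by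
    have := (G t).h
    rwa [g3'] at this)⟩
  have hK : Continuous K := by
    have k1 : Continuous (fun t => (Γ t).fst) := hfst.comp Γ.continuous
    have k2 : Continuous (fun t => (G t).snd) := hsnd.comp G.continuous
    rw [Pr.continuous_iff]
    refine ⟨k1, k2, fun t ε hε => ?_⟩
    obtain ⟨n1, hn1⟩ := ((Pr.continuous_iff Γ).1 Γ.continuous).2.2 t (ε / 2) (half_pos hε)
    obtain ⟨n2, hn2⟩ := ((Pr.continuous_iff G).1 G.continuous).2.2 t (ε / 2) (half_pos hε)
    refine ⟨max n1 n2, ?_⟩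
    filter_upwards [hn1, hn2] with r h1 h2 k hk
    have a1 := h1 k (le_of_max_le_left hk)
    have a2 := h2 k (le_of_max_le_right hk)
    rw [g3'] at a2
    have := dist_triangle (g^[k] (Γ r).x) (g^[k] (Γ r).y) (g^[k] (G r).y)
    show dist (g^[k] (Γ r).x) (g^[k] (G r).y) ≤ ε
    linarith
  exact QJ.of_strip ⟨K, hK⟩ e1 g1 e3 g2

theorem swap_continuous [CompactSpace X] (g : X ≃ₜ X) :
    Continuous (fun q : Pr g => (⟨q.y, q.x, q.h.symm'⟩ : Pr g)) := by
  rw [Pr.continuous_iff]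
  refine ⟨qs_snd_cont g, qs_fst_cont g, fun q ε hε => ?_⟩
  obtain ⟨n, hn⟩ := ((Pr.continuous_iff (fun q : Pr g => q)).1 continuous_id).2.2 q ε hε
  refine ⟨n, ?_⟩
  filter_upwards [hn] with r h k hk
  rw [dist_comm]
  exact h k hk

theorem QJ.flipS [CompactSpace X] {g : X ≃ₜ X} {a s u x : X} (h : QJ g a s u x) :
    QJ g s a x u := by
  obtain ⟨h1, h2, h3⟩ := h
  exact ⟨h1.symm', h2.symm', h3.map (swap_continuous g)⟩

theorem QJ.flipU [CompactSpace X] {g : X ≃ₜ X} {a s u x : X} (h : QJ g a s u x) :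
    QJ g u x a s := by
  obtain ⟨h1, h2, h3⟩ := h
  exact ⟨h2, h1, h3.symm⟩

theorem QJ.compU [CompactSpace X] {g : X ≃ₜ X} {a s u x u' x' : X} (h : QJ g a s u x)
    (h' : QJ g u x u' x') : QJ g a s u' x' := by
  obtain ⟨h1, h2, h3⟩ := h
  obtain ⟨h1', h2', h3'⟩ := h'
  exact ⟨h1, h2', h3.trans h3'⟩

theorem QJ.iter [CompactSpace X] {g φ : X ≃ₜ X} (hc : ∀ x, φ (g x) = g (φ x)) {a s u x : X}
    (h : QJ g a s u x) (j : ℕ) : QJ g (φ^[j] a) (φ^[j] s) (φ^[j] u) (φ^[j] x) := by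
  induction j with
  | zero => exact h
  | succ j ih =>
    simp only [Function.iterate_succ_apply']
    obtain ⟨h1, h2, h3⟩ := ih
    exact ⟨h1.map hc, h2.map hc, h3.map (map_Pr_continuous hc)⟩

theorem map_SM_iter [CompactSpace X] {g φ : X ≃ₜ X} (hc : ∀ x, φ (g x) = g (φ x)) (j : ℕ) :
    ∀ ε > 0, ∃ η > 0, ∀ x y : X, SR g η x y → SR g ε (φ^[j] x) (φ^[j] y) := by
  induction j with
  | zero => exact fun ε hε => ⟨ε, hε, fun x y h => h⟩
  | succ j ih =>
    intro ε hε
    obtain ⟨η, hη, h1⟩ := map_SM hc ε hε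
    obtain ⟨η', hη', h2⟩ := ih η hη
    refine ⟨η', hη', fun x y h => ?_⟩
    rw [Function.iterate_succ_apply', Function.iterate_succ_apply']
    exact h1 _ _ (h2 _ _ h)

theorem qs_fin_unif [CompactSpace X] (g : X ≃ₜ X) (N : ℕ) : ∀ ε > 0, ∃ η > 0, ∀ x y : X,
    dist x y < η → ∀ k ≤ N, dist (g^[k] x) (g^[k] y) < ε := by
  induction N with
  | zero =>
    intro ε hε
    refine ⟨ε, hε, fun x y hxy k hk => ?_⟩
    rw [Nat.le_zero.1 hk]
    exact hxy
  | succ N ih =>
    intro ε hε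
    obtain ⟨η, hη, h1⟩ := ih ε hε
    have hu : UniformContinuous (g^[N + 1]) :=
      CompactSpace.uniformContinuous_of_continuous (g.continuous.iterate _)
    obtain ⟨η', hη', h2⟩ := (Metric.uniformContinuous_iff.1 hu) ε hε
    refine ⟨min η η', lt_min hη hη', fun x y hxy k hk => ?_⟩
    rcases Nat.lt_or_ge N k with hk' | hk'
    · have : k = N + 1 := by omega
      rw [this]
      exact h2 (lt_of_lt_of_le hxy (min_le_right _ _))
    · exact h1 x y (lt_of_lt_of_le hxy (min_le_left _ _)) k hk'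

theorem qs_exists_pow {c : ℝ} (_hc : 0 < c) {ε : ℝ} (hε : 0 < ε) :
    ∃ N : ℕ, ∀ k ≥ N, c * (1 / 2 : ℝ) ^ k < ε := by
  have h1 : Tendsto (fun n : ℕ => c * (1 / 2 : ℝ) ^ n) atTop (𝓝 0) := by
    have := (tendsto_pow_atTop_nhds_zero_of_lt_one (by norm_num : (0:ℝ) ≤ 1 / 2)
      (by norm_num)).const_mul c
    simpa using this
  exact eventually_atTop.mp ((tendsto_order.mp h1).2 ε hε)

/-- On local stable sets the metric of `X` controls the stable metric. -/
theorem qs_SR_of_dist [CompactSpace X] {g : X ≃ₜ X} {c : ℝ} (h : LP g c) : ∀ ε > 0, ∃ η > 0,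
    ∀ x y : X, SR g c x y → dist x y < η → SR g ε x y := by
  intro ε hε
  obtain ⟨N, hN⟩ := qs_exists_pow h.c_pos hε
  obtain ⟨η, hη, h1⟩ := qs_fin_unif g N ε hε
  refine ⟨η, hη, fun x y hxy hd k => ?_⟩
  rcases Nat.lt_or_ge N k with hk | hk
  · exact (h.cS _ _ hxy k).trans (hN k hk.le).le
  · exact (h1 x y hd k hk).le

theorem qs_SR_add {g : X ≃ₜ X} {ε ε' : ℝ} {x y z : X} (h : SR g ε x y) (h' : SR g ε' y z) :
    SR g (ε + ε') x z := fun k => by
  have := dist_triangle (g^[k] x) (g^[k] y) (g^[k] z)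
  linarith [h k, h' k]

theorem qs_SR_refl (g : X ≃ₜ X) {ε : ℝ} (hε : 0 ≤ ε) (x : X) : SR g ε x x := fun k => by
  rw [dist_self]
  exact hε

/-- The strip of brackets. -/
theorem qs_br_strip [CompactSpace X] {g : X ≃ₜ X} {c : ℝ} (h : LP g c) {br : X → X → X} {δ : ℝ}
    (b1 : ∀ x y, dist x y < δ → SR g (c / 3) x (br x y) ∧ SR g.symm (c / 3) y (br x y))
    (b4 : ∀ ε > 0, ∃ η > 0, ∀ x x' y y', dist x y < δ → dist x' y' < δ → dist x x' < η →
        dist y y' < η → dist (br x y) (br x' y') < ε)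
    (v : C(I, SM g.symm)) (s : X) (hv : ∀ t, dist (v t).val s < δ) :
    QJ g (v 0).val (br (v 0).val s) (v 1).val (br (v 1).val s) := by
  have hc := h.c_pos
  have hS : ∀ t, SR g c (v t).val (br (v t).val s) := fun t =>
    (b1 _ _ (hv t)).1.mono (by linarith)
  let K : I → Pr g := fun t => ⟨(v t).val, br (v t).val s, WS.of_SR (h.cS _ _ (hS t))⟩
  have hK : Continuous K := by
    rw [Pr.continuous_iff]
    refine ⟨v.continuous, ?_, fun t ε hε => ?_⟩
    · rw [Metric.continuous_iff']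
      intro t ε hε
      obtain ⟨η, hη, h1⟩ := qs_SR_of_dist h.symm (ε / 2) (half_pos hε)
      obtain ⟨η', hη', h2⟩ := b4 η hη
      filter_upwards [(Metric.continuous_iff'.1 v.continuous) t η' hη'] with r hr
      have h3 : SR g.symm (ε / 2) (br (v r).val s) (br (v t).val s) := by
        apply h1
        · exact (qs_SR_add (b1 _ _ (hv r)).2.symm' (b1 _ _ (hv t)).2).mono (by linarith)
        · apply h2 _ _ _ _ (hv r) (hv t)
          · have h4 : SR g.symm (dist (v r) (v t)) (v r).val (v t).val :=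
              (SM.dist_le _ _ dist_nonneg).1 le_rfl
            exact lt_of_le_of_lt (h4 0) hr
          · rw [dist_self]
            exact hη'
      have h5 : dist ((K r).snd) ((K t).snd) ≤ ε / 2 := (SM.dist_le _ _ (half_pos hε).le).2 h3
      exact lt_of_le_of_lt h5 (half_lt_self hε)
    · obtain ⟨N, hN⟩ := qs_exists_pow hc hε
      refine ⟨N, Eventually.of_forall fun r k hk => ?_⟩
      exact (h.cS _ _ (hS r) k).trans (hN k hk).le
  exact QJ.of_strip ⟨K, hK⟩ rfl rfl rfl rfl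

/-- T11: the quadrilateral structure -/
theorem exists_QS [CompactSpace X] {g : X ≃ₜ X} {c : ℝ} (h : LP g c) (hX : ULC X)
    (hall : ∀ a s, WS g a s → Lf g a s) : ∃ c' > 0, Nonempty (QS g c') := by
  have hc := h.c_pos
  obtain ⟨br, δ, hδ, b1, b2, b3, b4⟩ := exists_br h
  obtain ⟨η0, hη0, hp⟩ := leaf_path h.symm hX (δ / 3) (by linarith)
  set c' := min η0 (min (δ / 3) (c / 3)) with hc'
  have hc'0 : 0 < c' := lt_min hη0 (lt_min (by linarith) (by linarith))
  have hc'1 : c' ≤ η0 := min_le_left _ _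
  have hc'2 : c' ≤ δ / 3 := (min_le_right _ _).trans (min_le_left _ _)
  have hc'3 : c' ≤ c / 3 := (min_le_right _ _).trans (min_le_right _ _)
  -- local strips
  have loc : ∀ a s u, SR g c' a s → SR g.symm c' a u → dist u s < δ ∧ QJ g a s u (br u s) := by
    intro a s u has hau
    obtain ⟨v, v0, v1, vt⟩ := hp ⟨a⟩ ⟨u⟩ ((SM.dist_le _ _ hη0.le).2 (hau.mono hc'1))
    have hd : ∀ t, dist (v t).val s < δ := by
      intro t
      have h1 : SR g.symm (δ / 3) a (v t).val := (SM.dist_le _ _ (by linarith)).1 (vt t)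
      have h2 : dist a (v t).val ≤ δ / 3 := h1 0
      have h3 : dist a s ≤ c' := has 0
      have h4 := dist_triangle (v t).val a s
      rw [dist_comm (v t).val a] at h4
      linarith
    have h1 := qs_br_strip h b1 b4 v s hd
    have hd0 := hd 0
    have hd1 := hd 1
    rw [v0, v1] at h1
    rw [v0] at hd0
    rw [v1] at hd1
    have h2 : s = br a s := b3 a s s hd0 (has.mono hc'3) (qs_SR_refl _ (by linarith) s)
    refine ⟨hd1, ?_⟩
    have h3 : QJ g a (br a s) u (br u s) := h1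
    rwa [← h2] at h3
  have key : ∀ a s u x, QJ g a s u x → SR g c' a s → SR g.symm c' a u →
      dist u s < δ ∧ x = br u s := by
    intro a s u x hQ has hau
    obtain ⟨h1, h2⟩ := loc a s u has hau
    exact ⟨h1, QJ.unique h hX hall hQ h2⟩
  have cg : ∀ x, g (g x) = g (g x) := fun _ => rfl
  have cgs : ∀ x, g.symm (g x) = g (g.symm x) := fun x => by simp
  have cgs' : ∀ x, g (g.symm x) = g.symm (g x) := fun x => by simp
  refine ⟨c', hc'0, ⟨?_⟩⟩
  refine
    { Q := QJ g
      ex := fun a s u hs hu => QJ.ex h hX hall hs hu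
      unique := fun a s u x x' h1 h2 => QJ.unique h hX hall h1 h2
      wS := fun a s u x h1 => h1.choose_spec.choose
      wU := fun a s u x h1 => h1.wU h
      compU := fun a s u x u' x' h1 h2 => h1.compU h2
      compS := fun a s u x s' x' h1 h2 => h1.compS h hX hall h2
      flipU := fun a s u x h1 => h1.flipU
      flipS := fun a s u x h1 => h1.flipS
      tiny := ?_
      contS := ?_
      contU := ?_ }
  · refine ⟨c', hc'0, fun a s u x h1 h2 h3 h4 => ?_⟩
    obtain ⟨h5, h6⟩ := loc a s u h1 h2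
    rwa [← b3 u s x h5 (h3.mono hc'3) (h4.mono hc'3)] at h6
  · intro j ε hε
    obtain ⟨η1, hη1, A1⟩ := qs_SR_of_dist h ε hε
    obtain ⟨η2, hη2, A2⟩ := b4 η1 hη1
    obtain ⟨η3, hη3, A3⟩ := map_SM_iter cgs j (min c' (η2 / 2))
      (lt_min hc'0 (half_pos hη2))
    refine ⟨η3, hη3, fun a s u x hQ has hau => ?_⟩
    have B1 := A3 a s has
    have hQj := hQ.iter cgs j
    obtain ⟨B2, B3⟩ := key _ _ _ _ hQj (B1.mono (min_le_left _ _)) hau
    have B4 : dist (g.symm^[j] u) (g.symm^[j] a) < δ := by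
      have : dist (g.symm^[j] a) (g.symm^[j] u) ≤ c' := hau 0
      rw [dist_comm]
      linarith
    have B5 : g.symm^[j] u = br (g.symm^[j] u) (g.symm^[j] a) :=
      b3 _ _ _ B4 (qs_SR_refl _ (by linarith) _) (hau.mono hc'3)
    have B6 : dist (g.symm^[j] a) (g.symm^[j] s) < η2 := by
      have : dist (g.symm^[j] a) (g.symm^[j] s) ≤ η2 / 2 := (B1.mono (min_le_right _ _)) 0
      linarith
    have B7 : dist (g.symm^[j] u) (g.symm^[j] x) < η1 := by
      have := A2 _ _ _ _ B4 B2 (by rw [dist_self]; exact hη2) B6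
      rwa [← B5, ← B3] at this
    have B8 : SR g c (g.symm^[j] u) (g.symm^[j] x) := by
      have := (b1 _ _ B2).1
      rw [← B3] at this
      exact this.mono (by linarith)
    have B9 := A1 _ _ B8 B7
    intro k
    have := B9 (k + j)
    rwa [Function.iterate_add_apply, Function.iterate_add_apply, iterR, iterR] at this
  · intro j ε hε
    obtain ⟨η1, hη1, A1⟩ := qs_SR_of_dist h.symm ε hε
    obtain ⟨η2, hη2, A2⟩ := b4 η1 hη1
    obtain ⟨η3, hη3, A3⟩ := map_SM_iter cgs' j (min c' (η2 / 2))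
      (lt_min hc'0 (half_pos hη2))
    refine ⟨η3, hη3, fun a s u x hQ hau has => ?_⟩
    have B1 := A3 a u hau
    have hQj := hQ.iter cg j
    obtain ⟨B2, B3⟩ := key _ _ _ _ hQj has (B1.mono (min_le_left _ _))
    have B4 : dist (g^[j] a) (g^[j] s) < δ := by
      have : dist (g^[j] a) (g^[j] s) ≤ c' := has 0
      linarith
    have B5 : g^[j] s = br (g^[j] a) (g^[j] s) :=
      b3 _ _ _ B4 (has.mono hc'3) (qs_SR_refl _ (by linarith) _)
    have B6 : dist (g^[j] a) (g^[j] u) < η2 := by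
      have : dist (g^[j] a) (g^[j] u) ≤ η2 / 2 := (B1.mono (min_le_right _ _)) 0
      linarith
    have B7 : dist (g^[j] s) (g^[j] x) < η1 := by
      have := A2 _ _ _ _ B4 B2 B6 (by rw [dist_self]; exact hη2)
      rwa [← B5, ← B3] at this
    have B8 : SR g.symm c (g^[j] s) (g^[j] x) := by
      have := (b1 _ _ B2).2
      rw [← B3] at this
      exact this.mono (by linarith)
    have B9 := A1 _ _ B8 B7
    intro k
    have := B9 (k + j)
    rwa [Function.iterate_add_apply, Function.iterate_add_apply, iterL, iterL] at this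

end Pool.Agent.H789R2.GP
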