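import Pool.Agent.H789R2.GP.Defs

set_option autoImplicit false

open Filter Topology Set Metric unitInterval

namespace Pool.Agent.H789R2.GP

open Pool.Agent.H789R2.AN Pool.Agent.H789R2.GP

variable {X : Type*} [MetricSpace X]

/-- uniformly small convex chart domains -/
theorem ulc_key {E : Type*} [NormedAddCommGroup E] [NormedSpace ℝ E] [ChartedSpace E X]
    [CompactSpace X] (ε : ℝ) (hε : 0 < ε) : ∃ δ > 0, ∀ a : X,
    ∃ (ψ : OpenPartialHomeomorph X E) (C : Set E), Convex ℝ C ∧ C ⊆ ψ.target ∧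
      (∀ p ∈ C, ψ.symm p ∈ ball a ε) ∧ ∀ x ∈ ball a δ, x ∈ ψ.source ∧ ψ x ∈ C := by
  have h1 : ∀ a : X, ∃ r > 0, ball (chartAt E a a) r ⊆
      (chartAt E a).target ∩ (chartAt E a).symm ⁻¹' (ball a (ε / 2)) := by
    intro a
    have ht : (chartAt E a).target ∈ 𝓝 (chartAt E a a) :=
      (chartAt E a).open_target.mem_nhds (mem_chart_target E a)
    have hs : (chartAt E a).symm ⁻¹' (ball a (ε / 2)) ∈ 𝓝 (chartAt E a a) := by
      have hc : ContinuousAt (chartAt E a).symm (chartAt E a a) :=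
        (chartAt E a).continuousAt_symm (mem_chart_target E a)
      apply hc.preimage_mem_nhds
      rw [(chartAt E a).left_inv (mem_chart_source E a)]
      exact ball_mem_nhds a (by linarith)
    exact Metric.mem_nhds_iff.mp (inter_mem ht hs)
  choose r hr hr' using h1
  have ho : ∀ a : X, IsOpen ((chartAt E a).source ∩ chartAt E a ⁻¹' (ball (chartAt E a a) (r a))) :=
    fun a => (chartAt E a).isOpen_inter_preimage isOpen_ball
  have hm : ∀ a : X, a ∈ (chartAt E a).source ∩ chartAt E a ⁻¹' (ball (chartAt E a a) (r a)) :=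
    fun a => ⟨mem_chart_source E a, mem_ball_self (hr a)⟩
  obtain ⟨δ, hδ, hδ'⟩ := lebesgue_number_lemma_of_metric (isCompact_univ (X := X)) ho
    (fun a _ => mem_iUnion.mpr ⟨a, hm a⟩)
  refine ⟨δ, hδ, fun a => ?_⟩
  obtain ⟨a0, ha0⟩ := hδ' a (mem_univ a)
  have ha : a ∈ ball a0 (ε / 2) := by
    obtain ⟨h2, h3⟩ := ha0 (mem_ball_self hδ)
    have h4 := (hr' a0 h3).2
    rw [mem_preimage, (chartAt E a0).left_inv h2] at h4
    exact h4
  refine ⟨chartAt E a0, ball (chartAt E a0 a0) (r a0), convex_ball _ _,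
    fun p hp => (hr' a0 hp).1, fun p hp => ?_, fun x hx => ha0 hx⟩
  have h5 : (chartAt E a0).symm p ∈ ball a0 (ε / 2) := (hr' a0 hp).2
  rw [mem_ball] at ha h5 ⊢
  rw [dist_comm] at ha
  have := dist_triangle ((chartAt E a0).symm p) a0 a
  linarith

/-- T9: compact manifolds -/
theorem ulc_of_charted {E : Type*} [NormedAddCommGroup E] [NormedSpace ℝ E] [ChartedSpace E X]
    [CompactSpace X] : ULC X := by
  constructor
  · intro ε hε
    obtain ⟨δ, hδ, h⟩ := ulc_key (X := X) (E := E) ε hε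
    refine ⟨δ, hδ, fun a x y hx hy => ?_⟩
    obtain ⟨ψ, C, hC, hCt, hb, hx'⟩ := h a
    obtain ⟨x1, x2⟩ := hx' x hx
    obtain ⟨y1, y2⟩ := hx' y hy
    have hm : ∀ t : I, (1 - (t : ℝ)) • ψ x + (t : ℝ) • ψ y ∈ C := fun t =>
      hC x2 y2 (by linarith [t.2.2]) t.2.1 (by ring)
    refine ⟨⟨fun t => ψ.symm ((1 - (t : ℝ)) • ψ x + (t : ℝ) • ψ y), ?_⟩, ?_, ?_, ?_⟩
    · exact ψ.continuousOn_symm.comp_continuous (by fun_prop) (fun t => hCt (hm t))
    · show ψ.symm ((1 - ((0 : I) : ℝ)) • ψ x + ((0 : I) : ℝ) • ψ y) = x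
      simp [ψ.left_inv x1]
    · show ψ.symm ((1 - ((1 : I) : ℝ)) • ψ x + ((1 : I) : ℝ) • ψ y) = y
      simp [ψ.left_inv y1]
    · exact fun t => hb _ (hm t)
  · intro ε hε
    obtain ⟨δ, hδ, h⟩ := ulc_key (X := X) (E := E) ε hε
    refine ⟨δ, hδ, fun a κ κ' h0 h1 hκ hκ' => ?_⟩
    obtain ⟨ψ, C, hC, hCt, hb, hx'⟩ := h a
    have hm : ∀ p : I × I, (1 - (p.1 : ℝ)) • ψ (κ p.2) + (p.1 : ℝ) • ψ (κ' p.2) ∈ C := fun p =>
      hC (hx' _ (hκ p.2)).2 (hx' _ (hκ' p.2)).2 (by linarith [p.1.2.2]) p.1.2.1 (by ring)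
    have c1 : Continuous (fun p : I × I => ψ (κ p.2)) :=
      ψ.continuousOn.comp_continuous (by fun_prop) (fun p => (hx' _ (hκ p.2)).1)
    have c2 : Continuous (fun p : I × I => ψ (κ' p.2)) :=
      ψ.continuousOn.comp_continuous (by fun_prop) (fun p => (hx' _ (hκ' p.2)).1)
    refine ⟨⟨fun p => ψ.symm ((1 - (p.1 : ℝ)) • ψ (κ p.2) + (p.1 : ℝ) • ψ (κ' p.2)), ?_⟩,
      ?_, ?_, ?_, ?_, ?_⟩
    · have c0 : Continuous (fun p : I × I => (p.1 : ℝ)) := continuous_subtype_val.comp continuous_fst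
      exact ψ.continuousOn_symm.comp_continuous
        (((continuous_const.sub c0).smul c1).add (c0.smul c2)) (fun p => hCt (hm p))
    · intro t
      show ψ.symm ((1 - ((0 : I) : ℝ)) • ψ (κ t) + ((0 : I) : ℝ) • ψ (κ' t)) = κ t
      simp [ψ.left_inv (hx' _ (hκ t)).1]
    · intro t
      show ψ.symm ((1 - ((1 : I) : ℝ)) • ψ (κ t) + ((1 : I) : ℝ) • ψ (κ' t)) = κ' t
      simp [ψ.left_inv (hx' _ (hκ' t)).1]
    · intro s
      show ψ.symm ((1 - (s : ℝ)) • ψ (κ 0) + (s : ℝ) • ψ (κ' 0)) = κ 0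
      rw [← h0, ← add_smul, sub_add_cancel, one_smul, ψ.left_inv (hx' _ (hκ 0)).1]
    · intro s
      show ψ.symm ((1 - (s : ℝ)) • ψ (κ 1) + (s : ℝ) • ψ (κ' 1)) = κ 1
      rw [← h1, ← add_smul, sub_add_cancel, one_smul, ψ.left_inv (hx' _ (hκ 1)).1]
    · exact fun p => hb _ (hm p)

end Pool.Agent.H789R2.GP
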