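import Pool.Agent.H789R2.GP.Good
import Pool.Agent.H789R2.GP.QSx
import Pool.Agent.H789R2.GP.Ulc
import Pool.Agent.H789R2.GP.CovA
import Pool.Agent.H789R2.GP.CovB
import Pool.Agent.H789R2.AN.TNS
import Pool.Agent.H721R2.PerPt

set_option autoImplicit false
set_option linter.unusedSectionVars false

open Filter Topology Set Metric
open scoped Manifold ContDiff

namespace Pool.Agent.H789R2.GP

open Pool.Agent.H789R2.AN Pool.Agent.H721R2

section cov

variable {X : Type*} [MetricSpace X]

/-- T12: the covering -/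
theorem exists_covering [CompactSpace X] {E : Type*} [NormedAddCommGroup E] [NormedSpace ℝ E]
    [ProperSpace E] [ChartedSpace E X] {g : X ≃ₜ X} {c c' : ℝ} (h : LP g c) (hc' : 0 < c')
    (T : QS g c') (p : X) (N : ℕ) (hN : 1 ≤ N) (hp : g^[N] p = p) :
    ∃ π : E → X, IsCoveringMap π := by
  have hcov : IsCoveringMap (Leaf.pr T : Leaf g p → X) := pr_isCoveringMap h hc' T p
  obtain ⟨ψ, hψ, -⟩ := hcov.isLocalHomeomorph (Leaf.base g p)
  let Φ := ψ.trans (chartAt E (ψ (Leaf.base g p)))
  have hΦ : Leaf.base g p ∈ Φ.source := by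
    rw [OpenPartialHomeomorph.trans_source]
    exact ⟨hψ, mem_chart_source E _⟩
  obtain ⟨e⟩ := leaf_homeo h p N hN hp Φ hΦ
  exact ⟨Leaf.pr T ∘ e, hcov.comp_homeomorph e⟩

end cov

section abstract

variable {X F : Type*} [MetricSpace X] [NormedAddCommGroup F] [NormedSpace ℝ F]

/-- T13a -/
theorem nest_of_le [CompactSpace X] (S₁ S₂ : HypSys X F) (he : ∀ x, S₁.e x = S₂.e x)
    (hc : ∀ x, S₁.g (S₂.g x) = S₂.g (S₁.g x)) (hV : ∀ x, S₁.Vu x ≤ S₂.Vu x) :
    Nest S₁.g.symm S₂.g.symm := by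
  obtain ⟨ε, hε, hstep⟩ := step_contr S₁ S₂ he hV
  have hc1 : ∀ x, S₂.g.symm (S₁.g.symm x) = S₁.g.symm (S₂.g.symm x) :=
    fun x => comm_symm_left (g := S₁.g.symm) (φ := S₂.g)
      (comm_symm_right (g := S₁.g) (φ := S₂.g) (fun x => (hc x).symm)) x
  refine ⟨ε, hε, fun x y hxy => ?_⟩
  have hall : ∀ n : ℕ, S₁.URel ε (S₂.g.symm^[n] x) (S₂.g.symm^[n] y) ∧
      dist (S₂.g.symm^[n] x) (S₂.g.symm^[n] y) ≤ ε * (1 / 2) ^ n := by
    intro n
    induction n with
    | zero => exact ⟨hxy, by simpa using hxy 0⟩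
    | succ n ih =>
      rw [Function.iterate_succ_apply', Function.iterate_succ_apply']
      obtain ⟨ih1, ih2⟩ := ih
      constructor
      · intro k
        rw [← iter_comm (g := S₁.g.symm) (φ := S₂.g.symm) hc1,
          ← iter_comm (g := S₁.g.symm) (φ := S₂.g.symm) hc1]
        have h1 := hstep _ _ (ih1.iter k)
        have h2 := ih1 k
        have h3 : 0 ≤ dist (S₁.g.symm^[k] (S₂.g.symm^[n] x)) (S₁.g.symm^[k] (S₂.g.symm^[n] y)) :=
          dist_nonneg
        linarith
      · have h1 := hstep _ _ ih1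
        rw [pow_succ]
        linarith
  exact fun n => (hall n).2

/-- T13b -/
theorem abs_cov [CompactSpace X] [Nonempty X] {E : Type*} [NormedAddCommGroup E] [NormedSpace ℝ E]
    [ProperSpace E] [ChartedSpace E X] {ι : Type*} (S : ι → HypSys X F)
    (e : X → F) (he : ∀ i x, (S i).e x = e x)
    (hc : ∀ i j x, (S i).g ((S j).g x) = (S j).g ((S i).g x)) (i j : ι)
    (hconn : Relation.EqvGen (fun i j => ∀ x, (S i).Vu x ≤ (S j).Vu x ∧ (S j).Vs x ≤ (S i).Vs x) i j)
    (hend : ∀ x, (S i).Vs x ≤ (S j).Vu x) : ∃ π : E → X, IsCoveringMap π := by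
  have hLP : ∀ k, ∃ c, LP (S k).g c := fun k => exists_LP (S k)
  choose c hcLP using hLP
  have hall : ∀ a s, WS (S i).g a s → Lf (S i).g a s := by
    refine all_good (fun k => (S k).g) c hcLP hc i j ?_ ?_
    · refine Relation.EqvGen.mono ?_ i j hconn
      intro a b hab
      refine ⟨?_, ?_⟩
      · exact nest_of_le (S b).symm (S a).symm (fun x => ((he b x).trans (he a x).symm))
          (fun x => by
            show (S b).g.symm ((S a).g.symm x) = (S a).g.symm ((S b).g.symm x)
            exact comm_symm_left (g := (S a).g.symm) (φ := (S b).g)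
              (comm_symm_right (g := (S a).g) (φ := (S b).g) (fun x => hc b a x)) x)
          (fun x => (hab x).2)
      · exact nest_of_le (S a) (S b) (fun x => ((he a x).trans (he b x).symm))
          (fun x => hc a b x) (fun x => (hab x).1)
    · exact nest_of_le (S i).symm (S j) (fun x => ((he i x).trans (he j x).symm))
        (fun x => by
          show (S i).g.symm ((S j).g x) = (S j).g ((S i).g.symm x)
          exact comm_symm_left (g := (S j).g) (φ := (S i).g) (fun x => hc i j x) x)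
        hend
  obtain ⟨c', hc', ⟨T⟩⟩ := exists_QS (hcLP i) (ulc_of_charted (X := X) (E := E)) hall
  obtain ⟨q, hq, p, hp⟩ := (S i).exists_periodic
  exact exists_covering (hcLP i) hc' T p q hq hp

end abstract

/-- A covering map with nonempty source and connected target is surjective. -/
theorem covering_surj {A B : Type*} [TopologicalSpace A] [TopologicalSpace B] [Nonempty A]
    [PreconnectedSpace B] {π : A → B} (hπ : IsCoveringMap π) : Function.Surjective π := by
  rw [← range_eq_univ]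
  apply IsClopen.eq_univ _ (range_nonempty π)
  refine ⟨?_, hπ.isOpenMap.isOpen_range⟩
  rw [← isOpen_compl_iff, isOpen_iff_mem_nhds]
  intro x hx
  obtain ⟨-, U, hxU, hU, -, H, hH⟩ := hπ x
  refine mem_of_superset (hU.mem_nhds hxU) ?_
  rintro y hy ⟨z, rfl⟩
  obtain ⟨w, hw⟩ := (H ⟨z, hy⟩).2
  exact hx ⟨w, hw⟩

section manifold

variable {E : Type*} [NormedAddCommGroup E] [NormedSpace ℝ E] [FiniteDimensional ℝ E]
  {M : Type*} [TopologicalSpace M] [T2Space M] [CompactSpace M] [ConnectedSpace M]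
  [ChartedSpace E M] [IsManifold 𝓘(ℝ, E) ∞ M]

/-- T13c -/
theorem man_cov {ι : Type*} (f : ι → Diffeomorph 𝓘(ℝ, E) 𝓘(ℝ, E) M M 1)
    (Es Eu : ι → ∀ x : M, Submodule ℝ (TangentSpace 𝓘(ℝ, E) x))
    (hA : ∀ i, IsAnosov (f i) (Es i) (Eu i)) (hc : ∀ i j x, f i (f j x) = f j (f i x)) (i j : ι)
    (hconn : Relation.EqvGen (fun i j => ∀ x, Eu i x ≤ Eu j x ∧ Es j x ≤ Es i x) i j)
    (hend : ∀ x, Es i x ≤ Eu j x) : ∃ π : E → M, IsCoveringMap π ∧ Function.Surjective π := by
  obtain ⟨m, e, he, hemb, hinj⟩ := exists_embedding_euclidean_of_compact (I := 𝓘(ℝ, E)) (M := M)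
  let _ : MetricSpace M := hemb.isEmbedding.comapMetricSpace e
  have hiso : ∀ x y : M, dist x y = ‖e x - e y‖ := fun x y => dist_eq_norm (e x) (e y)
  have he1 : ContMDiff 𝓘(ℝ, E) (𝓡 m) 1 e := he.of_le (by simp)
  have hsys := fun i => exists_sys hiso he1 hinj (f i) (Es i) (Eu i) (hA i)
  choose n S hg hSe hVs hVu using hsys
  have hgi : ∀ i x, (S i).g x = (f i)^[n i] x := fun i x => by
    rw [hg]; rfl
  have : ProperSpace E := FiniteDimensional.proper_real E
  obtain ⟨π, hπ⟩ := abs_cov (E := E) S e (fun i x => by rw [hSe])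
    (fun a b x => by
      rw [hgi, hgi, hgi, hgi]
      exact iter_iter_comm (hc a b) _ _ x) i j (by
      refine Relation.EqvGen.mono ?_ i j hconn
      intro a b hab x
      rw [hVu, hVu, hVs, hVs]
      exact ⟨Submodule.map_mono (hab x).1, Submodule.map_mono (hab x).2⟩) (by
      intro x
      rw [hVs, hVu]
      exact Submodule.map_mono (hend x))
  exact ⟨π, hπ, covering_surj hπ⟩

end manifold

end Pool.Agent.H789R2.GP
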