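import Pool.Agent.H789R2.AN.Top

set_option autoImplicit false

open Filter Topology Set Metric BoundedContinuousFunction unitInterval

namespace Pool.Agent.H789R2.GP

open Pool.Agent.H789R2.AN

variable {X : Type*} [MetricSpace X]

/-- The space `X` with the metric `sup_k d(g^k x, g^k y)`. -/
@[ext]
structure SM (g : X ≃ₜ X) where
  val : X

/-- the orbit as a bounded function -/
noncomputable def orb [CompactSpace X] (g : X ≃ₜ X) (x : X) : ℕ →ᵇ X :=
  BoundedContinuousFunction.mkOfBound ⟨fun k => g^[k] x, continuous_of_discreteTopology⟩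
    (Metric.diam (Set.univ : Set X))
    (fun _ _ => Metric.dist_le_diam_of_mem isCompact_univ.isBounded (Set.mem_univ _)
      (Set.mem_univ _))

theorem orb_apply [CompactSpace X] (g : X ≃ₜ X) (x : X) (k : ℕ) : orb g x k = g^[k] x := rfl

theorem orb_dist [CompactSpace X] (g : X ≃ₜ X) (x y : X) {ε : ℝ} (hε : 0 ≤ ε) :
    dist (orb g x) (orb g y) ≤ ε ↔ SR g ε x y := by
  rw [BoundedContinuousFunction.dist_le hε]
  rfl

theorem orb_inj [CompactSpace X] (g : X ≃ₜ X) {x y : X} (h : orb g x = orb g y) : x = y := by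
  have := congrArg (fun F : ℕ →ᵇ X => F 0) h
  simpa [orb_apply] using this

noncomputable instance [CompactSpace X] (g : X ≃ₜ X) : MetricSpace (SM g) :=
  MetricSpace.induced (fun z => orb g z.val) (fun _ _ h => SM.ext (orb_inj g h)) inferInstance

theorem SM.dist_le [CompactSpace X] {g : X ≃ₜ X} (z z' : SM g) {ε : ℝ} (hε : 0 ≤ ε) :
    dist z z' ≤ ε ↔ SR g ε z.val z'.val := orb_dist g _ _ hε

/-- Pairs of points on the same stable leaf of `g`. -/
@[ext]
structure Pr (g : X ≃ₜ X) where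
  x : X
  y : X
  h : WS g x y

/-- the sequence of distances -/
noncomputable def seq [CompactSpace X] (g : X ≃ₜ X) (x y : X) : ℕ →ᵇ ℝ :=
  BoundedContinuousFunction.mkOfBound ⟨fun k => dist (g^[k] x) (g^[k] y),
    continuous_of_discreteTopology⟩ (Metric.diam (Set.univ : Set X)) (fun a b => by
      have h : ∀ k, dist (g^[k] x) (g^[k] y) ≤ Metric.diam (Set.univ : Set X) := fun k =>
        Metric.dist_le_diam_of_mem isCompact_univ.isBounded (Set.mem_univ _) (Set.mem_univ _)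
      have h0 : ∀ k, 0 ≤ dist (g^[k] x) (g^[k] y) := fun k => dist_nonneg
      show |dist (g^[a] x) (g^[a] y) - dist (g^[b] x) (g^[b] y)| ≤ _
      rw [abs_le]
      constructor <;> linarith [h a, h b, h0 a, h0 b])

theorem seq_apply [CompactSpace X] (g : X ≃ₜ X) (x y : X) (k : ℕ) :
    seq g x y k = dist (g^[k] x) (g^[k] y) := rfl

/-- The étale topology on pairs (over the unstable metric of each entry). -/
noncomputable instance [CompactSpace X] (g : X ≃ₜ X) : MetricSpace (Pr g) :=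
  MetricSpace.induced (fun q => ((⟨q.x⟩ : SM g.symm), (⟨q.y⟩ : SM g.symm), seq g q.x q.y))
    (fun q q' h => by
      rw [Prod.mk.injEq, Prod.mk.injEq] at h
      exact Pr.ext (congrArg SM.val h.1) (congrArg SM.val h.2.1)) inferInstance

theorem Pr.dist_le [CompactSpace X] {g : X ≃ₜ X} (q q' : Pr g) {ε : ℝ} (hε : 0 ≤ ε) :
    dist q q' ≤ ε ↔ SR g.symm ε q.x q'.x ∧ SR g.symm ε q.y q'.y ∧
      ∀ k : ℕ, |dist (g^[k] q.x) (g^[k] q.y) - dist (g^[k] q'.x) (g^[k] q'.y)| ≤ ε := by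
  have h1 : dist q q' = max (dist (⟨q.x⟩ : SM g.symm) ⟨q'.x⟩)
    (max (dist (⟨q.y⟩ : SM g.symm) ⟨q'.y⟩) (dist (seq g q.x q.y) (seq g q'.x q'.y))) := rfl
  rw [h1, max_le_iff, max_le_iff, SM.dist_le _ _ hε, SM.dist_le _ _ hε,
    BoundedContinuousFunction.dist_le hε]
  rfl

/-- first entry -/
def Pr.fst {g : X ≃ₜ X} (q : Pr g) : SM g.symm := ⟨q.x⟩

/-- second entry -/
def Pr.snd {g : X ≃ₜ X} (q : Pr g) : SM g.symm := ⟨q.y⟩

/-- The unstable path `υ` lifts to a strip starting with the stable displacement `υ 0 → s`, ending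
at `x`. -/
def LO [CompactSpace X] {g : X ≃ₜ X} (υ : C(I, SM g.symm)) (s x : X) : Prop :=
  ∃ Γ : C(I, Pr g), (Γ 0).y = s ∧ (Γ 1).y = x ∧ ∀ t, (Γ t).x = (υ t).val

/-- All unstable paths from `a` lift to strips starting with the stable displacement `a → s`. -/
def Lf [CompactSpace X] (g : X ≃ₜ X) (a s : X) : Prop :=
  ∀ υ : C(I, SM g.symm), (υ 0).val = a → ∃ x, LO υ s x

/-- Uniform contraction under `φ` in the stable metric of `g`, of the displacements
`x i → y i`. -/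
def UC {A : Type*} (g φ : X ≃ₜ X) (x y : A → X) : Prop :=
  ∀ ε > 0, ∃ M : ℕ, ∀ m ≥ M, ∀ i, SR g ε (φ^[m] (x i)) (φ^[m] (y i))

/-- Contraction under `φ` in the stable metric of `g`. -/
def CC (g φ : X ≃ₜ X) (x y : X) : Prop := UC g φ (fun _ : Unit => x) (fun _ : Unit => y)

/-- Local stable sets of `φ` are uniformly contracted by `ψ`. -/
def Nest (φ ψ : X ≃ₜ X) : Prop :=
  ∃ ε > 0, ∀ x y, SR φ ε x y → ∀ n : ℕ, dist (ψ^[n] x) (ψ^[n] y) ≤ ε * (1 / 2) ^ n

/-- All displacements in the joint foliation `W^s(g) ∩ W^u(h)` are liftable. -/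
def Good [CompactSpace X] (g h : X ≃ₜ X) : Prop := ∀ a s, CC g h.symm a s → Lf g a s

/-- Uniform local path connectedness and local simple connectedness. -/
structure ULC (X : Type*) [MetricSpace X] : Prop where
  path : ∀ ε > 0, ∃ δ > 0, ∀ a x y : X, x ∈ ball a δ → y ∈ ball a δ →
    ∃ κ : C(I, X), κ 0 = x ∧ κ 1 = y ∧ ∀ t, κ t ∈ ball a ε
  homo : ∀ ε > 0, ∃ δ > 0, ∀ (a : X) (κ κ' : C(I, X)), κ 0 = κ' 0 → κ 1 = κ' 1 →
    (∀ t, κ t ∈ ball a δ) → (∀ t, κ' t ∈ ball a δ) →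
    ∃ H : C(I × I, X), (∀ t, H (0, t) = κ t) ∧ (∀ t, H (1, t) = κ' t) ∧
      (∀ s, H (s, 0) = κ 0) ∧ (∀ s, H (s, 1) = κ 1) ∧ ∀ p, H p ∈ ball a ε

/-- An abstract quadrilateral structure: `Q a s u x` means that the unstable path from `a` to `u`
slides along the stable displacement `a → s` to an unstable path from `s` to `x`. -/
structure QS (g : X ≃ₜ X) (c : ℝ) where
  Q : X → X → X → X → Prop
  ex : ∀ a s u, WS g a s → WS g.symm a u → ∃ x, Q a s u x
  unique : ∀ a s u x x', Q a s u x → Q a s u x' → x = x'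
  wS : ∀ a s u x, Q a s u x → WS g u x
  wU : ∀ a s u x, Q a s u x → WS g.symm s x
  compU : ∀ a s u x u' x', Q a s u x → Q u x u' x' → Q a s u' x'
  compS : ∀ a s u x s' x', Q a s u x → Q s s' x x' → Q a s' u x'
  flipU : ∀ a s u x, Q a s u x → Q u x a s
  flipS : ∀ a s u x, Q a s u x → Q s a x u
  tiny : ∃ ε > 0, ∀ a s u x, SR g ε a s → SR g.symm ε a u → SR g ε u x → SR g.symm ε s x →
    Q a s u x
  contS : ∀ j : ℕ, ∀ ε > 0, ∃ η > 0, ∀ a s u x, Q a s u x → SR g η a s →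
    SR g.symm c (g.symm^[j] a) (g.symm^[j] u) → SR g ε u x
  contU : ∀ j : ℕ, ∀ ε > 0, ∃ η > 0, ∀ a s u x, Q a s u x →
    SR g.symm η a u → SR g c (g^[j] a) (g^[j] s) → SR g.symm ε s x

end Pool.Agent.H789R2.GP
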