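import Pool.Agent.H789R2.GP.Defs

set_option autoImplicit false

open Filter Topology Set Metric

namespace Pool.Agent.H789R2.GP

open Pool.Agent.H789R2.AN

variable {X : Type*} [MetricSpace X]

/-- The product of the unstable leaf and the stable leaf of `p`. -/
@[ext]
structure Leaf (g : X ≃ₜ X) (p : X) where
  u : X
  s : X
  hu : WS g.symm p u
  hs : WS g p s

noncomputable instance [CompactSpace X] (g : X ≃ₜ X) (p : X) : MetricSpace (Leaf g p) :=
  MetricSpace.induced (fun z => ((⟨z.u⟩ : SM g.symm), (⟨z.s⟩ : SM g)))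
    (fun _ _ h => by
      rw [Prod.mk.injEq] at h
      exact Leaf.ext (congrArg SM.val h.1) (congrArg SM.val h.2)) inferInstance

theorem Leaf.dist_le [CompactSpace X] {g : X ≃ₜ X} {p : X} (z z' : Leaf g p) {ε : ℝ}
    (hε : 0 ≤ ε) : dist z z' ≤ ε ↔ SR g.symm ε z.u z'.u ∧ SR g ε z.s z'.s := by
  have h1 : dist z z' = max (dist (⟨z.u⟩ : SM g.symm) ⟨z'.u⟩) (dist (⟨z.s⟩ : SM g) ⟨z'.s⟩) := rfl
  rw [h1, max_le_iff, SM.dist_le _ _ hε, SM.dist_le _ _ hε]

/-- The fourth corner. -/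
noncomputable def Leaf.pr {g : X ≃ₜ X} {p : X} {c : ℝ} (T : QS g c) (z : Leaf g p) : X :=
  (T.ex p z.s z.u z.hs z.hu).choose

theorem Leaf.pr_spec {g : X ≃ₜ X} {p : X} {c : ℝ} (T : QS g c) (z : Leaf g p) :
    T.Q p z.s z.u (z.pr T) := (T.ex p z.s z.u z.hs z.hu).choose_spec

theorem Leaf.pr_eq {g : X ≃ₜ X} {p : X} {c : ℝ} (T : QS g c) {z : Leaf g p} {x : X}
    (h : T.Q p z.s z.u x) : z.pr T = x := T.unique _ _ _ _ _ (z.pr_spec T) h

/-- The base point. -/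
def Leaf.base (g : X ≃ₜ X) (p : X) : Leaf g p := ⟨p, p, WS.refl _ p, WS.refl _ p⟩

end Pool.Agent.H789R2.GP
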