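import Pool.Agent.H789R2.AN.Man

set_option autoImplicit false
set_option linter.unusedSectionVars false

open scoped Manifold ContDiff Topology Bundle
open Set Filter Bundle

namespace Pool.Agent.H789R2.GP

open Pool.Agent.H721R2 Pool.Agent.H789R2.AN

section auto

variable {E₀ : Type*} [NormedAddCommGroup E₀] [NormedSpace ℝ E₀] [FiniteDimensional ℝ E₀]
  {M : Type*} [MetricSpace M] [CompactSpace M] [ChartedSpace E₀ M] [IsManifold 𝓘(ℝ, E₀) 1 M]
  {F : Type*} [NormedAddCommGroup F] [NormedSpace ℝ F]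

/-- Vectors with bounded forward orbit are stable. -/
theorem mem_of_bound {e : M → F} (hinj : ∀ x, Function.Injective (dm E₀ e x))
    {f : M ≃ₜ M} {Es Eu : M → Submodule ℝ E₀} {C a b Ls Lu : ℝ}
    (h : EAnosov e f Es Eu C a b Ls Lu) {x : M} {w : E₀} {Q : ℝ}
    (hb : ∀ n : ℕ, ‖dm E₀ e (f^[n] x) (dg E₀ (f^[n]) x w)‖ ≤ Q) : w ∈ Es x := by
  obtain ⟨s, hs, u, hu, hsu⟩ := h.decomp x w
  have hC := h.C_pos
  have key : ∀ n : ℕ, ‖dm E₀ e x u‖ ≤ C * b ^ n * (Q + C * ‖dm E₀ e x s‖) := by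
    intro n
    have h1 := h.hS n x s hs
    have h2 := hb n
    rw [← hsu, map_add, map_add] at h2
    have h3 := norm_sub_le (dm E₀ e (f^[n] x) (dg E₀ (f^[n]) x s) +
      dm E₀ e (f^[n] x) (dg E₀ (f^[n]) x u)) (dm E₀ e (f^[n] x) (dg E₀ (f^[n]) x s))
    rw [add_sub_cancel_left] at h3
    have h4 : C * a ^ n * ‖dm E₀ e x s‖ ≤ C * ‖dm E₀ e x s‖ := by
      apply mul_le_mul_of_nonneg_right _ (norm_nonneg _)
      have : a ^ n ≤ 1 := pow_le_one₀ h.a_pos.le h.a_lt.le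
      nlinarith
    have h5 := h.hU' n (f^[n] x) _ (h.mapU n x u hu)
    rw [dg_inv (f^[n]) (f.symm^[n]) (iter_smooth f h.smooth n) (iter_smooth _ h.smooth' n)
      (iter_left f n), iter_left] at h5
    refine h5.trans ?_
    apply mul_le_mul_of_nonneg_left _ (by have := h.b_pos; positivity)
    linarith
  have hlim : Tendsto (fun n : ℕ => C * b ^ n * (Q + C * ‖dm E₀ e x s‖)) atTop (𝓝 0) := by
    have := ((tendsto_pow_atTop_nhds_zero_of_lt_one h.b_pos.le h.b_lt).const_mul C).mul_const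
      (Q + C * ‖dm E₀ e x s‖)
    simpa using this
  have h6 : ‖dm E₀ e x u‖ ≤ 0 := ge_of_tendsto' hlim key
  have h7 : dm E₀ e x u = 0 := norm_le_zero_iff.mp h6
  have h8 : u = 0 := hinj x (by rw [h7, map_zero])
  rw [← hsu, h8, add_zero]
  exact hs

/-- The stable field is invariant under commuting diffeomorphisms. -/
theorem inv_of_comm {e : M → F} (he : ContMDiff 𝓘(ℝ, E₀) 𝓘(ℝ, F) 1 e)
    (hinj : ∀ x, Function.Injective (dm E₀ e x))
    {f φ : M ≃ₜ M} {Es Eu : M → Submodule ℝ E₀} {C a b Ls Lu : ℝ}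
    (h : EAnosov e f Es Eu C a b Ls Lu) (hφ : ContMDiff 𝓘(ℝ, E₀) 𝓘(ℝ, E₀) 1 φ)
    (hc : ∀ x, φ (f x) = f (φ x)) (x : M) (v : E₀) (hv : v ∈ Es x) :
    dg E₀ φ x v ∈ Es (φ x) := by
  obtain ⟨B, hB, hBv⟩ := global_bound e he hinj φ hφ
  have hC := h.C_pos
  apply mem_of_bound hinj h (Q := B * (C * ‖dm E₀ e x v‖))
  intro n
  have e1 : ∀ y, φ (f^[n] y) = f^[n] (φ y) := fun y => iter_comm hc n y
  have e2 : (f^[n] : M → M) ∘ φ = φ ∘ (f^[n] : M → M) := funext fun y => (e1 y).symm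
  have e3 : dg E₀ (f^[n]) (φ x) (dg E₀ φ x v) = dg E₀ φ (f^[n] x) (dg E₀ (f^[n]) x v) := by
    rw [← dg_comp _ _ hφ (iter_smooth f h.smooth n), ← dg_comp _ _ (iter_smooth f h.smooth n) hφ,
      e2]
  rw [e3, ← e1]
  refine (hBv _ _).trans ?_
  apply mul_le_mul_of_nonneg_left _ hB.le
  refine (h.hS n x v hv).trans ?_
  apply mul_le_mul_of_nonneg_right _ (norm_nonneg _)
  have : a ^ n ≤ 1 := pow_le_one₀ h.a_pos.le h.a_lt.le
  nlinarith

/-- Nested unstable fields of commuting diffeomorphisms have nested stable fields. -/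
theorem es_le_aux {e : M → F} (he : ContMDiff 𝓘(ℝ, E₀) 𝓘(ℝ, F) 1 e)
    (hinj : ∀ x, Function.Injective (dm E₀ e x))
    {f φ : M ≃ₜ M} {Es Eu Es' Eu' : M → Submodule ℝ E₀} {C a b Ls Lu C' a' b' Ls' Lu' : ℝ}
    (h : EAnosov e f Es Eu C a b Ls Lu) (h' : EAnosov e φ Es' Eu' C' a' b' Ls' Lu')
    (hc : ∀ x, f (φ x) = φ (f x)) (hle : ∀ x, Eu x ≤ Eu' x) (x : M) : Es' x ≤ Es x := by
  intro v hv
  obtain ⟨K, hK, hang⟩ := h'.angle he hinj
  obtain ⟨s, hs, u, hu, hsu⟩ := h.decomp x v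
  have hC := h.C_pos
  have hvn : ∀ n : ℕ, dg E₀ (f^[n]) x v ∈ Es' (f^[n] x) := by
    intro n
    have := inv_of_comm he hinj (φ := iterHomeo f n) h' (iter_smooth f h.smooth n)
      (fun y => (iter_comm (g := f) (φ := φ) (fun z => (hc z).symm) n y).symm) x v hv
    exact this
  apply mem_of_bound hinj h (Q := (1 + K) * (C * ‖dm E₀ e x s‖))
  intro n
  have h1 := h.hS n x s hs
  have h4 : C * a ^ n * ‖dm E₀ e x s‖ ≤ C * ‖dm E₀ e x s‖ := by
    apply mul_le_mul_of_nonneg_right _ (norm_nonneg _)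
    have : a ^ n ≤ 1 := pow_le_one₀ h.a_pos.le h.a_lt.le
    nlinarith
  have hun : dg E₀ (f^[n]) x u ∈ Eu' (f^[n] x) := hle _ (h.mapU n x u hu)
  obtain ⟨-, h5⟩ := hang (f^[n] x) _ (hvn n) _ (Submodule.neg_mem _ hun)
  have e1 : dg E₀ (f^[n]) x v + -dg E₀ (f^[n]) x u = dg E₀ (f^[n]) x s := by
    rw [← hsu, map_add, add_neg_cancel_right]
  rw [e1, map_neg, norm_neg] at h5
  rw [← hsu, map_add, map_add]
  refine (norm_add_le _ _).trans ?_
  have h6 : K * ‖dm E₀ e (f^[n] x) (dg E₀ (f^[n]) x s)‖ ≤ K * (C * ‖dm E₀ e x s‖) :=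
    mul_le_mul_of_nonneg_left (h1.trans h4) (by linarith)
  linarith

end auto

section man

variable {E : Type*} [NormedAddCommGroup E] [NormedSpace ℝ E] [FiniteDimensional ℝ E]
  {M : Type*} [TopologicalSpace M] [T2Space M] [CompactSpace M] [ConnectedSpace M]
  [ChartedSpace E M] [IsManifold 𝓘(ℝ, E) ∞ M]

theorem es_le_of_eu_le (f f' : Diffeomorph 𝓘(ℝ, E) 𝓘(ℝ, E) M M 1)
    (Es Eu Es' Eu' : ∀ x : M, Submodule ℝ (TangentSpace 𝓘(ℝ, E) x))
    (h : IsAnosov f Es Eu) (h' : IsAnosov f' Es' Eu') (hc : ∀ x, f (f' x) = f' (f x))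
    (hle : ∀ x, Eu x ≤ Eu' x) (x : M) : Es' x ≤ Es x := by
  obtain ⟨m, e, he, hemb, hinj⟩ := exists_embedding_euclidean_of_compact (I := 𝓘(ℝ, E)) (M := M)
  let _ : MetricSpace M := hemb.isEmbedding.comapMetricSpace e
  have he1 : ContMDiff 𝓘(ℝ, E) (𝓡 m) 1 e := he.of_le (by simp)
  obtain ⟨C, a, b, Ls, Lu, hE⟩ := eanosov_of_isAnosov e he1 hinj f Es Eu h
  obtain ⟨C', a', b', Ls', Lu', hE'⟩ := eanosov_of_isAnosov e he1 hinj f' Es' Eu' h'
  exact es_le_aux he1 hinj hE hE' hc hle x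

end man

end Pool.Agent.H789R2.GP
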