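import Pool.Agent.H789R2.GP.Loc

set_option autoImplicit false

open Filter Topology Set Metric unitInterval

namespace Pool.Agent.H789R2.GP

open Pool.Agent.H789R2.AN

variable {X : Type*} [MetricSpace X]

/-- T3a -/
theorem map_SM [CompactSpace X] {g φ : X ≃ₜ X} (hc : ∀ x, φ (g x) = g (φ x)) : ∀ ε > 0, ∃ η > 0,
    ∀ x y : X, SR g η x y → SR g ε (φ x) (φ y) := by
  intro ε hε
  have hu : UniformContinuous φ := CompactSpace.uniformContinuous_of_continuous φ.continuous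
  rw [Metric.uniformContinuous_iff] at hu
  obtain ⟨δ, hδ, h1⟩ := hu ε hε
  refine ⟨δ / 2, half_pos hδ, fun x y h k => ?_⟩
  rw [← iter_comm hc, ← iter_comm hc]
  exact (h1 (lt_of_le_of_lt (h k) (half_lt_self hδ))).le

/-- T3b -/
theorem map_Pr_continuous [CompactSpace X] {g φ : X ≃ₜ X} (hc : ∀ x, φ (g x) = g (φ x)) :
    Continuous (fun q : Pr g => (⟨φ q.x, φ q.y, q.h.map hc⟩ : Pr g)) := by
  have hid := (Pr.continuous_iff (g := g) (fun q : Pr g => q)).1 continuous_id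
  have hS : Continuous (fun z : SM g.symm => (⟨φ z.val⟩ : SM g.symm)) := by
    rw [Metric.continuous_iff]
    intro b ε hε
    obtain ⟨η, hη, h1⟩ := map_SM (g := g.symm) (comm_symm_right hc) (ε / 2) (half_pos hε)
    refine ⟨η, hη, fun a ha => ?_⟩
    exact lt_of_le_of_lt ((SM.dist_le _ _ (half_pos hε).le).2
      (h1 _ _ ((SM.dist_le _ _ hη.le).1 ha.le))) (half_lt_self hε)
  rw [Pr.continuous_iff]
  refine ⟨hS.comp hid.1, hS.comp hid.2.1, ?_⟩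
  intro a ε hε
  have hu : UniformContinuous φ := CompactSpace.uniformContinuous_of_continuous φ.continuous
  rw [Metric.uniformContinuous_iff] at hu
  obtain ⟨δ, hδ, h1⟩ := hu ε hε
  obtain ⟨n, hn⟩ := hid.2.2 a (δ / 2) (half_pos hδ)
  refine ⟨n, ?_⟩
  filter_upwards [hn] with a' ha' k hk
  show dist (g^[k] (φ a'.x)) (g^[k] (φ a'.y)) ≤ ε
  rw [← iter_comm hc, ← iter_comm hc]
  exact (h1 (lt_of_le_of_lt (ha' k hk) (half_lt_self hδ))).le

/-- T3c: liftability is invariant -/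
theorem LO_of_map [CompactSpace X] {g φ : X ≃ₜ X} (hc : ∀ x, φ (g x) = g (φ x))
    (υ υ' : C(I, SM g.symm)) (hυ : ∀ t, (υ' t).val = φ (υ t).val) {s x : X}
    (h : LO υ' (φ s) (φ x)) : LO υ s x := by
  obtain ⟨Γ, h0, h1, ht⟩ := h
  refine ⟨⟨_, (map_Pr_continuous (g := g) (φ := φ.symm) (comm_symm_left hc)).comp
    Γ.continuous⟩, ?_, ?_, ?_⟩
  · show φ.symm (Γ 0).y = s
    rw [h0, φ.symm_apply_apply]
  · show φ.symm (Γ 1).y = x
    rw [h1, φ.symm_apply_apply]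
  · intro t
    show φ.symm (Γ t).x = (υ t).val
    rw [ht, hυ, φ.symm_apply_apply]

/-- T3d: composition of strips -/
theorem LO_comp [CompactSpace X] {g : X ≃ₜ X} {υ υ' : C(I, SM g.symm)} {s x s' x' : X}
    (h : ∃ Γ : C(I, Pr g), (Γ 0).y = s ∧ (Γ 1).y = x ∧ (∀ t, (Γ t).x = (υ t).val) ∧
      ∀ t, (Γ t).y = (υ' t).val) (h' : LO υ' s' x') : LO υ s' x' := by
  obtain ⟨Γ, -, -, hx, hy⟩ := h
  obtain ⟨Γ', h0, h1, hx'⟩ := h'
  have hyx : ∀ t, (Γ t).y = (Γ' t).x := fun t => by rw [hy, hx']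
  have hW : ∀ t, WS g (Γ t).x (Γ' t).y := fun t => by
    have e1 := (Γ t).h
    rw [hyx t] at e1
    exact e1.trans (Γ' t).h
  have c1 := (Pr.continuous_iff (g := g) (fun t : I => Γ t)).1 Γ.continuous
  have c2 := (Pr.continuous_iff (g := g) (fun t : I => Γ' t)).1 Γ'.continuous
  refine ⟨⟨fun t => ⟨(Γ t).x, (Γ' t).y, hW t⟩, ?_⟩, h0, h1, hx⟩
  rw [Pr.continuous_iff]
  refine ⟨c1.1, c2.2.1, ?_⟩
  intro a ε hε
  obtain ⟨n1, hn1⟩ := c1.2.2 a (ε / 2) (half_pos hε)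
  obtain ⟨n2, hn2⟩ := c2.2.2 a (ε / 2) (half_pos hε)
  refine ⟨max n1 n2, ?_⟩
  filter_upwards [hn1, hn2] with t ht1 ht2 k hk
  have a1 := ht1 k (le_trans (le_max_left _ _) hk)
  have a2 := ht2 k (le_trans (le_max_right _ _) hk)
  rw [hyx t] at a1
  show dist (g^[k] (Γ t).x) (g^[k] (Γ' t).y) ≤ ε
  have a3 := dist_triangle (g^[k] (Γ t).x) (g^[k] (Γ' t).x) (g^[k] (Γ' t).y)
  linarith

/-- T3e: the diagonal strip -/
theorem LO_diag [CompactSpace X] {g : X ≃ₜ X} (υ : C(I, SM g.symm)) :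
    LO υ (υ 0).val (υ 1).val := by
  refine ⟨⟨fun t => ⟨(υ t).val, (υ t).val, WS.refl _ _⟩, ?_⟩, rfl, rfl, fun t => rfl⟩
  rw [Pr.continuous_iff]
  refine ⟨υ.continuous, υ.continuous, ?_⟩
  intro a ε hε
  refine ⟨0, Filter.Eventually.of_forall fun t k _ => ?_⟩
  show dist (g^[k] (υ t).val) (g^[k] (υ t).val) ≤ ε
  rw [dist_self]
  exact hε.le

/-- T3f: concatenation of strips -/
theorem LO_trans [CompactSpace X] {g : X ≃ₜ X} {υ υ₁ υ₂ : C(I, SM g.symm)}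
    (h1 : ∀ t s : I, (s : ℝ) = t / 2 → υ₁ t = υ s) (h2 : ∀ t s : I, (s : ℝ) = (1 + t) / 2 → υ₂ t = υ s)
    {s x x' : X} (a : LO υ₁ s x) (b : LO υ₂ x x') : LO υ s x' := by
  obtain ⟨Γ₁, a0, a1, at'⟩ := a
  obtain ⟨Γ₂, b0, b1, bt⟩ := b
  have hmid : Γ₁ 1 = Γ₂ 0 := by
    have e1 : (υ₁ 1).val = (υ₂ 0).val := by
      rw [h1 1 ⟨1 / 2, by norm_num, by norm_num⟩ (by norm_num),
        h2 0 ⟨1 / 2, by norm_num, by norm_num⟩ (by norm_num)]
    apply Pr.ext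
    · rw [at', bt, e1]
    · rw [a1, b0]
  let p₁ : Path (Γ₁ 0) (Γ₁ 1) := ⟨Γ₁, rfl, rfl⟩
  let p₂ : Path (Γ₁ 1) (Γ₂ 1) := ⟨Γ₂, hmid.symm, rfl⟩
  refine ⟨(p₁.trans p₂).toContinuousMap, ?_, ?_, ?_⟩
  · show ((p₁.trans p₂) 0).y = s
    rw [Path.source, a0]
  · show ((p₁.trans p₂) 1).y = x'
    rw [Path.target, b1]
  · intro t
    show ((p₁.trans p₂) t).x = (υ t).val
    rw [Path.trans_apply]
    split_ifs with ht
    · show (Γ₁ ⟨2 * t, _⟩).x = _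
      rw [at', h1 _ t]
      show (t : ℝ) = (2 * t) / 2
      ring
    · show (Γ₂ ⟨2 * t - 1, _⟩).x = _
      rw [bt, h2 _ t]
      show (t : ℝ) = (1 + (2 * t - 1)) / 2
      ring

end Pool.Agent.H789R2.GP
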