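import Pool.Agent.H789R2.GP.Br
import Pool.Agent.H789R2.GP.Mp

set_option autoImplicit false

open Filter Topology Set Metric unitInterval

namespace Pool.Agent.H789R2.GP

open Pool.Agent.H789R2.AN

variable {X : Type*} [MetricSpace X]

theorem dec_iter2 {g φ : X ≃ₜ X} (hc : ∀ x, φ (g x) = g (φ x)) (m k : ℕ) (x : X) :
    g^[k] (φ^[m] x) = φ^[m] (g^[k] x) :=
  ((Function.Commute.iterate_iterate (f := φ) (g := g) hc m k) x).symm

/-- equivariance of the bracket, and uniform contraction of the two displacements -/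
theorem dec_aux [CompactSpace X] {g φ : X ≃ₜ X} {c' : ℝ} (hφ : LP φ c')
    (hc : ∀ x, φ (g x) = g (φ x)) :
    ∃ (br : X → X → X) (η : ℝ), 0 < η ∧
      (∀ x, br x x = x) ∧
      (∀ ε > 0, ∃ η' > 0, ∀ x x' y y', dist x y ≤ η → dist x' y' ≤ η → dist x x' < η' →
        dist y y' < η' → dist (br x y) (br x' y') < ε) ∧
      (∀ x y, SR g η x y → ∀ k : ℕ, g^[k] (br x y) = br (g^[k] x) (g^[k] y)) ∧
      (∀ x y, SR g η x y → ∀ m : ℕ, SR g (c' * (1 / 2) ^ m) (φ^[m] x) (φ^[m] (br x y))) ∧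
      (∀ x y, SR g η x y → ∀ m : ℕ,
        SR g (c' * (1 / 2) ^ m) (φ.symm^[m] y) (φ.symm^[m] (br x y))) := by
  obtain ⟨br, δ, hδ, b1, b2, b3, b4⟩ := exists_br hφ
  have hc'0 := hφ.c_pos
  have hg : UniformContinuous g := CompactSpace.uniformContinuous_of_continuous g.continuous
  rw [Metric.uniformContinuous_iff] at hg
  obtain ⟨ε₀, hε₀, h0⟩ := hg (c' / 3) (by positivity)
  obtain ⟨η₁, hη₁, h1⟩ := b2 (ε₀ / 2) (by positivity)
  have hcs : ∀ x, φ.symm (g x) = g (φ.symm x) := fun x => comm_symm_left hc x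
  have step : ∀ x y, dist x y < η₁ → dist (g x) (g y) < δ → g (br x y) = br (g x) (g y) := by
    intro x y hxy hgxy
    obtain ⟨s1, s2⟩ := h1 x y hxy
    refine b3 _ _ _ hgxy ?_ ?_
    · intro k
      rw [iter_comm (g := φ) (φ := g) (fun x => (hc x).symm) k x |>.symm,
        iter_comm (g := φ) (φ := g) (fun x => (hc x).symm) k (br x y) |>.symm]
      exact (h0 (lt_of_le_of_lt (s1 k) (by linarith))).le
    · intro k
      rw [iter_comm (g := φ.symm) (φ := g) (fun x => (hcs x).symm) k y |>.symm,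
        iter_comm (g := φ.symm) (φ := g) (fun x => (hcs x).symm) k (br x y) |>.symm]
      exact (h0 (lt_of_le_of_lt (s2 k) (by linarith))).le
  obtain ⟨η, hη⟩ : ∃ η, η = min η₁ δ / 2 := ⟨_, rfl⟩
  have hη0 : 0 < η := by rw [hη]; positivity
  have hηη : η < η₁ := by
    have := min_le_left η₁ δ
    have h2 : 0 < min η₁ δ := lt_min hη₁ hδ
    rw [hη]; linarith
  have hηδ : η < δ := by
    have := min_le_right η₁ δ
    have h2 : 0 < min η₁ δ := lt_min hη₁ hδ
    rw [hη]; linarith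
  have equiv : ∀ x y, SR g η x y → ∀ k : ℕ, g^[k] (br x y) = br (g^[k] x) (g^[k] y) := by
    intro x y hxy k
    induction k with
    | zero => rfl
    | succ k ih =>
      rw [Function.iterate_succ_apply', Function.iterate_succ_apply',
        Function.iterate_succ_apply', ih]
      apply step
      · exact lt_of_le_of_lt (hxy k) hηη
      · have := hxy (k + 1)
        rw [Function.iterate_succ_apply', Function.iterate_succ_apply'] at this
        exact lt_of_le_of_lt this hηδ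
  refine ⟨br, η, hη0, ?_, ?_, equiv, ?_, ?_⟩
  · intro x
    refine (b3 x x x (by rw [dist_self]; exact hδ) ?_ ?_).symm
    · intro k; rw [dist_self]; positivity
    · intro k; rw [dist_self]; positivity
  · intro ε hε
    obtain ⟨η', hη', h2⟩ := b4 ε hε
    exact ⟨η', hη', fun x x' y y' a1 a2 a3 a4 => h2 x x' y y' (lt_of_le_of_lt a1 hηδ)
      (lt_of_le_of_lt a2 hηδ) a3 a4⟩
  · intro x y hxy m k
    rw [dec_iter2 hc m k x, dec_iter2 hc m k (br x y), equiv x y hxy k]
    refine hφ.cS _ _ ?_ m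
    refine (b1 _ _ (lt_of_le_of_lt (hxy k) hηδ)).1.mono ?_
    linarith
  · intro x y hxy m k
    rw [dec_iter2 hcs m k y, dec_iter2 hcs m k (br x y), equiv x y hxy k]
    refine hφ.cU _ _ ?_ m
    refine (b1 _ _ (lt_of_le_of_lt (hxy k) hηδ)).2.mono ?_
    linarith

theorem dec_pow {c ε : ℝ} (hε : 0 < ε) : ∃ M : ℕ, ∀ m ≥ M, c * (1 / 2) ^ m ≤ ε := by
  have h1 : Tendsto (fun n : ℕ => c * (1 / 2 : ℝ) ^ n) atTop (𝓝 0) := by
    have := (tendsto_pow_atTop_nhds_zero_of_lt_one (by norm_num : (0:ℝ) ≤ 1 / 2)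
      (by norm_num)).const_mul c
    simpa using this
  obtain ⟨M, hM⟩ := eventually_atTop.mp ((tendsto_order.mp h1).2 ε hε)
  exact ⟨M, fun m hm => (hM m hm).le⟩

/-- pulling back along `g^n` -/
theorem dec_back [CompactSpace X] (g : X ≃ₜ X) (n : ℕ) : ∀ ε > 0, ∃ η > 0, ∀ a b : X,
    SR g η (g^[n] a) (g^[n] b) → SR g ε a b := by
  induction n with
  | zero => exact fun ε hε => ⟨ε, hε, fun a b h => h⟩
  | succ n ih =>
    intro ε hε
    obtain ⟨η₁, hη₁, h1⟩ := ih ε hε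
    obtain ⟨η₂, hη₂, h2⟩ := map_SM (g := g) (φ := g.symm)
      (fun x => by rw [g.symm_apply_apply, g.apply_symm_apply]) η₁ hη₁
    refine ⟨η₂, hη₂, fun a b h => h1 a b ?_⟩
    have h3 := h2 _ _ h
    rwa [Function.iterate_succ_apply', Function.iterate_succ_apply', g.symm_apply_apply,
      g.symm_apply_apply] at h3

/-- T6a: decomposition of a stable displacement -/
theorem decomp [CompactSpace X] {g φ : X ≃ₜ X} {c c' : ℝ} (h : LP g c) (hφ : LP φ c')
    (hc : ∀ x, φ (g x) = g (φ x)) (x y : X) (hxy : WS g x y) :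
    ∃ z, CC g φ x z ∧ CC g φ.symm z y := by
  obtain ⟨br, η, hη, -, -, -, h1, h2⟩ := dec_aux hφ hc
  have hcs : ∀ x, φ.symm (g x) = g (φ.symm x) := fun x => comm_symm_left hc x
  obtain ⟨n, hn⟩ := hxy.eventually_lt hη
  have hSR : SR g η (g^[n] x) (g^[n] y) := by
    intro k
    rw [← Function.iterate_add_apply, ← Function.iterate_add_apply]
    exact (hn (k + n) (by omega)).le
  refine ⟨g.symm^[n] (br (g^[n] x) (g^[n] y)), ?_, ?_⟩
  · intro ε hε
    obtain ⟨η', hη', h3⟩ := dec_back g n ε hε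
    obtain ⟨M, hM⟩ := dec_pow (c := c') hη'
    refine ⟨M, fun m hm _ => h3 _ _ ?_⟩
    rw [dec_iter2 hc m n, dec_iter2 hc m n, iterR]
    exact (h1 _ _ hSR m).mono (hM m hm)
  · intro ε hε
    obtain ⟨η', hη', h3⟩ := dec_back g n ε hε
    obtain ⟨M, hM⟩ := dec_pow (c := c') hη'
    refine ⟨M, fun m hm _ => h3 _ _ ?_⟩
    rw [dec_iter2 hcs m n, dec_iter2 hcs m n, iterR]
    exact (h2 _ _ hSR m).symm'.mono (hM m hm)

/-- T6b: the bracket of a small unstable path with itself -/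
theorem self_bracket [CompactSpace X] {g φ : X ≃ₜ X} {c c' : ℝ} (h : LP g c) (hφ : LP φ c')
    (hc : ∀ x, φ (g x) = g (φ x)) : ∃ η > 0, ∀ υ : C(I, SM g),
      (∀ t t', dist (υ t) (υ t') ≤ η) → ∃ P : C(I × I, SM g), (∀ s, P (s, s) = υ s) ∧
      UC g φ.symm (fun p : I × I => (υ p.1).val) (fun p : I × I => (P p).val) ∧
      UC g φ (fun p : I × I => (υ p.2).val) (fun p : I × I => (P p).val) := by
  obtain ⟨br, η, hη, b0, b4, beq, h1, h2⟩ := dec_aux hφ hc
  refine ⟨η, hη, fun υ hυ => ?_⟩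
  have hSR : ∀ s r, SR g η (υ s).val (υ r).val := fun s r =>
    (SM.dist_le _ _ hη.le).1 (hυ s r)
  have hcont : Continuous (fun p : I × I => (⟨br (υ p.2).val (υ p.1).val⟩ : SM g)) := by
    rw [Metric.continuous_iff]
    intro p ε hε
    obtain ⟨η', hη', h3⟩ := b4 (ε / 2) (by positivity)
    have c1 : Continuous fun p : I × I => υ p.1 := υ.continuous.comp continuous_fst
    have c2 : Continuous fun p : I × I => υ p.2 := υ.continuous.comp continuous_snd
    rw [Metric.continuous_iff] at c1 c2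
    obtain ⟨d1, hd1, e1⟩ := c1 p (η' / 2) (by positivity)
    obtain ⟨d2, hd2, e2⟩ := c2 p (η' / 2) (by positivity)
    refine ⟨min d1 d2, lt_min hd1 hd2, fun a ha => ?_⟩
    have f1 := e1 a (lt_of_lt_of_le ha (min_le_left _ _))
    have f2 := e2 a (lt_of_lt_of_le ha (min_le_right _ _))
    have f1' := (SM.dist_le _ _ (by positivity)).1 f1.le
    have f2' := (SM.dist_le _ _ (by positivity)).1 f2.le
    refine lt_of_le_of_lt ((SM.dist_le _ _ (by positivity : (0:ℝ) ≤ ε / 2)).2 ?_)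
      (by linarith)
    intro k
    show dist (g^[k] (br (υ a.2).val (υ a.1).val)) (g^[k] (br (υ p.2).val (υ p.1).val)) ≤ ε / 2
    rw [beq _ _ (hSR _ _) k, beq _ _ (hSR _ _) k]
    refine (h3 _ _ _ _ (hSR _ _ k) (hSR _ _ k) ?_ ?_).le
    · exact lt_of_le_of_lt (f2' k) (by linarith)
    · exact lt_of_le_of_lt (f1' k) (by linarith)
  refine ⟨⟨_, hcont⟩, ?_, ?_, ?_⟩
  · intro s
    apply SM.ext
    exact b0 _
  · intro ε hε
    obtain ⟨M, hM⟩ := dec_pow (c := c') hε
    exact ⟨M, fun m hm p => (h2 _ _ (hSR _ _) m).mono (hM m hm)⟩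
  · intro ε hε
    obtain ⟨M, hM⟩ := dec_pow (c := c') hε
    exact ⟨M, fun m hm p => (h1 _ _ (hSR _ _) m).mono (hM m hm)⟩

end Pool.Agent.H789R2.GP
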