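import Pool.Agent.H789R2.GP.Mp

set_option autoImplicit false

open Filter Topology Set Metric unitInterval

namespace Pool.Agent.H789R2.GP

open Pool.Agent.H789R2.AN

variable {X : Type*} [MetricSpace X]

theorem _root_.Pool.Agent.H789R2.AN.SR.tr {g : X ≃ₜ X} {ε ε' : ℝ} {x y z : X} (h : SR g ε x y) (h' : SR g ε' y z) :
    SR g (ε + ε') x z := fun k => (dist_triangle _ (g^[k] y) _).trans (add_le_add (h k) (h' k))

theorem _root_.Pool.Agent.H789R2.AN.SR.shift {g : X ≃ₜ X} {ε : ℝ} {x y : X} (h : SR g ε x y) (m : ℕ) :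
    SR g ε (g^[m] x) (g^[m] y) := fun k => by
  rw [← Function.iterate_add_apply, ← Function.iterate_add_apply]; exact h _

section UC

variable {A B : Type*} {g φ ψ : X ≃ₜ X} {x y z : A → X}

theorem UC.refl (x : A → X) : UC g φ x x := fun ε hε => ⟨0, fun m _ i k => by
  rw [dist_self]; exact hε.le⟩

theorem UC.symm' (h : UC g φ x y) : UC g φ y x := fun ε hε => by
  obtain ⟨M, hM⟩ := h ε hε
  exact ⟨M, fun m hm i => (hM m hm i).symm'⟩

theorem UC.trans (h : UC g φ x y) (h' : UC g φ y z) : UC g φ x z := fun ε hε => by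
  obtain ⟨M, hM⟩ := h (ε / 2) (half_pos hε)
  obtain ⟨M', hM'⟩ := h' (ε / 2) (half_pos hε)
  refine ⟨max M M', fun m hm i => ?_⟩
  have := (hM m ((le_max_left _ _).trans hm) i).tr (hM' m ((le_max_right _ _).trans hm) i)
  rwa [add_halves] at this

theorem UC.comp (h : UC g φ x y) (b : B → A) : UC g φ (fun i => x (b i)) (fun i => y (b i)) :=
  fun ε hε => by
    obtain ⟨M, hM⟩ := h ε hε
    exact ⟨M, fun m hm i => hM m hm (b i)⟩

theorem uc_map_iter [CompactSpace X] (hc : ∀ x, φ (g x) = g (φ x)) (n : ℕ) : ∀ ε > 0, ∃ η > 0,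
    ∀ x y : X, SR g η x y → SR g ε (φ^[n] x) (φ^[n] y) := by
  induction n with
  | zero => exact fun ε hε => ⟨ε, hε, fun x y h => h⟩
  | succ n ih =>
    intro ε hε
    obtain ⟨η, hη, h1⟩ := map_SM hc ε hε
    obtain ⟨η', hη', h2⟩ := ih η hη
    refine ⟨η', hη', fun x y h => ?_⟩
    rw [Function.iterate_succ_apply', Function.iterate_succ_apply']
    exact h1 _ _ (h2 _ _ h)

/-- transport under a homeomorphism commuting with `g` and `φ` -/
theorem UC.mapIter [CompactSpace X] (hg : ∀ x, ψ (g x) = g (ψ x)) (hφ : ∀ x, ψ (φ x) = φ (ψ x))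
    (n : ℕ) (h : UC g φ x y) : UC g φ (fun i => ψ^[n] (x i)) (fun i => ψ^[n] (y i)) := by
  intro ε hε
  obtain ⟨η, hη, h1⟩ := uc_map_iter hg n ε hε
  obtain ⟨M, hM⟩ := h η hη
  refine ⟨M, fun m hm i => ?_⟩
  have e : ∀ w : X, φ^[m] (ψ^[n] w) = ψ^[n] (φ^[m] w) := fun w =>
    ((Function.Commute.iterate_iterate (f := ψ) (g := φ) hφ n m) w).symm
  rw [e, e]
  exact h1 _ _ (hM m hm i)

theorem UC.nest [CompactSpace X] (hg : ∀ x, φ (g x) = g (φ x))
    (hg' : ∀ x, ψ (g x) = g (ψ x)) (hc : ∀ x, φ (ψ x) = ψ (φ x)) (hn : Nest φ ψ)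
    (h : UC g φ x y) : UC g ψ x y := by
  obtain ⟨ε₀, hε₀, h0⟩ := hn
  obtain ⟨M, hM⟩ := h ε₀ hε₀
  have h1 : UC g ψ (fun i => φ^[M] (x i)) (fun i => φ^[M] (y i)) := by
    intro ε hε
    have ht : Tendsto (fun n : ℕ => ε₀ * (1 / 2 : ℝ) ^ n) atTop (𝓝 0) := by
      have := (tendsto_pow_atTop_nhds_zero_of_lt_one (by norm_num : (0:ℝ) ≤ 1 / 2)
        (by norm_num)).const_mul ε₀
      simpa using this
    obtain ⟨n₀, hn₀⟩ := eventually_atTop.mp ((tendsto_order.mp ht).2 ε hε)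
    refine ⟨n₀, fun n hn i k => ?_⟩
    have e : ∀ w : X, g^[k] (ψ^[n] w) = ψ^[n] (g^[k] w) := fun w =>
      ((Function.Commute.iterate_iterate (f := ψ) (g := g) hg' n k) w).symm
    rw [e, e]
    refine (h0 _ _ ?_ n).trans (hn₀ n hn).le
    intro m
    have e2 : ∀ w : X, φ^[m] (g^[k] (φ^[M] w)) = g^[k] (φ^[m + M] w) := fun w => by
      rw [Function.iterate_add_apply]
      exact ((Function.Commute.iterate_iterate (f := φ) (g := g) hg m k) _)
    rw [e2, e2]
    exact hM (m + M) (Nat.le_add_left _ _) i k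
  have h2 := UC.mapIter (ψ := φ.symm) (fun w => (comm_symm_left hg w))
    (fun w => comm_symm_left (φ := φ) (g := ψ) hc w) M h1
  have e3 : ∀ w : X, φ.symm^[M] (φ^[M] w) = w := iterL φ M
  simpa only [e3] using h2

end UC

theorem CC.toUC {g φ : X ≃ₜ X} {x y : X} (h : CC g φ x y) {A : Type*} :
    UC g φ (fun _ : A => x) (fun _ : A => y) := UC.comp h (fun _ => ())

theorem UC.toCC {g φ : X ≃ₜ X} {A : Type*} {x y : A → X} (h : UC g φ x y) (i : A) :
    CC g φ (x i) (y i) := UC.comp h (fun _ => i)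

end Pool.Agent.H789R2.GP
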