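import Pool.Agent.H789R2.GP.Dec
import Pool.Agent.H789R2.GP.UCL

set_option autoImplicit false

open Filter Topology Set Metric unitInterval

namespace Pool.Agent.H789R2.GP

open Pool.Agent.H789R2.AN

variable {X : Type*} [MetricSpace X]

/-- equivariance of the bracket under a homeomorphism commuting with `φ` -/
theorem t18_equiv [CompactSpace X] {φ : X ≃ₜ X} {c' δ : ℝ} (hc'0 : 0 < c') (hδ : 0 < δ)
    {br : X → X → X}
    (b2 : ∀ ε > 0, ∃ η > 0, ∀ x y, dist x y < η → SR φ ε x (br x y) ∧ SR φ.symm ε y (br x y))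
    (b3 : ∀ x y z, dist x y < δ → SR φ (c' / 3) x z → SR φ.symm (c' / 3) y z → z = br x y)
    (g : X ≃ₜ X) (hc : ∀ x, g (φ x) = φ (g x)) :
    ∃ η > 0, ∀ x y, SR g η x y → ∀ k : ℕ, g^[k] (br x y) = br (g^[k] x) (g^[k] y) := by
  have hg : UniformContinuous g := CompactSpace.uniformContinuous_of_continuous g.continuous
  rw [Metric.uniformContinuous_iff] at hg
  obtain ⟨ε₀, hε₀, h0⟩ := hg (c' / 3) (by positivity)
  obtain ⟨η₁, hη₁, h1⟩ := b2 (ε₀ / 2) (by positivity)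
  have hcs : ∀ x, g (φ.symm x) = φ.symm (g x) := fun x => comm_symm_right hc x
  have step : ∀ x y, dist x y < η₁ → dist (g x) (g y) < δ → g (br x y) = br (g x) (g y) := by
    intro x y hxy hgxy
    obtain ⟨s1, s2⟩ := h1 x y hxy
    refine b3 _ _ _ hgxy ?_ ?_
    · intro k
      rw [← iter_comm (g := φ) (φ := g) hc k x, ← iter_comm (g := φ) (φ := g) hc k (br x y)]
      exact (h0 (lt_of_le_of_lt (s1 k) (by linarith))).le
    · intro k
      rw [← iter_comm (g := φ.symm) (φ := g) hcs k y,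
        ← iter_comm (g := φ.symm) (φ := g) hcs k (br x y)]
      exact (h0 (lt_of_le_of_lt (s2 k) (by linarith))).le
  have hm : 0 < min η₁ δ := lt_min hη₁ hδ
  have hl := min_le_left η₁ δ
  have hr := min_le_right η₁ δ
  refine ⟨min η₁ δ / 2, half_pos hm, fun x y hxy k => ?_⟩
  induction k with
  | zero => rfl
  | succ k ih =>
    rw [Function.iterate_succ_apply', Function.iterate_succ_apply',
      Function.iterate_succ_apply', ih]
    apply step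
    · exact lt_of_le_of_lt (hxy k) (by linarith)
    · have := hxy (k + 1)
      rw [Function.iterate_succ_apply', Function.iterate_succ_apply'] at this
      exact lt_of_le_of_lt this (by linarith)

/-- a common constant for a list -/
theorem t18_list [CompactSpace X] (P : (X ≃ₜ X) → ℝ → Prop)
    (hmono : ∀ ψ η η', P ψ η → 0 < η' → η' ≤ η → P ψ η') (l : List (X ≃ₜ X))
    (h : ∀ ψ ∈ l, ∃ η > 0, P ψ η) : ∃ η > 0, ∀ ψ ∈ l, P ψ η := by
  induction l with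
  | nil => exact ⟨1, one_pos, fun ψ h => absurd h (by simp)⟩
  | cons a l ih =>
    obtain ⟨η₁, h1, h2⟩ := ih (fun ψ hψ => h ψ (List.mem_cons_of_mem _ hψ))
    obtain ⟨η₂, h3, h4⟩ := h a List.mem_cons_self
    refine ⟨min η₁ η₂, lt_min h1 h3, fun ψ hψ => ?_⟩
    rcases List.mem_cons.1 hψ with rfl | hψ
    · exact hmono _ _ _ h4 (lt_min h1 h3) (min_le_right _ _)
    · exact hmono _ _ _ (h2 ψ hψ) (lt_min h1 h3) (min_le_left _ _)

/-- a common number for a list -/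
theorem t18_listN (P : (X ≃ₜ X) → ℕ → Prop)
    (hmono : ∀ ψ m m', P ψ m → m ≤ m' → P ψ m') (l : List (X ≃ₜ X))
    (h : ∀ ψ ∈ l, ∃ m, P ψ m) : ∃ m, ∀ ψ ∈ l, P ψ m := by
  induction l with
  | nil => exact ⟨0, fun ψ h => absurd h (by simp)⟩
  | cons a l ih =>
    obtain ⟨m₁, h2⟩ := ih (fun ψ hψ => h ψ (List.mem_cons_of_mem _ hψ))
    obtain ⟨m₂, h4⟩ := h a List.mem_cons_self
    refine ⟨max m₁ m₂, fun ψ hψ => ?_⟩
    rcases List.mem_cons.1 hψ with rfl | hψ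
    · exact hmono _ _ _ h4 (le_max_right _ _)
    · exact hmono _ _ _ (h2 ψ hψ) (le_max_left _ _)

/-- shifting by iterates of `g` makes all the iterates under `ψ` close -/
theorem t18_shift [CompactSpace X] {g ψ : X ≃ₜ X} (hc : ∀ x, ψ (g x) = g (ψ x)) {x y : X}
    (hxy : WS g x y) (hcc : CC g ψ x y) {η : ℝ} (hη : 0 < η) :
    ∃ N : ℕ, ∀ m ≥ N, ∀ n : ℕ, SR g η (ψ^[n] (g^[m] x)) (ψ^[n] (g^[m] y)) := by
  obtain ⟨M, hM⟩ := hcc η hη
  have h1 : ∃ N : ℕ, ∀ n < M, ∀ m ≥ N, dist (g^[m] (ψ^[n] x)) (g^[m] (ψ^[n] y)) ≤ η := by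
    clear hM
    induction M with
    | zero => exact ⟨0, fun n hn => absurd hn (by omega)⟩
    | succ M ih =>
      obtain ⟨N, hN⟩ := ih
      obtain ⟨N', hN'⟩ := (WS.mapIter hc hxy M).eventually_lt hη
      refine ⟨max N N', fun n hn m hm => ?_⟩
      rcases Nat.lt_succ_iff_lt_or_eq.1 hn with h | h
      · exact hN n h m (le_trans (le_max_left _ _) hm)
      · subst h
        exact (hN' m (le_trans (le_max_right _ _) hm)).le
  obtain ⟨N, hN⟩ := h1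
  refine ⟨N, fun m hm n => ?_⟩
  have e : ∀ w : X, ψ^[n] (g^[m] w) = g^[m] (ψ^[n] w) := fun w =>
    (Function.Commute.iterate_iterate (f := ψ) (g := g) hc n m) w
  rw [e, e]
  rcases lt_or_ge n M with h | h
  · intro k
    rw [← Function.iterate_add_apply, ← Function.iterate_add_apply]
    exact hN n h _ (by omega)
  · exact (hM n h ()).shift m

/-- T18: decomposition of a stable displacement of `g` with respect to `φ`, keeping the
contraction under further commuting homeomorphisms. -/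
theorem decomp_ref {X : Type*} [MetricSpace X] [CompactSpace X] {g φ : X ≃ₜ X} {c c' : ℝ}
    (h : LP g c) (hφ : LP φ c') (hc : ∀ x, φ (g x) = g (φ x)) (l : List (X ≃ₜ X))
    (hl1 : ∀ ψ ∈ l, ∀ x, ψ (g x) = g (ψ x)) (hl2 : ∀ ψ ∈ l, ∀ x, ψ (φ x) = φ (ψ x))
    (x y : X) (hxy : WS g x y) (hxl : ∀ ψ ∈ l, CC g ψ x y) :
    ∃ z, CC g φ x z ∧ CC g φ.symm z y ∧ ∀ ψ ∈ l, CC g ψ x z ∧ CC g ψ z y := by
  obtain ⟨br, δ, hδ, b1, b2, b3, b4⟩ := exists_br hφ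
  have hc'0 := hφ.c_pos
  have hcs : ∀ x, φ.symm (g x) = g (φ.symm x) := fun x => comm_symm_left hc x
  obtain ⟨η₁, hη₁, e1⟩ := t18_equiv hc'0 hδ b2 b3 g (fun x => (hc x).symm)
  obtain ⟨η₂, hη₂, e2⟩ := t18_list
    (fun ψ η => ∀ x y, SR ψ η x y → ∀ k : ℕ, ψ^[k] (br x y) = br (ψ^[k] x) (ψ^[k] y))
    (fun ψ η η' h _ hle x y hxy => h x y (hxy.mono hle)) l
    (fun ψ hψ => t18_equiv hc'0 hδ b2 b3 ψ (hl2 ψ hψ))
  obtain ⟨η, hηd⟩ : ∃ η, η = min (min η₁ η₂) (δ / 2) := ⟨_, rfl⟩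
  have hη : 0 < η := by rw [hηd]; exact lt_min (lt_min hη₁ hη₂) (half_pos hδ)
  have hηa : η ≤ η₁ := by rw [hηd]; exact (min_le_left _ _).trans (min_le_left _ _)
  have hηb : η ≤ η₂ := by rw [hηd]; exact (min_le_left _ _).trans (min_le_right _ _)
  have hηc : η < δ := by
    have : η ≤ δ / 2 := by rw [hηd]; exact min_le_right _ _
    linarith
  obtain ⟨N₁, hN₁⟩ := hxy.eventually_lt hη
  obtain ⟨N₂, hN₂⟩ := t18_listN
    (fun ψ N => ∀ m ≥ N, ∀ n : ℕ, SR g η (ψ^[n] (g^[m] x)) (ψ^[n] (g^[m] y)))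
    (fun ψ m m' h hle k hk => h k (hle.trans hk)) l
    (fun ψ hψ => t18_shift (hl1 ψ hψ) hxy (hxl ψ hψ) hη)
  obtain ⟨n, hn⟩ : ∃ n, n = max N₁ N₂ := ⟨_, rfl⟩
  have hSR : SR g η (g^[n] x) (g^[n] y) := by
    intro k
    rw [← Function.iterate_add_apply, ← Function.iterate_add_apply]
    exact (hN₁ (k + n) (by omega)).le
  have hSRψ : ∀ ψ ∈ l, ∀ j : ℕ, SR g η (ψ^[j] (g^[n] x)) (ψ^[j] (g^[n] y)) := fun ψ hψ j =>
    hN₂ ψ hψ n (by omega) j
  have hw1 : ∀ k, g^[k] (br (g^[n] x) (g^[n] y)) = br (g^[k] (g^[n] x)) (g^[k] (g^[n] y)) :=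
    e1 _ _ (hSR.mono hηa)
  -- contraction under `φ`
  have c1 : CC g φ (g^[n] x) (br (g^[n] x) (g^[n] y)) := by
    intro ε hε
    obtain ⟨M, hM⟩ := dec_pow (c := c') hε
    refine ⟨M, fun m hm _ k => ?_⟩
    rw [dec_iter2 hc m k, dec_iter2 hc m k (br (g^[n] x) (g^[n] y)), hw1 k]
    refine (hφ.cS _ _ ?_ m).trans (hM m hm)
    refine (b1 _ _ (lt_of_le_of_lt (hSR k) hηc)).1.mono ?_
    linarith
  have c2 : CC g φ.symm (br (g^[n] x) (g^[n] y)) (g^[n] y) := by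
    refine UC.symm' ?_
    intro ε hε
    obtain ⟨M, hM⟩ := dec_pow (c := c') hε
    refine ⟨M, fun m hm _ k => ?_⟩
    rw [dec_iter2 hcs m k, dec_iter2 hcs m k (br (g^[n] x) (g^[n] y)), hw1 k]
    refine (hφ.cU _ _ ?_ m).trans (hM m hm)
    refine (b1 _ _ (lt_of_le_of_lt (hSR k) hηc)).2.mono ?_
    linarith
  have c3 : ∀ ψ ∈ l, CC g ψ (g^[n] x) (g^[n] y) := fun ψ hψ =>
    UC.mapIter (ψ := g) (fun x => rfl) (fun x => (hl1 ψ hψ x).symm) n (hxl ψ hψ)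
  have c4 : ∀ ψ ∈ l, CC g ψ (g^[n] x) (br (g^[n] x) (g^[n] y)) := by
    intro ψ hψ ε hε
    obtain ⟨η', hη', h1⟩ := b2 ε hε
    obtain ⟨M, hM⟩ := c3 ψ hψ (η' / 2) (half_pos hη')
    refine ⟨M, fun m hm _ k => ?_⟩
    have h2 : SR ψ η₂ (g^[n] x) (g^[n] y) := fun j => (hSRψ ψ hψ j 0).trans hηb
    have h3 := e2 ψ hψ _ _ h2 m
    have h4 : SR g η₁ (ψ^[m] (g^[n] x)) (ψ^[m] (g^[n] y)) := (hSRψ ψ hψ m).mono hηa
    show dist (g^[k] (ψ^[m] (g^[n] x))) (g^[k] (ψ^[m] (br (g^[n] x) (g^[n] y)))) ≤ ε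
    rw [h3, e1 _ _ h4 k]
    exact (h1 _ _ (lt_of_le_of_lt (hM m hm () k) (by linarith))).1 0
  have c5 : ∀ ψ ∈ l, CC g ψ (br (g^[n] x) (g^[n] y)) (g^[n] y) := fun ψ hψ =>
    UC.trans (UC.symm' (c4 ψ hψ)) (c3 ψ hψ)
  -- transport back
  have back : ∀ (θ : X ≃ₜ X), (∀ x, θ (g x) = g (θ x)) → ∀ a b : X, CC g θ a b →
      CC g θ (g.symm^[n] a) (g.symm^[n] b) := by
    intro θ hθ a b hab
    exact UC.mapIter (ψ := g.symm) (fun x => by rw [g.symm_apply_apply, g.apply_symm_apply])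
      (fun x => (comm_symm_right hθ x).symm) n hab
  refine ⟨g.symm^[n] (br (g^[n] x) (g^[n] y)), ?_, ?_, fun ψ hψ => ⟨?_, ?_⟩⟩
  · have := back φ hc _ _ c1
    rwa [iterL] at this
  · have := back φ.symm hcs _ _ c2
    rwa [iterL] at this
  · have := back ψ (hl1 ψ hψ) _ _ (c4 ψ hψ)
    rwa [iterL] at this
  · have := back ψ (hl1 ψ hψ) _ _ (c5 ψ hψ)
    rwa [iterL] at this

end Pool.Agent.H789R2.GP
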