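import Pool.Agent.H789R2.GP.Good
import Pool.Agent.H789R2.GP.DecRef

set_option autoImplicit false

open Filter Topology Set Metric unitInterval

namespace Pool.Agent.H789R2.GP

open Pool.Agent.H789R2.AN

variable {X : Type*} [MetricSpace X]

theorem Lf.comp [CompactSpace X] {g : X ≃ₜ X} {a s t : X} (h : Lf g a s) (h' : Lf g s t) :
    Lf g a t := by
  intro υ hυ
  obtain ⟨x, Γ, h1, h2, h3⟩ := h υ hυ
  obtain ⟨x', h4⟩ := h' (sndPath Γ) h1
  exact ⟨x', LO_comp ⟨Γ, h1, h2, h3, fun t => rfl⟩ h4⟩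

theorem Lf.refl [CompactSpace X] {g : X ≃ₜ X} (a : X) : Lf g a a := by
  intro υ hυ
  rw [← hυ]
  exact ⟨_, LO_diag υ⟩

theorem WS_of_CC [CompactSpace X] {g φ : X ≃ₜ X} {c : ℝ} (h : LP g c)
    (hc : ∀ x, φ (g x) = g (φ x)) {x y : X} (hxy : CC g φ x y) : WS g x y := by
  obtain ⟨M, hM⟩ := hxy c h.c_pos
  have h1 : WS g (φ^[M] x) (φ^[M] y) := WS.of_SR (h.cS _ _ (hM M le_rfl ()))
  have h2 := h1.mapIter (φ := φ.symm) (comm_symm_left hc) M
  rwa [iterL, iterL] at h2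

/-- Stable displacements decompose into liftable ones. -/
theorem lf_list [CompactSpace X] {g : X ≃ₜ X} {c : ℝ} (hg : LP g c) (L : List (X ≃ₜ X))
    (hLP : ∀ ψ ∈ L, ∃ c', LP ψ c') (hcg : ∀ ψ ∈ L, ∀ x, ψ (g x) = g (ψ x))
    (hcc : ∀ ψ ∈ L, ∀ χ ∈ L, ∀ x, ψ (χ x) = χ (ψ x)) (hG : ∀ ψ ∈ L, Good g ψ) :
    ∀ (r l : List (X ≃ₜ X)), (∀ ψ ∈ r, ψ ∈ L) → (∀ ψ ∈ l, ψ ∈ L) →
      (∀ x y, WS g x y → (∀ ψ ∈ l, CC g ψ x y) → (∀ ψ ∈ r, CC g ψ x y) → x = y) →
      ∀ x y, WS g x y → (∀ ψ ∈ l, CC g ψ x y) → Lf g x y := by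
  intro r
  induction r with
  | nil =>
    intro l _ _ hsep x y hxy hl
    have : x = y := hsep x y hxy hl (fun ψ hψ => absurd hψ List.not_mem_nil)
    rw [this]
    exact Lf.refl y
  | cons φ r ih =>
    intro l hr hl hsep x y hxy hxl
    have hφL : φ ∈ L := hr φ List.mem_cons_self
    obtain ⟨c', hφ⟩ := hLP φ hφL
    obtain ⟨z, h1, h2, h3⟩ := decomp_ref hg hφ (hcg φ hφL) l (fun ψ hψ => hcg ψ (hl ψ hψ))
      (fun ψ hψ => hcc ψ (hl ψ hψ) φ hφL) x y hxy hxl
    have h4 : Lf g x z := by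
      apply ih (φ :: l) (fun ψ hψ => hr ψ (List.mem_cons_of_mem _ hψ))
      · intro ψ hψ
        rcases List.mem_cons.mp hψ with h | h
        · rw [h]; exact hφL
        · exact hl ψ h
      · intro a b hab hal har
        refine hsep a b hab (fun ψ hψ => hal ψ (List.mem_cons_of_mem _ hψ)) (fun ψ hψ => ?_)
        rcases List.mem_cons.mp hψ with h | h
        · rw [h]; exact hal φ List.mem_cons_self
        · exact har ψ h
      · exact WS_of_CC hg (hcg φ hφL) h1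
      · intro ψ hψ
        rcases List.mem_cons.mp hψ with h | h
        · rw [h]; exact h1
        · exact (h3 ψ h).1
    exact h4.comp (hG φ hφL z y h2)

/-- displacements contracted by all members of a list are eventually jointly close -/
theorem sep_of_SR [CompactSpace X] {ι : Type*} (f : ι → X ≃ₜ X) (g : X ≃ₜ X)
    (hc : ∀ i x, f i (g x) = g (f i x)) (l : List ι) {ε : ℝ} (hε : 0 < ε)
    (hsep : ∀ x y, (∀ j ∈ l, SR (f j) ε x y) → x = y) (x y : X) (hxy : WS g x y)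
    (hl : ∀ j ∈ l, CC g (f j) x y) : x = y := by
  have h1 : ∀ᶠ m in atTop, ∀ j ∈ {j | j ∈ l}, SR (f j) ε (g^[m] x) (g^[m] y) := by
    rw [Filter.eventually_all_finite l.finite_toSet]
    intro j hj
    obtain ⟨M, hM⟩ := hl j hj ε hε
    have h2 : ∀ᶠ m in atTop, ∀ n ∈ Finset.range M,
        dist (g^[m] ((f j)^[n] x)) (g^[m] ((f j)^[n] y)) < ε := by
      rw [Filter.eventually_all_finset]
      intro n _
      have h3 : WS g ((f j)^[n] x) ((f j)^[n] y) := hxy.mapIter (hc j) n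
      obtain ⟨m₀, hm₀⟩ := h3.eventually_lt hε
      exact eventually_atTop.mpr ⟨m₀, hm₀⟩
    filter_upwards [h2] with m hm n
    have e : ∀ w : X, (f j)^[n] (g^[m] w) = g^[m] ((f j)^[n] w) := fun w =>
      ((Function.Commute.iterate_iterate (f := f j) (g := g) (hc j) n m) w)
    rw [e, e]
    by_cases hn : n < M
    · exact (hm n (Finset.mem_range.mpr hn)).le
    · exact hM n (not_lt.mp hn) () m
  obtain ⟨m, hm⟩ := h1.exists
  have h2 := hsep _ _ hm
  exact (g.injective.iterate m) h2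

theorem good_conn [CompactSpace X] {ι : Type*} (f : ι → X ≃ₜ X) (c : ι → ℝ)
    (hf : ∀ i, LP (f i) (c i))
    (hc : ∀ i j x, f i (f j x) = f j (f i x)) (i j : ι)
    (hconn : Relation.EqvGen (fun i j => Nest (f j) (f i) ∧ Nest (f i).symm (f j).symm) i j) :
    Good (f i) (f j) := by
  have h1 : ∀ k l : ι, Relation.EqvGen
      (fun i j => Nest (f j) (f i) ∧ Nest (f i).symm (f j).symm) k l →
      (Good (f i) (f k) ↔ Good (f i) (f l)) := by
    intro k l hkl
    induction hkl with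
    | rel k l h =>
      exact ⟨fun hG => good_step (hf i) (hf k) (hf l) (hc k i) (hc l i) (hc k l) h.1 hG,
        fun hG => good_mono (hc l i) (hc k i) (hc l k) h.2 hG⟩
    | refl k => exact Iff.rfl
    | symm k l _ ih => exact ih.symm
    | trans k l m _ _ ih1 ih2 => exact ih1.trans ih2
  exact (h1 i j hconn).mp (good_self (hf i))

/-- Everything is liftable when the stable sets intersect trivially. -/
theorem all_good' [CompactSpace X] {ι : Type*} (f : ι → X ≃ₜ X) (c : ι → ℝ)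
    (hf : ∀ i, LP (f i) (c i))
    (hc : ∀ i j x, f i (f j x) = f j (f i x)) (i : ι) (l : List ι)
    (hconn : ∀ j ∈ l, Relation.EqvGen (fun i j => Nest (f j) (f i) ∧ Nest (f i).symm (f j).symm) i j)
    {ε : ℝ} (hε : 0 < ε) (hsep : ∀ x y, (∀ j ∈ l, SR (f j) ε x y) → x = y) :
    ∀ a s, WS (f i) a s → Lf (f i) a s := by
  intro a s has
  have key := lf_list (hf i) (l.map f) (by
    intro ψ hψ
    obtain ⟨j, -, rfl⟩ := List.mem_map.mp hψ
    exact ⟨c j, hf j⟩) (by
    intro ψ hψ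
    obtain ⟨j, -, rfl⟩ := List.mem_map.mp hψ
    exact hc j i) (by
    intro ψ hψ χ hχ
    obtain ⟨j, -, rfl⟩ := List.mem_map.mp hψ
    obtain ⟨k, -, rfl⟩ := List.mem_map.mp hχ
    exact hc j k) (by
    intro ψ hψ
    obtain ⟨j, hj, rfl⟩ := List.mem_map.mp hψ
    exact good_conn f c hf hc i j (hconn j hj)) (l.map f) [] (fun ψ h => h)
    (fun ψ h => absurd h List.not_mem_nil)
  refine key ?_ a s has (fun ψ h => absurd h List.not_mem_nil)
  intro x y hxy _ hr
  exact sep_of_SR f (f i) (fun j x => hc j i x) l hε hsep x y hxy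
    (fun j hj => hr (f j) (List.mem_map.mpr ⟨j, hj, rfl⟩))

end Pool.Agent.H789R2.GP
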