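import Pool.Agent.H789R2.GP.ManExt

set_option autoImplicit false

open scoped Manifold ContDiff Topology
open Set Filter

namespace Pool.Agent.H789R2.GP

open Pool.Agent.H789R2.AN

variable {E : Type*} [NormedAddCommGroup E] [NormedSpace ℝ E] [FiniteDimensional ℝ E]
  {M : Type*} [TopologicalSpace M] [T2Space M] [CompactSpace M] [ConnectedSpace M]
  [ChartedSpace E M] [IsManifold 𝓘(ℝ, E) ∞ M]

/-- totally nonsymplectic actions, without the assumption of a regular element -/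
theorem tns_cov' {G J : Type*} [AddCommGroup G] [Finite J]
    (α : G → Diffeomorph 𝓘(ℝ, E) 𝓘(ℝ, E) M M 1) (hα : ∀ a b x, α (a + b) x = α a (α b x))
    (χ : J → G →+ ℝ) (F : J → ∀ x : M, Submodule ℝ (TangentSpace 𝓘(ℝ, E) x))
    (hTNS : ∀ i j, ∀ c : ℝ, 0 < c → ∃ a, χ i a ≠ -c * χ j a)
    (hW : ∀ a, (∀ l, χ l a ≠ 0) → ∃ b, (∀ l, 0 < χ l a * χ l b) ∧
      IsAnosov (α b) (negField χ F b) (posField χ F b)) :
    ∃ π : E → M, IsCoveringMap π ∧ Function.Surjective π := by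
  refine tns_cov α hα χ F hTNS hW (exists_regular χ fun l => ?_)
  obtain ⟨a, ha⟩ := hTNS l l 1 one_pos
  refine ⟨a, fun h0 => ha ?_⟩
  rw [h0]; simp

end Pool.Agent.H789R2.GP
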