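import Pool.Agent.H789R2.GP.Mp

set_option autoImplicit false

open Filter Topology Set Metric unitInterval

namespace Pool.Agent.H789R2.GP

open Pool.Agent.H789R2.AN

variable {X : Type*} [MetricSpace X]

theorem lift_val_dist [CompactSpace X] {g : X ≃ₜ X} (z z' : SM g) : dist z.val z'.val ≤ dist z z' :=
  ((SM.dist_le z z' dist_nonneg).mp le_rfl) 0

/-- T4: local lifting by brackets -/
theorem local_lift [CompactSpace X] {g : X ≃ₜ X} {c : ℝ} (h : LP g c) : ∃ η > 0,
    ∀ (υ : C(I, SM g.symm)) (s : X), (∀ t, dist (υ 0) (υ t) ≤ η) → SR g η (υ 0).val s →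
      ∃ x, LO υ s x := by
  obtain ⟨br, δ, hδ, h1, -, h3, h4⟩ := exists_br h
  have hc := h.c_pos
  refine ⟨min (δ / 3) (c / 3), lt_min (by linarith) (by linarith), fun υ s hυ hs => ?_⟩
  have e1 : min (δ / 3) (c / 3) ≤ δ / 3 := min_le_left _ _
  have e2 : min (δ / 3) (c / 3) ≤ c / 3 := min_le_right _ _
  have hd : ∀ t, dist (υ t).val s < δ := by
    intro t
    have a1 : dist (υ 0).val (υ t).val ≤ δ / 3 :=
      ((lift_val_dist _ _).trans (hυ t)).trans e1
    have a2 : dist (υ 0).val s ≤ δ / 3 := (hs 0).trans e1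
    have a3 := dist_triangle_left (υ t).val s (υ 0).val
    linarith
  have hS : ∀ t, SR g (c / 3) (υ t).val (br (υ t).val s) := fun t => (h1 _ _ (hd t)).1
  have hU : ∀ t, SR g.symm (c / 3) s (br (υ t).val s) := fun t => (h1 _ _ (hd t)).2
  have hSc : ∀ t, ∀ n : ℕ, dist (g^[n] (υ t).val) (g^[n] (br (υ t).val s)) ≤ c * (1 / 2) ^ n :=
    fun t => h.cS _ _ ((hS t).mono (by linarith))
  have hUc : ∀ t t', ∀ n : ℕ, dist (g.symm^[n] (br (υ t).val s)) (g.symm^[n] (br (υ t').val s)) ≤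
      c * (1 / 2) ^ n := by
    intro t t'
    refine h.cU _ _ fun k => ?_
    have a1 := hU t k
    have a2 := hU t' k
    have a3 := dist_triangle_left (g.symm^[k] (br (υ t).val s)) (g.symm^[k] (br (υ t').val s))
      (g.symm^[k] s)
    linarith
  -- the decay
  have hdec : ∀ ε > 0, ∃ K : ℕ, ∀ k ≥ K, c * (1 / 2 : ℝ) ^ k ≤ ε := by
    intro ε hε
    have h5 : Tendsto (fun n : ℕ => c * (1 / 2 : ℝ) ^ n) atTop (𝓝 0) := by
      have := (tendsto_pow_atTop_nhds_zero_of_lt_one (by norm_num : (0:ℝ) ≤ 1 / 2)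
        (by norm_num)).const_mul c
      simpa using this
    obtain ⟨K, hK⟩ := eventually_atTop.mp ((tendsto_order.mp h5).2 ε hε)
    exact ⟨K, fun k hk => (hK k hk).le⟩
  -- continuity of the bracket in `X`
  have hυc : Continuous υ := υ.continuous
  have hbc : Continuous fun t => br (υ t).val s := by
    rw [Metric.continuous_iff]
    intro a ε hε
    obtain ⟨η, hη, h5⟩ := h4 ε hε
    obtain ⟨ρ, hρ, h6⟩ := Metric.continuous_iff.mp hυc a η hη
    refine ⟨ρ, hρ, fun a' ha' => ?_⟩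
    exact h5 _ _ _ _ (hd a') (hd a) (lt_of_le_of_lt (lift_val_dist _ _) (h6 a' ha'))
      (by rw [dist_self]; exact hη)
  let F : I → Pr g := fun t => ⟨(υ t).val, br (υ t).val s, WS.of_SR (hSc t)⟩
  have hF : Continuous F := by
    rw [Pr.continuous_iff]
    refine ⟨hυc, ?_, fun a ε hε => ?_⟩
    · rw [continuous_iff_continuousAt]
      intro a
      rw [Metric.continuousAt_iff']
      intro ε hε
      obtain ⟨K, hK⟩ := hdec (ε / 2) (by linarith)
      have h5 : ∀ᶠ a' in 𝓝 a, ∀ k ∈ Finset.range K,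
          dist (g.symm^[k] (br (υ a').val s)) (g.symm^[k] (br (υ a).val s)) < ε / 2 := by
        rw [Filter.eventually_all_finset]
        intro k _
        have hc' : Continuous fun a' => g.symm^[k] (br (υ a').val s) :=
          (g.symm.continuous.iterate k).comp hbc
        have := Metric.continuousAt_iff'.mp (hc'.continuousAt (x := a)) (ε / 2) (by linarith)
        exact this
      filter_upwards [h5] with a' ha'
      refine lt_of_le_of_lt ((SM.dist_le _ _ (by linarith : (0 : ℝ) ≤ ε / 2)).mpr ?_)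
        (by linarith : ε / 2 < ε)
      intro k
      show dist (g.symm^[k] (br (υ a').val s)) (g.symm^[k] (br (υ a).val s)) ≤ ε / 2
      rcases lt_or_ge k K with hk | hk
      · exact (ha' k (Finset.mem_range.mpr hk)).le
      · exact (hUc a' a k).trans (hK k hk)
    · obtain ⟨K, hK⟩ := hdec ε hε
      exact ⟨K, Eventually.of_forall fun a' k hk => (hSc a' k).trans (hK k hk)⟩
  have h0 : s = br (υ 0).val s := by
    refine h3 _ _ _ (hd 0) (hs.mono e2) fun k => ?_
    rw [dist_self]; linarith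
  exact ⟨br (υ 1).val s, ⟨F, hF⟩, h0.symm, rfl, fun t => rfl⟩

/-- the image of a path -/
theorem lift_map_path [CompactSpace X] {g φ : X ≃ₜ X} (hc : ∀ x, φ (g x) = g (φ x))
    (υ : C(I, SM g.symm)) : ∃ υ' : C(I, SM g.symm), ∀ t, (υ' t).val = φ (υ t).val := by
  have hc' : ∀ x, φ (g.symm x) = g.symm (φ x) := comm_symm_right hc
  have hcont : Continuous fun z : SM g.symm => (⟨φ z.val⟩ : SM g.symm) := by
    rw [Metric.continuous_iff]
    intro z ε hε
    obtain ⟨η, hη, h1⟩ := map_SM hc' (ε / 2) (by linarith)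
    refine ⟨η, hη, fun z' hz' => ?_⟩
    refine lt_of_le_of_lt ((SM.dist_le _ _ (by linarith : (0 : ℝ) ≤ ε / 2)).mpr ?_)
        (by linarith : ε / 2 < ε)
    exact h1 _ _ ((SM.dist_le _ _ hη.le).mp hz'.le)
  exact ⟨⟨fun t => ⟨φ (υ t).val⟩, hcont.comp υ.continuous⟩, fun t => rfl⟩

/-- T5: lifting by contraction -/
theorem lift_contr [CompactSpace X] {g φ : X ≃ₜ X} {c : ℝ} (h : LP g c)
    (hc : ∀ x, φ (g x) = g (φ x)) (υ : C(I, SM g.symm)) (s : X) (hs : CC g φ (υ 0).val s)
    (hu : UC g.symm φ (fun _ : I => (υ 0).val) (fun t => (υ t).val)) : ∃ x, LO υ s x := by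
  obtain ⟨η, hη, hl⟩ := local_lift h
  have key : ∀ m : ℕ, ∃ υm : C(I, SM g.symm), (∀ t, (υm t).val = φ^[m] (υ t).val) ∧
      ∀ s x, LO υm (φ^[m] s) (φ^[m] x) → LO υ s x := by
    intro m
    induction m with
    | zero => exact ⟨υ, fun t => rfl, fun s x h => h⟩
    | succ m ih =>
      obtain ⟨υm, h1, h2⟩ := ih
      obtain ⟨υ', h3⟩ := lift_map_path hc υm
      refine ⟨υ', fun t => ?_, fun s x h4 => ?_⟩
      · rw [h3, h1, Function.iterate_succ_apply']
      · rw [Function.iterate_succ_apply', Function.iterate_succ_apply'] at h4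
        exact h2 s x (LO_of_map hc υm υ' h3 h4)
  obtain ⟨M1, hM1⟩ := hs η hη
  obtain ⟨M2, hM2⟩ := hu η hη
  obtain ⟨υm, h1, h2⟩ := key (max M1 M2)
  have h3 : ∀ t, dist (υm 0) (υm t) ≤ η := by
    intro t
    rw [SM.dist_le _ _ hη.le, h1, h1]
    exact hM2 _ (le_max_right _ _) t
  have h4 : SR g η (υm 0).val (φ^[max M1 M2] s) := by
    rw [h1]
    exact hM1 _ (le_max_left _ _) ()
  obtain ⟨x, hx⟩ := hl υm _ h3 h4
  refine ⟨φ.symm^[max M1 M2] x, h2 s _ ?_⟩
  rw [iterR]
  exact hx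

end Pool.Agent.H789R2.GP
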