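import Pool.Agent.H789R2.GP.UCL
import Pool.Agent.H789R2.GP.Dec
import Pool.Agent.H789R2.GP.Lift

set_option autoImplicit false

open Filter Topology Set Metric unitInterval

namespace Pool.Agent.H789R2.GP

open Pool.Agent.H789R2.AN

variable {X : Type*} [MetricSpace X]

/-- the map of leaf metrics induced by a commuting homeomorphism -/
def SM.map [CompactSpace X] {g φ : X ≃ₜ X} (hc : ∀ x, φ (g x) = g (φ x)) : C(SM g, SM g) where
  toFun := fun z => ⟨φ z.val⟩
  continuous_toFun := by
    rw [Metric.continuous_iff]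
    intro b ε hε
    obtain ⟨η, hη, h1⟩ := map_SM hc (ε / 2) (half_pos hε)
    refine ⟨η, hη, fun a ha => ?_⟩
    have h2 := h1 _ _ ((SM.dist_le a b hη.le).mp ha.le)
    have h3 := (SM.dist_le (g := g) ⟨φ a.val⟩ ⟨φ b.val⟩ (half_pos hε).le).mpr h2
    linarith

/-- The images of a leaf path under high iterates are small. -/
theorem good_path_contr [CompactSpace X] {g : X ≃ₜ X} {c : ℝ} (h : LP g c) (υ : C(I, SM g)) :
    ∀ ε > 0, ∃ m : ℕ, ∀ t t', SR g ε (g^[m] (υ t).val) (g^[m] (υ t').val) := by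
  intro ε hε
  have hu := CompactSpace.uniformContinuous_of_continuous υ.continuous
  rw [Metric.uniformContinuous_iff] at hu
  obtain ⟨δ, hδ, h1⟩ := hu c h.c_pos
  obtain ⟨N, hN⟩ := exists_nat_gt (1 / δ)
  have hN0 : 0 < (N : ℝ) := lt_trans (by positivity) hN
  have hNδ : 1 / (N : ℝ) < δ := by
    rw [div_lt_iff₀ hN0]
    rw [div_lt_iff₀ hδ] at hN
    linarith
  have key : ∀ m k : ℕ, ∀ t : I, (t : ℝ) ≤ k / N →
      SR g (k * (c * (1 / 2) ^ m)) (g^[m] (υ 0).val) (g^[m] (υ t).val) := by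
    intro m k
    induction k with
    | zero =>
      intro t ht
      have h0 : t = 0 := by
        apply Subtype.ext
        have := t.2.1
        simp at ht
        show (t : ℝ) = 0
        linarith
      rw [h0]
      intro l
      simp
    | succ k ih =>
      intro t ht
      have ht0 := t.2.1
      have ht1 := t.2.2
      have hm : max 0 ((t : ℝ) - 1 / N) ∈ I := by
        constructor
        · exact le_max_left _ _
        · apply max_le (by norm_num)
          have : 0 ≤ 1 / (N : ℝ) := by positivity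
          linarith
      have h2 := ih ⟨max 0 ((t : ℝ) - 1 / N), hm⟩ (by
        show max 0 ((t : ℝ) - 1 / N) ≤ k / N
        apply max_le (by positivity)
        have e : ((k + 1 : ℕ) : ℝ) / N = k / N + 1 / N := by push_cast; ring
        rw [e] at ht
        linarith)
      have hd : dist (⟨max 0 ((t : ℝ) - 1 / N), hm⟩ : I) t < δ := by
        rw [Subtype.dist_eq, Real.dist_eq]
        show |max 0 ((t : ℝ) - 1 / N) - t| < δ
        have h3 : 0 < 1 / (N : ℝ) := by positivity
        rw [abs_lt]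
        constructor
        · have := le_max_right 0 ((t : ℝ) - 1 / N)
          linarith
        · rcases max_cases 0 ((t : ℝ) - 1 / N) with ⟨h4, _⟩ | ⟨h4, _⟩ <;> rw [h4] <;> linarith
      have h3 := (SM.dist_le _ _ h.c_pos.le).mp (h1 hd).le
      have h4 : SR g (c * (1 / 2) ^ m)
          (g^[m] (υ ⟨max 0 ((t : ℝ) - 1 / N), hm⟩).val) (g^[m] (υ t).val) := by
        intro l
        rw [← Function.iterate_add_apply, ← Function.iterate_add_apply]
        refine (h.cS _ _ h3 (l + m)).trans ?_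
        apply mul_le_mul_of_nonneg_left _ h.c_pos.le
        exact pow_le_pow_of_le_one (by norm_num) (by norm_num) (Nat.le_add_left _ _)
      have h5 := h2.tr h4
      refine h5.mono (le_of_eq ?_)
      push_cast
      ring
  have ht : Tendsto (fun m : ℕ => 2 * (N * (c * (1 / 2 : ℝ) ^ m))) atTop (𝓝 0) := by
    have := (((tendsto_pow_atTop_nhds_zero_of_lt_one (by norm_num : (0:ℝ) ≤ 1 / 2)
      (by norm_num)).const_mul c).const_mul (N : ℝ)).const_mul 2
    simpa using this
  obtain ⟨m, hm⟩ := ((tendsto_order.mp ht).2 ε hε).exists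
  refine ⟨m, fun t t' => ?_⟩
  have hle : ∀ t : I, (t : ℝ) ≤ N / N := fun t => by
    rw [div_self hN0.ne']; exact t.2.2
  have h6 := (key m N t (hle t)).symm'.tr (key m N t' (hle t'))
  exact h6.mono (by linarith)

/-- Liftability can be tested after applying iterates of a commuting homeomorphism. -/
theorem LO_of_iter [CompactSpace X] {g φ : X ≃ₜ X} (hc : ∀ x, φ (g x) = g (φ x)) (n : ℕ) :
    ∀ (υ υ' : C(I, SM g.symm)) (s x' : X), (∀ t, (υ' t).val = φ^[n] (υ t).val) →
      LO υ' (φ^[n] s) x' → ∃ x, LO υ s x := by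
  induction n with
  | zero =>
    intro υ υ' s x' h1 h2
    have : υ' = υ := ContinuousMap.ext fun t => SM.ext (h1 t)
    rw [this] at h2
    exact ⟨x', h2⟩
  | succ n ih =>
    intro υ υ' s x' h1 h2
    let υ₁ : C(I, SM g.symm) := (SM.map (comm_symm_right hc)).comp υ
    obtain ⟨x₁, h3⟩ := ih υ₁ υ' (φ s) x' (fun t => by
      rw [h1, Function.iterate_succ_apply]; rfl) (by
      rw [← Function.iterate_succ_apply]; exact h2)
    refine ⟨φ.symm x₁, LO_of_map hc υ υ₁ (fun t => rfl) ?_⟩
    rw [φ.apply_symm_apply]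
    exact h3

theorem LO.ws_end [CompactSpace X] {g : X ≃ₜ X} {υ : C(I, SM g.symm)} {s x : X} (h : LO υ s x) :
    WS g (υ 1).val x := by
  obtain ⟨Γ, -, h1, h2⟩ := h
  have := (Γ 1).h
  rw [h1, h2] at this
  exact this

/-- The second entry of a lift. -/
noncomputable def sndPath [CompactSpace X] {g : X ≃ₜ X} (Γ : C(I, Pr g)) : C(I, SM g.symm) where
  toFun := fun t => (Γ t).snd
  continuous_toFun := ((Pr.continuous_iff (Γ : I → Pr g)).mp Γ.continuous).2.1

/-- The main step for small paths. -/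
theorem small_step [CompactSpace X] {g h h' : X ≃ₜ X} {c d d' : ℝ} (hg : LP g c) (hh : LP h d)
    (hh' : LP h' d') (c1 : ∀ x, h (g x) = g (h x)) (c2 : ∀ x, h' (g x) = g (h' x))
    (c3 : ∀ x, h (h' x) = h' (h x)) (hn : Nest h' h) (hG : Good g h) : ∃ η > 0,
    ∀ a s, CC g h'.symm a s → ∀ υ : C(I, SM g.symm), (υ 0).val = a →
      (∀ t t', dist (υ t) (υ t') ≤ η) → ∃ x, LO υ s x := by
  obtain ⟨η, hη, hsb⟩ := self_bracket hg.symm hh' (comm_symm_right c2)
  refine ⟨η, hη, fun a s has υ hυ0 hυ => ?_⟩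
  obtain ⟨P, hP1, hP2, hP3⟩ := hsb υ hυ
  have hmem1 : ∀ w t : I, (w : ℝ) * max 0 (2 * (t : ℝ) - 1) ∈ I := fun w t => by
    have h1 := w.2.1
    have h2 := w.2.2
    have h3 : max 0 (2 * (t : ℝ) - 1) ≤ 1 := max_le (by norm_num) (by linarith [t.2.2])
    exact ⟨mul_nonneg h1 (le_max_left _ _), mul_le_one₀ h2 (le_max_left _ _) h3⟩
  have hmem2 : ∀ w t : I, (w : ℝ) * min 1 (2 * (t : ℝ)) ∈ I := fun w t => by
    have h1 := w.2.1
    have h2 := w.2.2
    have h0 : 0 ≤ min 1 (2 * (t : ℝ)) := le_min (by norm_num) (by linarith [t.2.1])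
    exact ⟨mul_nonneg h1 h0, mul_le_one₀ h2 h0 (min_le_left _ _)⟩
  let q : C(I × I, I × I) := ⟨fun p => (⟨(p.2 : ℝ) * max 0 (2 * (p.1 : ℝ) - 1), hmem1 p.2 p.1⟩,
    ⟨(p.2 : ℝ) * min 1 (2 * (p.1 : ℝ)), hmem2 p.2 p.1⟩), by
      apply Continuous.prodMk
      · exact Continuous.subtype_mk (by fun_prop) _
      · exact Continuous.subtype_mk (by fun_prop) _⟩
  let f : C(I × I, SM g.symm) := P.comp q
  have hf : ∀ p, f p = P (q p) := fun _ => rfl
  have hf0 : ∀ w : I, f (0, w) = υ 0 := fun w => by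
    rw [hf, ← hP1]
    congr 1
    apply Prod.ext
    · apply Subtype.ext
      show (w : ℝ) * max 0 (2 * ((0 : I) : ℝ) - 1) = ((0 : I) : ℝ)
      simp
    · apply Subtype.ext
      show (w : ℝ) * min 1 (2 * ((0 : I) : ℝ)) = ((0 : I) : ℝ)
      simp
  have hf1 : ∀ w : I, f (1, w) = υ w := fun w => by
    rw [hf, ← hP1]
    congr 1
    apply Prod.ext
    · apply Subtype.ext
      show (w : ℝ) * max 0 (2 * ((1 : I) : ℝ) - 1) = (w : ℝ)
      norm_num
    · apply Subtype.ext
      show (w : ℝ) * min 1 (2 * ((1 : I) : ℝ)) = (w : ℝ)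
      norm_num
  -- the lifts
  have hlift : ∀ w : I, ∃ Γ : C(I, Pr g), (Γ 0).y = s ∧ ∀ t, (Γ t).x = (f (t, w)).val := by
    intro w
    have hmul : ∀ t : I, (w : ℝ) * t ∈ I := fun t => ⟨mul_nonneg w.2.1 t.2.1,
      mul_le_one₀ w.2.2 t.2.1 t.2.2⟩
    let β : C(I, SM g.symm) := ⟨fun t => P ((0 : I), ⟨(w : ℝ) * t, hmul t⟩), by
      apply P.continuous.comp
      apply Continuous.prodMk continuous_const
      exact Continuous.subtype_mk (by fun_prop) _⟩
    let γ : C(I, SM g.symm) := ⟨fun t => P (⟨(w : ℝ) * t, hmul t⟩, w), by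
      apply P.continuous.comp
      refine Continuous.prodMk ?_ continuous_const
      exact Continuous.subtype_mk (by fun_prop) _⟩
    let π : C(I, SM g.symm) := ⟨fun t => f (t, w), f.continuous.comp (by fun_prop)⟩
    have hβ0 : β 0 = υ 0 := by
      rw [← hP1]
      show P ((0 : I), ⟨(w : ℝ) * ((0 : I) : ℝ), hmul 0⟩) = P (0, 0)
      congr 2
      apply Subtype.ext
      show (w : ℝ) * ((0 : I) : ℝ) = ((0 : I) : ℝ)
      simp
    have hβ1 : β 1 = P (0, w) := by
      show P ((0 : I), ⟨(w : ℝ) * ((1 : I) : ℝ), hmul 1⟩) = P (0, w)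
      congr 2
      apply Subtype.ext
      show (w : ℝ) * ((1 : I) : ℝ) = (w : ℝ)
      simp
    have hγ0 : γ 0 = P (0, w) := by
      show P (⟨(w : ℝ) * ((0 : I) : ℝ), hmul 0⟩, w) = P (0, w)
      congr 2
      apply Subtype.ext
      show (w : ℝ) * ((0 : I) : ℝ) = ((0 : I) : ℝ)
      simp
    -- first half
    obtain ⟨x₁, h1⟩ := lift_contr (φ := h'.symm) hg (comm_symm_left c2) β s (by
      rw [hβ0, hυ0]; exact has) (by
      rw [hβ0]
      exact hP2.comp (fun t : I => ((0 : I), (⟨(w : ℝ) * t, hmul t⟩ : I))))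
    have hws := h1.ws_end
    -- second half
    obtain ⟨z, hz1, hz2⟩ := decomp hg hh c1 (β 1).val x₁ hws
    have huc : UC g.symm h (fun _ : I => (γ 0).val) (fun t => (γ t).val) := by
      apply UC.nest (φ := h') (comm_symm_right c2) (comm_symm_right c1) (fun x => (c3 x).symm) hn
      have e1 := hP3.comp (fun t : I => ((⟨(w : ℝ) * t, hmul t⟩ : I), w))
      have e2 := hP3.comp (fun _ : I => ((0 : I), w))
      rw [hγ0]
      exact e2.symm'.trans e1
    obtain ⟨x₂, Γ₂, h2a, h2b, h2c⟩ := lift_contr hg c1 γ z (by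
      rw [hγ0, ← hβ1]; exact hz1) huc
    obtain ⟨x₃, h3⟩ := hG z x₁ hz2 (sndPath Γ₂) (by
      show (Γ₂ 0).y = z
      exact h2a)
    have h4 : LO γ x₁ x₃ := LO_comp ⟨Γ₂, h2a, h2b, h2c, fun t => rfl⟩ h3
    have h5 : LO π s x₃ := by
      refine LO_trans (υ₁ := β) (υ₂ := γ) ?_ ?_ h1 h4
      · intro t u hu
        show P ((0 : I), ⟨(w : ℝ) * t, hmul t⟩) = P (q (u, w))
        congr 1
        apply Prod.ext
        · apply Subtype.ext
          show ((0 : I) : ℝ) = (w : ℝ) * max 0 (2 * (u : ℝ) - 1)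
          rw [hu, max_eq_left (by linarith [t.2.2])]
          simp
        · apply Subtype.ext
          show (w : ℝ) * t = (w : ℝ) * min 1 (2 * (u : ℝ))
          rw [hu, min_eq_right (by linarith [t.2.2])]
          ring
      · intro t u hu
        show P (⟨(w : ℝ) * t, hmul t⟩, w) = P (q (u, w))
        congr 1
        apply Prod.ext
        · apply Subtype.ext
          show (w : ℝ) * t = (w : ℝ) * max 0 (2 * (u : ℝ) - 1)
          rw [hu, max_eq_right (by linarith [t.2.1])]
          ring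
        · apply Subtype.ext
          show (w : ℝ) = (w : ℝ) * min 1 (2 * (u : ℝ))
          rw [hu, min_eq_left (by linarith [t.2.1])]
          ring
    obtain ⟨Γ, h6, -, h7⟩ := h5
    exact ⟨Γ, h6, h7⟩
  choose Γ hΓ0 hΓ using hlift
  have homeo := fst_isLocalHomeomorph hg
  have sep : IsSeparatedMap (Pr.fst : Pr g → SM g.symm) := T2Space.isSeparatedMap _
  have hstart : ∀ w, Γ w 0 = Γ 0 0 := fun w => by
    apply Pr.ext
    · rw [hΓ, hΓ, hf0, hf0]
    · rw [hΓ0, hΓ0]
  have hcont : Continuous (fun p : I × I => Γ p.2 p.1) := by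
    apply homeo.continuous_lift sep f
    · funext p
      apply SM.ext
      exact hΓ p.2 p.1
    · have : (fun w : I => Γ w 0) = fun _ => Γ 0 0 := funext hstart
      show Continuous (fun w : I => Γ w 0)
      rw [this]
      exact continuous_const
    · intro w
      exact (Γ w).continuous
  have hconst : Γ 0 1 = Γ 0 0 := by
    have h1 := sep.eq_of_comp_eq homeo.isLocallyInjective (Γ 0).continuous
      (continuous_const (y := Γ 0 0)) (by
        funext t
        apply SM.ext
        show (Γ 0 t).x = (Γ 0 0).x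
        rw [hΓ, hΓ]
        have h2 : q (t, 0) = q (0, 0) := by
          apply Prod.ext
          · apply Subtype.ext
            show ((0 : I) : ℝ) * _ = ((0 : I) : ℝ) * _
            simp
          · apply Subtype.ext
            show ((0 : I) : ℝ) * _ = ((0 : I) : ℝ) * _
            simp
        rw [hf, hf, h2]) 0 rfl
    exact congr_fun h1 1
  refine ⟨(Γ 1 1).y, ⟨fun w => Γ w 1, hcont.comp (by fun_prop : Continuous fun w : I => ((1 : I), w))⟩,
    ?_, rfl, ?_⟩
  · show (Γ 0 1).y = s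
    rw [hconst, hΓ0]
  · intro t
    show (Γ t 1).x = (υ t).val
    rw [hΓ, hf1]

/-- The main step. -/
theorem good_step [CompactSpace X] {g h h' : X ≃ₜ X} {c d d' : ℝ} (hg : LP g c) (hh : LP h d)
    (hh' : LP h' d') (c1 : ∀ x, h (g x) = g (h x)) (c2 : ∀ x, h' (g x) = g (h' x))
    (c3 : ∀ x, h (h' x) = h' (h x)) (hn : Nest h' h) (hG : Good g h) : Good g h' := by
  obtain ⟨η, hη, hs⟩ := small_step hg hh hh' c1 c2 c3 hn hG
  intro a s has υ hυ
  obtain ⟨m, hm⟩ := good_path_contr hg.symm υ η hη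
  have hgg : ∀ x, g.symm (g x) = g (g.symm x) := fun x => by
    rw [g.symm_apply_apply, g.apply_symm_apply]
  have hcont : ∀ n : ℕ, ∃ υ' : C(I, SM g.symm), ∀ t, (υ' t).val = g.symm^[n] (υ t).val := by
    intro n
    induction n with
    | zero => exact ⟨υ, fun t => rfl⟩
    | succ n ih =>
      obtain ⟨υ', h1⟩ := ih
      refine ⟨(SM.map (g := g.symm) (φ := g.symm) (fun _ => rfl)).comp υ', fun t => ?_⟩
      rw [Function.iterate_succ_apply', ← h1]
      rfl
  obtain ⟨υ', hυ'⟩ := hcont m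
  have h1 : CC g h'.symm (g.symm^[m] a) (g.symm^[m] s) :=
    UC.mapIter (ψ := g.symm) hgg (fun x => comm_symm_left (g := h'.symm) (φ := g)
      (comm_symm_right (g := h') (φ := g) (fun x => (c2 x).symm)) x) m has
  obtain ⟨x', h2⟩ := hs _ _ h1 υ' (by rw [hυ', hυ]) (fun t t' => by
    rw [SM.dist_le _ _ hη.le, hυ', hυ']
    exact hm t t')
  exact LO_of_iter (φ := g.symm) hgg m υ υ' s x' hυ' h2

theorem good_mono [CompactSpace X] {g h h' : X ≃ₜ X} (c1 : ∀ x, h (g x) = g (h x))
    (c2 : ∀ x, h' (g x) = g (h' x)) (c3 : ∀ x, h (h' x) = h' (h x)) (hn : Nest h'.symm h.symm)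
    (hG : Good g h) : Good g h' := by
  intro a s has
  apply hG
  refine UC.nest (φ := h'.symm) (comm_symm_left c2) (comm_symm_left c1) (fun x => ?_) hn has
  exact comm_symm_left (g := h.symm) (φ := h') (comm_symm_right (g := h) (φ := h')
    (fun x => (c3 x).symm)) x

theorem good_self [CompactSpace X] {g : X ≃ₜ X} {c : ℝ} (hg : LP g c) : Good g g := by
  intro a s has υ hυ
  have h1 : a = s := by
    have h2 : ∀ n : ℕ, dist a s ≤ c * (1 / 2) ^ n := by
      intro n
      obtain ⟨M, hM⟩ := has c hg.c_pos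
      have h3 := hg.cS _ _ (hM (n + M) (Nat.le_add_left _ _) ()) (n + M)
      rw [iterR, iterR] at h3
      refine h3.trans ?_
      apply mul_le_mul_of_nonneg_left _ hg.c_pos.le
      exact pow_le_pow_of_le_one (by norm_num) (by norm_num) (Nat.le_add_right _ _)
    have h3 : Tendsto (fun n : ℕ => c * (1 / 2 : ℝ) ^ n) atTop (𝓝 0) := by
      have := (tendsto_pow_atTop_nhds_zero_of_lt_one (by norm_num : (0:ℝ) ≤ 1 / 2)
        (by norm_num)).const_mul c
      simpa using this
    exact dist_le_zero.mp (ge_of_tendsto' h3 h2)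
  subst h1
  rw [← hυ]
  exact ⟨_, LO_diag υ⟩

theorem all_good [CompactSpace X] {ι : Type*} (f : ι → X ≃ₜ X) (c : ι → ℝ)
    (hf : ∀ i, LP (f i) (c i))
    (hc : ∀ i j x, f i (f j x) = f j (f i x)) (i j : ι)
    (hconn : Relation.EqvGen (fun i j => Nest (f j) (f i) ∧ Nest (f i).symm (f j).symm) i j)
    (hend : Nest (f i) (f j).symm) : ∀ a s, WS (f i) a s → Lf (f i) a s := by
  have h1 : ∀ k l : ι, Relation.EqvGen
      (fun i j => Nest (f j) (f i) ∧ Nest (f i).symm (f j).symm) k l →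
      (Good (f i) (f k) ↔ Good (f i) (f l)) := by
    intro k l hkl
    induction hkl with
    | rel k l h =>
      exact ⟨fun hG => good_step (hf i) (hf k) (hf l) (hc k i) (hc l i) (hc k l) h.1 hG,
        fun hG => good_mono (hc l i) (hc k i) (hc l k) h.2 hG⟩
    | refl k => exact Iff.rfl
    | symm k l _ ih => exact ih.symm
    | trans k l m _ _ ih1 ih2 => exact ih1.trans ih2
  have h2 : Good (f i) (f j) := (h1 i j hconn).mp (good_self (hf i))
  intro a s has
  apply h2
  have h3 : CC (f i) (f i) a s := by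
    intro ε hε
    obtain ⟨m, hm⟩ := has.eventually_lt hε
    refine ⟨m, fun n hn _ k => ?_⟩
    rw [← Function.iterate_add_apply, ← Function.iterate_add_apply]
    exact (hm (k + n) (by omega)).le
  exact UC.nest (fun _ => rfl) (comm_symm_left (hc j i)) (fun x => (comm_symm_left (hc j i) x).symm)
    hend h3

end Pool.Agent.H789R2.GP
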