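import Pool.Agent.H789R2.GP.Mp

set_option autoImplicit false

open Filter Topology Set Metric unitInterval

namespace Pool.Agent.H789R2.GP

open Pool.Agent.H789R2.AN

variable {X : Type*} [MetricSpace X]

theorem SM.dist_iter_le [CompactSpace X] {g : X ≃ₜ X} (z z' : SM g) (k : ℕ) :
    dist (g^[k] z.val) (g^[k] z'.val) ≤ dist z z' :=
  (SM.dist_le z z' dist_nonneg).mp le_rfl k

theorem SM.continuous_iter_val [CompactSpace X] {g : X ≃ₜ X} (k : ℕ) :
    Continuous (fun z : SM g => g^[k] z.val) := by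
  rw [Metric.continuous_iff]
  intro b ε hε
  exact ⟨ε, hε, fun a ha => lt_of_le_of_lt (SM.dist_iter_le a b k) ha⟩

theorem SM.continuous_map [CompactSpace X] {g φ : X ≃ₜ X} (hc : ∀ x, φ (g x) = g (φ x)) :
    Continuous (fun z : SM g => (⟨φ z.val⟩ : SM g)) := by
  rw [Metric.continuous_iff]
  intro b ε hε
  obtain ⟨η, hη, h1⟩ := map_SM hc (ε / 2) (half_pos hε)
  refine ⟨η, hη, fun a ha => ?_⟩
  refine lt_of_le_of_lt ?_ (half_lt_self hε)
  exact (SM.dist_le _ _ (half_pos hε).le).mpr (h1 _ _ ((SM.dist_le _ _ hη.le).mp ha.le))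

theorem SM.continuous_mapIter [CompactSpace X] {g φ : X ≃ₜ X} (hc : ∀ x, φ (g x) = g (φ x))
    (n : ℕ) : Continuous (fun z : SM g => (⟨φ^[n] z.val⟩ : SM g)) := by
  induction n with
  | zero => exact continuous_id
  | succ n ih =>
    have h1 := (SM.continuous_map hc).comp ih
    refine h1.congr fun z => ?_
    show (⟨φ (φ^[n] z.val)⟩ : SM g) = ⟨φ^[n + 1] z.val⟩
    rw [Function.iterate_succ_apply']

/-- The local retraction onto the local stable set of `a`. -/
theorem exists_retr [CompactSpace X] {g : X ≃ₜ X} {c : ℝ} (h : LP g c) :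
    ∃ (r : X → X → X) (δ : ℝ), 0 < δ ∧
      (∀ a, ContinuousOn (fun y => (⟨r a y⟩ : SM g)) (ball a δ)) ∧
      (∀ a y, dist a y < δ → SR g (c / 3) a y → r a y = y) ∧
      (∀ ε > 0, ∃ η > 0, ∀ a y, dist a y < η → SR g ε a (r a y)) := by
  obtain ⟨br, δ, hδ, h1, h2, h3, h4⟩ := exists_br h
  have hc := h.c_pos
  refine ⟨br, δ, hδ, fun a => ?_, fun a y hy hs => (h3 a y y hy hs ?_).symm, fun ε hε => ?_⟩
  · -- continuity
    have hcont : ContinuousOn (br a) (ball a δ) := by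
      rw [Metric.continuousOn_iff]
      intro y hy ε hε
      obtain ⟨η, hη, h5⟩ := h4 ε hε
      refine ⟨η, hη, fun y' hy' hd => ?_⟩
      rw [mem_ball, dist_comm] at hy hy'
      exact h5 a a y' y hy' hy (by rwa [dist_self]) hd
    intro y hy
    rw [ContinuousWithinAt, Metric.tendsto_nhds]
    intro ε hε
    have h5 : Tendsto (fun n : ℕ => c * (1 / 2 : ℝ) ^ n) atTop (𝓝 0) := by
      have := (tendsto_pow_atTop_nhds_zero_of_lt_one (by norm_num : (0:ℝ) ≤ 1 / 2)
        (by norm_num)).const_mul c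
      simpa using this
    obtain ⟨N, hN⟩ := eventually_atTop.mp ((tendsto_order.mp h5).2 (ε / 2) (half_pos hε))
    have hk : ∀ᶠ y' in 𝓝[ball a δ] y, ∀ k ∈ Finset.range N,
        dist (g^[k] (br a y')) (g^[k] (br a y)) < ε / 2 := by
      rw [Filter.eventually_all_finset]
      intro k _
      have h6 : ContinuousWithinAt (fun y' => g^[k] (br a y')) (ball a δ) y :=
        ((g.continuous.iterate k).continuousAt).comp_continuousWithinAt (hcont y hy)
      exact (Metric.tendsto_nhds.mp h6) (ε / 2) (half_pos hε)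
    filter_upwards [hk, self_mem_nhdsWithin] with y' hy1 hy2
    refine lt_of_le_of_lt ((SM.dist_le _ _ (half_pos hε).le).mpr fun k => ?_) (half_lt_self hε)
    by_cases hkN : k < N
    · exact (hy1 k (Finset.mem_range.mpr hkN)).le
    · refine (h.cS _ _ (fun j => ?_) k).trans (hN k (not_lt.mp hkN)).le
      rw [mem_ball, dist_comm] at hy hy2
      have a1 := (h1 a y hy).1 j
      have a2 := (h1 a y' hy2).1 j
      have a3 := dist_triangle (g^[j] (br a y')) (g^[j] a) (g^[j] (br a y))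
      rw [dist_comm (g^[j] (br a y')) (g^[j] a)] at a3
      linarith
  · intro k
    rw [dist_self]
    positivity
  · obtain ⟨η, hη, h5⟩ := h2 ε hε
    exact ⟨η, hη, fun a y hy => (h5 a y hy).1⟩

/-- T10a: small paths in stable leaves -/
theorem leaf_path [CompactSpace X] {g : X ≃ₜ X} {c : ℝ} (h : LP g c) (hX : ULC X) : ∀ ε > 0,
    ∃ η > 0, ∀ x y : SM g, dist x y ≤ η → ∃ υ : C(I, SM g), υ 0 = x ∧ υ 1 = y ∧
      ∀ t, dist x (υ t) ≤ ε := by
  intro ε hε
  obtain ⟨r, δ, hδ, hr1, hr2, hr3⟩ := exists_retr h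
  have hc := h.c_pos
  obtain ⟨η₁, hη₁, h1⟩ := hr3 ε hε
  obtain ⟨δ', hδ', h2⟩ := hX.path (min δ η₁) (lt_min hδ hη₁)
  refine ⟨min (min (δ' / 2) (c / 3)) (δ / 2), by positivity, fun x y hxy => ?_⟩
  have e1 : dist x y ≤ δ' / 2 := hxy.trans ((min_le_left _ _).trans (min_le_left _ _))
  have e2 : dist x y ≤ c / 3 := hxy.trans ((min_le_left _ _).trans (min_le_right _ _))
  have e3 : dist x y ≤ δ / 2 := hxy.trans (min_le_right _ _)
  have e0 : dist x.val y.val ≤ dist x y := SM.dist_iter_le x y 0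
  obtain ⟨κ, hκ0, hκ1, hκ⟩ := h2 x.val x.val y.val (mem_ball_self hδ')
    (by rw [mem_ball, dist_comm]; linarith)
  have hmem : ∀ t, κ t ∈ ball x.val δ := fun t => ball_subset_ball (min_le_left _ _) (hκ t)
  refine ⟨⟨fun t => ⟨r x.val (κ t)⟩, ?_⟩, ?_, ?_, fun t => ?_⟩
  · exact (hr1 x.val).comp_continuous κ.continuous hmem
  · apply SM.ext
    show r x.val (κ 0) = x.val
    rw [hκ0]
    refine hr2 _ _ (by rwa [dist_self]) fun k => ?_
    rw [dist_self]; positivity
  · apply SM.ext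
    show r x.val (κ 1) = y.val
    rw [hκ1]
    exact hr2 _ _ (by linarith) ((SM.dist_le x y (by positivity)).mp e2)
  · refine (SM.dist_le _ _ hε.le).mpr (h1 _ _ ?_)
    have := hκ t
    rw [mem_ball, dist_comm] at this
    exact lt_of_lt_of_le this (min_le_right _ _)

/-- T10b: stable leaves are path connected -/
theorem leaf_conn [CompactSpace X] {g : X ≃ₜ X} {c : ℝ} (h : LP g c) (hX : ULC X) (x y : X)
    (hxy : WS g x y) : ∃ υ : C(I, SM g), υ 0 = ⟨x⟩ ∧ υ 1 = ⟨y⟩ := by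
  obtain ⟨η, hη, h1⟩ := leaf_path h hX 1 one_pos
  obtain ⟨n, hn⟩ := hxy.eventually_lt hη
  have h2 : SR g η (g^[n] x) (g^[n] y) := fun k => by
    rw [← Function.iterate_add_apply, ← Function.iterate_add_apply]
    exact (hn (k + n) (by omega)).le
  obtain ⟨υ, hυ0, hυ1, -⟩ := h1 ⟨g^[n] x⟩ ⟨g^[n] y⟩ ((SM.dist_le _ _ hη.le).mpr h2)
  have hcm : ∀ x, g.symm (g x) = g (g.symm x) := fun x => by
    rw [g.symm_apply_apply, g.apply_symm_apply]
  refine ⟨⟨fun t => ⟨g.symm^[n] (υ t).val⟩,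
    (SM.continuous_mapIter hcm n).comp υ.continuous⟩, ?_, ?_⟩
  · show (⟨g.symm^[n] (υ 0).val⟩ : SM g) = ⟨x⟩
    rw [hυ0]
    exact SM.ext (iterL g n x)
  · show (⟨g.symm^[n] (υ 1).val⟩ : SM g) = ⟨y⟩
    rw [hυ1]
    exact SM.ext (iterL g n y)

/-- The iterates of a path in a stable leaf contract uniformly. -/
theorem path_contr [CompactSpace X] {g : X ≃ₜ X} {c : ℝ} (h : LP g c) (υ : C(I, SM g)) :
    ∃ C : ℝ, ∀ (m : ℕ) (t : I),
      dist (g^[m] (υ 0).val) (g^[m] (υ t).val) ≤ C * (1 / 2) ^ m := by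
  have hu : UniformContinuous υ := CompactSpace.uniformContinuous_of_continuous υ.continuous
  rw [Metric.uniformContinuous_iff] at hu
  obtain ⟨δ, hδ, h1⟩ := hu c h.c_pos
  obtain ⟨N, hN⟩ := exists_nat_gt (1 / δ)
  have hN0 : (0:ℝ) < N := lt_trans (by positivity) hN
  refine ⟨N * c, fun m t => ?_⟩
  set s : ℕ → I := fun i => Set.projIcc 0 1 zero_le_one ((t : ℝ) * (i / N)) with hs
  have h2 := dist_le_range_sum_dist (fun i => g^[m] (υ (s i)).val) N
  have e0 : s 0 = 0 := by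
    simp [hs]
  have eN : s N = t := by
    simp only [hs]
    rw [div_self hN0.ne', mul_one]
    exact Set.projIcc_val zero_le_one t
  have h3 : ∀ i, dist (g^[m] (υ (s i)).val) (g^[m] (υ (s (i + 1))).val) ≤ c * (1 / 2) ^ m := by
    intro i
    apply h.cS
    refine (SM.dist_le _ _ h.c_pos.le).mp (h1 ?_).le
    have h4 : dist (s i) (s (i + 1)) ≤ dist ((t : ℝ) * (i / N)) ((t : ℝ) * ((i + 1 : ℕ) / N)) := by
      have := (LipschitzWith.projIcc (zero_le_one (α := ℝ))).dist_le_mul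
        ((t : ℝ) * (i / N)) ((t : ℝ) * ((i + 1 : ℕ) / N))
      rw [NNReal.coe_one, one_mul] at this
      exact this
    refine lt_of_le_of_lt h4 ?_
    rw [Real.dist_eq]
    have e : (t : ℝ) * (i / N) - (t : ℝ) * ((i + 1 : ℕ) / N) = - (t * (1 / N)) := by
      push_cast
      field_simp
      ring
    rw [e, abs_neg, abs_of_nonneg (mul_nonneg t.2.1 (by positivity))]
    have h5 : (t : ℝ) * (1 / N) ≤ 1 * (1 / N) := mul_le_mul_of_nonneg_right t.2.2 (by positivity)
    refine lt_of_le_of_lt h5 ?_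
    rw [one_mul, one_div_lt hN0 hδ]
    exact hN
  rw [e0, eN] at h2
  refine h2.trans ((Finset.sum_le_sum fun i _ => h3 i).trans ?_)
  rw [Finset.sum_const, Finset.card_range, nsmul_eq_mul, mul_assoc]

theorem path_small [CompactSpace X] {g : X ≃ₜ X} {c : ℝ} (h : LP g c) (υ : C(I, SM g)) {η : ℝ}
    (hη : 0 < η) : ∃ n : ℕ, ∀ m ≥ n, ∀ t, SR g η (g^[m] (υ 0).val) (g^[m] (υ t).val) := by
  obtain ⟨C, hC⟩ := path_contr h υ
  have h5 : Tendsto (fun n : ℕ => C * (1 / 2 : ℝ) ^ n) atTop (𝓝 0) := by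
    have := (tendsto_pow_atTop_nhds_zero_of_lt_one (by norm_num : (0:ℝ) ≤ 1 / 2)
      (by norm_num)).const_mul C
    simpa using this
  obtain ⟨n, hn⟩ := eventually_atTop.mp ((tendsto_order.mp h5).2 η hη)
  refine ⟨n, fun m hm t k => ?_⟩
  rw [← Function.iterate_add_apply, ← Function.iterate_add_apply]
  exact (hC (k + m) t).trans (hn (k + m) (by omega)).le

/-- T10c: stable leaves are simply connected -/
theorem leaf_homotopy [CompactSpace X] {g : X ≃ₜ X} {c : ℝ} (h : LP g c) (hX : ULC X)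
    (υ υ' : C(I, SM g)) (h0 : υ 0 = υ' 0) (h1 : υ 1 = υ' 1) :
    ∃ H : C(I × I, SM g), (∀ t, H (0, t) = υ t) ∧ (∀ t, H (1, t) = υ' t) ∧
      (∀ s, H (s, 0) = υ 0) ∧ (∀ s, H (s, 1) = υ 1) := by
  obtain ⟨r, δ, hδ, hr1, hr2, hr3⟩ := exists_retr h
  have hc := h.c_pos
  obtain ⟨δ', hδ', h2⟩ := hX.homo δ hδ
  set η := min (min (δ' / 2) (c / 3)) (δ / 2) with hη
  have hη0 : 0 < η := by positivity
  have e1 : η ≤ δ' / 2 := (min_le_left _ _).trans (min_le_left _ _)
  have e2 : η ≤ c / 3 := (min_le_left _ _).trans (min_le_right _ _)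
  have e3 : η ≤ δ / 2 := min_le_right _ _
  obtain ⟨n₁, hn₁⟩ := path_small h υ hη0
  obtain ⟨n₂, hn₂⟩ := path_small h υ' hη0
  set n := max n₁ n₂ with hn
  set a := g^[n] (υ 0).val with ha
  have h3 : ∀ t, SR g η a (g^[n] (υ t).val) := hn₁ n (le_max_left _ _)
  have h4 : ∀ t, SR g η a (g^[n] (υ' t).val) := by
    rw [ha, h0]
    exact hn₂ n (le_max_right _ _)
  have key : ∀ y, SR g η a y → r a y = y := fun y hy =>
    hr2 a y (by have := hy 0; simp only [Function.iterate_zero, id] at this; linarith)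
      (hy.mono e2)
  have kb : ∀ y, SR g η a y → y ∈ ball a δ' := fun y hy => by
    have := hy 0
    simp only [Function.iterate_zero, id] at this
    rw [mem_ball, dist_comm]
    linarith
  let κ : C(I, X) := ⟨fun t => g^[n] (υ t).val, (SM.continuous_iter_val n).comp υ.continuous⟩
  let κ' : C(I, X) := ⟨fun t => g^[n] (υ' t).val, (SM.continuous_iter_val n).comp υ'.continuous⟩
  obtain ⟨H, H0, H1, H2, H3, H4⟩ := h2 a κ κ'
    (show g^[n] (υ 0).val = g^[n] (υ' 0).val by rw [h0])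
    (show g^[n] (υ 1).val = g^[n] (υ' 1).val by rw [h1])
    (fun t => kb _ (h3 t)) (fun t => kb _ (h4 t))
  have hcm : ∀ x, g.symm (g x) = g (g.symm x) := fun x => by
    rw [g.symm_apply_apply, g.apply_symm_apply]
  refine ⟨⟨fun p => ⟨g.symm^[n] (r a (H p))⟩,
    (SM.continuous_mapIter hcm n).comp ((hr1 a).comp_continuous H.continuous H4)⟩,
    fun t => ?_, fun t => ?_, fun s => ?_, fun s => ?_⟩
  · apply SM.ext
    show g.symm^[n] (r a (H (0, t))) = (υ t).val
    rw [H0 t]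
    show g.symm^[n] (r a (g^[n] (υ t).val)) = (υ t).val
    rw [key _ (h3 t), iterL]
  · apply SM.ext
    show g.symm^[n] (r a (H (1, t))) = (υ' t).val
    rw [H1 t]
    show g.symm^[n] (r a (g^[n] (υ' t).val)) = (υ' t).val
    rw [key _ (h4 t), iterL]
  · apply SM.ext
    show g.symm^[n] (r a (H (s, 0))) = (υ 0).val
    rw [H2 s]
    show g.symm^[n] (r a (g^[n] (υ 0).val)) = (υ 0).val
    rw [key _ (h3 0), iterL]
  · apply SM.ext
    show g.symm^[n] (r a (H (s, 1))) = (υ 1).val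
    rw [H3 s]
    show g.symm^[n] (r a (g^[n] (υ 1).val)) = (υ 1).val
    rw [key _ (h3 1), iterL]

end Pool.Agent.H789R2.GP
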