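import Pool.Agent.H789R2.GP.Br

set_option autoImplicit false

open Filter Topology Set Metric unitInterval
open scoped Manifold ContDiff

namespace Pool.Agent.H789R2.GP

open Pool.Agent.H789R2.AN

variable {X : Type*} [MetricSpace X]

theorem SM.dist_val_le [CompactSpace X] {g : X ≃ₜ X} (z z' : SM g) :
    dist z.val z'.val ≤ dist z z' :=
  (SM.dist_le z z' dist_nonneg).1 le_rfl 0

theorem SM.val_continuous [CompactSpace X] {g : X ≃ₜ X} :
    Continuous (SM.val : SM g → X) := by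
  refine Metric.continuous_iff.2 (fun b ε hε => ⟨ε, hε, fun a ha => ?_⟩)
  exact (SM.dist_val_le a b).trans_lt ha

theorem Pr.dist_fst_le [CompactSpace X] {g : X ≃ₜ X} (q q' : Pr g) :
    dist q.fst q'.fst ≤ dist q q' :=
  (SM.dist_le _ _ dist_nonneg).2 ((Pr.dist_le q q' dist_nonneg).1 le_rfl).1

theorem Pr.dist_snd_le [CompactSpace X] {g : X ≃ₜ X} (q q' : Pr g) :
    dist q.snd q'.snd ≤ dist q q' :=
  (SM.dist_le _ _ dist_nonneg).2 ((Pr.dist_le q q' dist_nonneg).1 le_rfl).2.1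

theorem Pr.fst_continuous [CompactSpace X] {g : X ≃ₜ X} :
    Continuous (Pr.fst : Pr g → SM g.symm) := by
  refine Metric.continuous_iff.2 (fun b ε hε => ⟨ε, hε, fun a ha => ?_⟩)
  exact (Pr.dist_fst_le a b).trans_lt ha

theorem Pr.snd_continuous [CompactSpace X] {g : X ≃ₜ X} :
    Continuous (Pr.snd : Pr g → SM g.symm) := by
  refine Metric.continuous_iff.2 (fun b ε hε => ⟨ε, hε, fun a ha => ?_⟩)
  exact (Pr.dist_snd_le a b).trans_lt ha

theorem iterate_continuous (g : X ≃ₜ X) (k : ℕ) : Continuous (g^[k]) :=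
  g.continuous.iterate k

/-- T2a: continuity criterion for maps to pairs -/
theorem Pr.continuous_iff [CompactSpace X] {g : X ≃ₜ X} {A : Type*} [TopologicalSpace A]
    (F : A → Pr g) : Continuous F ↔ Continuous (fun a => (F a).fst) ∧
      Continuous (fun a => (F a).snd) ∧ ∀ a, ∀ ε > 0, ∃ n : ℕ, ∀ᶠ a' in 𝓝 a, ∀ k ≥ n,
        dist (g^[k] (F a').x) (g^[k] (F a').y) ≤ ε := by
  constructor
  · intro hF
    refine ⟨Pr.fst_continuous.comp hF, Pr.snd_continuous.comp hF, fun a ε hε => ?_⟩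
    obtain ⟨n, hn⟩ := (F a).h.eventually_lt (half_pos hε)
    refine ⟨n, ?_⟩
    filter_upwards [Metric.continuous_iff'.1 hF a (ε / 2) (half_pos hε)] with a' ha' k hk
    have h1 := ((Pr.dist_le (F a') (F a) (half_pos hε).le).1 ha'.le).2.2 k
    have h2 := hn k hk
    have h3 := (abs_le.1 h1).2
    linarith
  · rintro ⟨h1, h2, h3⟩
    refine Metric.continuous_iff'.2 (fun a ε hε => ?_)
    have hε2 : 0 < ε / 2 := half_pos hε
    have hε4 : 0 < ε / 4 := by linarith
    obtain ⟨n, hn⟩ := h3 a (ε / 4) hε4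
    have hx : Continuous (fun a => (F a).x) := SM.val_continuous.comp h1
    have hy : Continuous (fun a => (F a).y) := SM.val_continuous.comp h2
    have e1 : ∀ᶠ a' in 𝓝 a, ∀ k ∈ Finset.range n,
        dist (g^[k] (F a').x) (g^[k] (F a).x) < ε / 4 :=
      (Filter.eventually_all_finset _).2 (fun k _ =>
        Metric.continuous_iff'.1 ((iterate_continuous g k).comp hx) a (ε / 4) hε4)
    have e2 : ∀ᶠ a' in 𝓝 a, ∀ k ∈ Finset.range n,
        dist (g^[k] (F a').y) (g^[k] (F a).y) < ε / 4 :=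
      (Filter.eventually_all_finset _).2 (fun k _ =>
        Metric.continuous_iff'.1 ((iterate_continuous g k).comp hy) a (ε / 4) hε4)
    filter_upwards [hn, e1, e2, Metric.continuous_iff'.1 h1 a (ε / 2) hε2,
      Metric.continuous_iff'.1 h2 a (ε / 2) hε2] with a' b1 b2 b3 b4 b5
    refine lt_of_le_of_lt ?_ (half_lt_self hε)
    refine (Pr.dist_le (F a') (F a) hε2.le).2 ⟨(SM.dist_le _ _ hε2.le).1 b4.le,
      (SM.dist_le _ _ hε2.le).1 b5.le, fun k => ?_⟩
    rcases lt_or_ge k n with hk | hk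
    · have c1 := b2 k (Finset.mem_range.2 hk)
      have c2 := b3 k (Finset.mem_range.2 hk)
      have c3 := dist_triangle4 (g^[k] (F a').x) (g^[k] (F a).x) (g^[k] (F a).y) (g^[k] (F a').y)
      have c4 := dist_triangle4 (g^[k] (F a).x) (g^[k] (F a').x) (g^[k] (F a').y) (g^[k] (F a).y)
      rw [dist_comm (g^[k] (F a).y) (g^[k] (F a').y)] at c3
      rw [dist_comm (g^[k] (F a).x) (g^[k] (F a').x)] at c4
      rw [abs_le]
      constructor <;> linarith
    · have c1 := b1 k hk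
      have c2 := hn.self_of_nhds k hk
      have c3 : 0 ≤ dist (g^[k] (F a').x) (g^[k] (F a').y) := dist_nonneg
      have c4 : 0 ≤ dist (g^[k] (F a).x) (g^[k] (F a).y) := dist_nonneg
      rw [abs_le]
      constructor <;> linarith

theorem fst_open [CompactSpace X] {g : X ≃ₜ X} {c : ℝ} (h : LP g c) (q : Pr g) {ε : ℝ}
    (hε : 0 < ε) : ∃ η > 0, ∀ z : SM g.symm, dist z q.fst < η →
      ∃ q' : Pr g, q'.fst = z ∧ dist q' q ≤ ε := by
  have hc := h.c_pos
  have hε4 : 0 < ε / 4 := by linarith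
  obtain ⟨δ, hδ, hlp⟩ := h.lp (min (ε / 4) c) (lt_min hε4 hc)
  obtain ⟨n1, hn1⟩ := q.h.eventually_lt (lt_min (half_pos hδ) hε4)
  have h2 : ∃ n2 : ℕ, c * (1 / 2 : ℝ) ^ n2 < ε := by
    have := (tendsto_pow_atTop_nhds_zero_of_lt_one (by norm_num : (0:ℝ) ≤ 1 / 2)
      (by norm_num)).const_mul c
    rw [mul_zero] at this
    obtain ⟨n2, hn2⟩ := eventually_atTop.1 ((tendsto_order.1 this).2 ε hε)
    exact ⟨n2, hn2 n2 le_rfl⟩
  obtain ⟨n2, hn2⟩ := h2
  let n := max n1 n2
  have hnn : c * (1 / 2 : ℝ) ^ n < ε := by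
    refine lt_of_le_of_lt ?_ hn2
    gcongr c * ?_
    exact pow_le_pow_of_le_one (by norm_num) (by norm_num) (le_max_right _ _)
  have hcont : ∀ᶠ x' in 𝓝 q.x, ∀ k ∈ Finset.range (n + 1),
      dist (g^[k] x') (g^[k] q.x) < min (δ / 2) (ε / 4) :=
    (Filter.eventually_all_finset _).2 (fun k _ =>
      Metric.continuous_iff'.1 (iterate_continuous g k) q.x _ (lt_min (half_pos hδ) hε4))
  obtain ⟨η, hη, hη'⟩ := Metric.eventually_nhds_iff.1 hcont
  refine ⟨min η ε, lt_min hη hε, fun z hz => ?_⟩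
  have hz1 : dist z.val q.x < η := (SM.dist_val_le z q.fst).trans_lt (hz.trans_le (min_le_left _ _))
  have hx := hη' hz1
  have hd : dist (g^[n] z.val) (g^[n] q.y) < δ := by
    have c1 := hx n (Finset.mem_range.2 (Nat.lt_succ_self n))
    have c2 := hn1 n (le_max_left _ _)
    have c3 := dist_triangle (g^[n] z.val) (g^[n] q.x) (g^[n] q.y)
    have c4 := min_le_left (δ / 2) (ε / 4)
    linarith
  obtain ⟨w, hw1, hw2⟩ := hlp _ _ hd
  have hw1c : SR g c (g^[n] z.val) w := hw1.mono (min_le_right _ _)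
  have hw2c : SR g.symm c (g^[n] q.y) w := hw2.mono (min_le_right _ _)
  have hgw : g^[n] (g.symm^[n] w) = w := iterR g n w
  have hW : WS g z.val (g.symm^[n] w) := by
    rw [← WS.iter n, hgw]
    exact WS.of_SR (h.cS _ _ hw1c)
  -- backward
  have hback : ∀ k, g.symm^[k] (g.symm^[n] w) = g.symm^[k + n] w := fun k =>
    (Function.iterate_add_apply _ _ _ _).symm
  have hback' : ∀ k, g.symm^[k] q.y = g.symm^[k + n] (g^[n] q.y) := fun k => by
    rw [Function.iterate_add_apply, iterL]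
  -- forward, before n
  have hfw : ∀ k ≤ n, ∀ u : X, g^[k] (g.symm^[n] u) = g.symm^[n - k] u := fun k hk u => by
    have e : n = k + (n - k) := by omega
    conv_lhs => rw [e]
    rw [Function.iterate_add_apply, iterR]
  have hfw' : ∀ k ≤ n, g^[k] q.y = g.symm^[n - k] (g^[n] q.y) := fun k hk => by
    rw [← hfw k hk, iterL]
  refine ⟨⟨z.val, g.symm^[n] w, hW⟩, rfl, (Pr.dist_le _ _ hε.le).2 ⟨?_, ?_, fun k => ?_⟩⟩
  · exact (SM.dist_le z q.fst hε.le).1 (hz.le.trans (min_le_right _ _))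
  · intro k
    show dist (g.symm^[k] (g.symm^[n] w)) (g.symm^[k] q.y) ≤ ε
    rw [hback, hback', dist_comm]
    refine (h.cU _ _ hw2c (k + n)).trans (le_trans ?_ hnn.le)
    gcongr c * ?_
    exact pow_le_pow_of_le_one (by norm_num) (by norm_num) (Nat.le_add_left _ _)
  · show |dist (g^[k] z.val) (g^[k] (g.symm^[n] w)) - dist (g^[k] q.x) (g^[k] q.y)| ≤ ε
    rcases le_or_gt k n with hk | hk
    · have c1 := hx k (Finset.mem_range.2 (Nat.lt_succ_of_le hk))
      have c2 : dist (g^[k] (g.symm^[n] w)) (g^[k] q.y) ≤ ε / 4 := by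
        rw [hfw k hk, hfw' k hk, dist_comm]
        exact (hw2 (n - k)).trans (min_le_left _ _)
      have c5 := min_le_right (δ / 2) (ε / 4)
      have c3 := dist_triangle4 (g^[k] z.val) (g^[k] q.x) (g^[k] q.y) (g^[k] (g.symm^[n] w))
      have c4 := dist_triangle4 (g^[k] q.x) (g^[k] z.val) (g^[k] (g.symm^[n] w)) (g^[k] q.y)
      rw [dist_comm (g^[k] q.y) (g^[k] (g.symm^[n] w))] at c3
      rw [dist_comm (g^[k] q.x) (g^[k] z.val)] at c4
      rw [abs_le]
      constructor <;> linarith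
    · have e : k = (k - n) + n := by omega
      have c1 : dist (g^[k] z.val) (g^[k] (g.symm^[n] w)) ≤ ε / 4 := by
        rw [e, Function.iterate_add_apply, Function.iterate_add_apply, hgw]
        exact (hw1 (k - n)).trans (min_le_left _ _)
      have c2 := hn1 k ((le_max_left _ _).trans hk.le)
      have c5 := min_le_right (δ / 2) (ε / 4)
      have c3 : 0 ≤ dist (g^[k] z.val) (g^[k] (g.symm^[n] w)) := dist_nonneg
      have c4 : 0 ≤ dist (g^[k] q.x) (g^[k] q.y) := dist_nonneg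
      rw [abs_le]
      constructor <;> linarith

theorem fst_inj [CompactSpace X] {g : X ≃ₜ X} {c : ℝ} (h : LP g c) (q : Pr g) :
    ∃ r > 0, ∀ q₁ q₂ : Pr g, dist q₁ q < r → dist q₂ q < r → q₁.fst = q₂.fst → q₁ = q₂ := by
  have hc := h.c_pos
  have hc8 : 0 < c / 8 := by linarith
  obtain ⟨n, hn⟩ := q.h.eventually_lt hc8
  have hcont : ∀ᶠ y' in 𝓝 q.y, ∀ k ∈ Finset.range (n + 1),
      dist (g^[k] y') (g^[k] q.y) < c / 2 :=
    (Filter.eventually_all_finset _).2 (fun k _ =>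
      Metric.continuous_iff'.1 (iterate_continuous g k) q.y _ (half_pos hc))
  obtain ⟨η, hη, hη'⟩ := Metric.eventually_nhds_iff.1 hcont
  refine ⟨min η (c / 8), lt_min hη hc8, fun q₁ q₂ h1 h2 he => ?_⟩
  have hx : q₁.x = q₂.x := congrArg SM.val he
  have key : ∀ q' : Pr g, dist q' q < min η (c / 8) → SR g.symm (c / 8) q'.y q.y ∧
      (∀ k ≤ n, dist (g^[k] q'.y) (g^[k] q.y) < c / 2) ∧
      ∀ k ≥ n, dist (g^[k] q'.x) (g^[k] q'.y) ≤ c / 4 := by
    intro q' hq'
    have a1 := (Pr.dist_le q' q hc8.le).1 (hq'.le.trans (min_le_right _ _))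
    refine ⟨a1.2.1, fun k hk => ?_, fun k hk => ?_⟩
    · have a2 : dist q'.y q.y < η := (SM.dist_val_le q'.snd q.snd).trans_lt
        ((Pr.dist_snd_le q' q).trans_lt (hq'.trans_le (min_le_left _ _)))
      exact hη' a2 k (Finset.mem_range.2 (Nat.lt_succ_of_le hk))
    · have a2 := (abs_le.1 (a1.2.2 k)).2
      have a3 := hn k hk
      linarith
  obtain ⟨k1, k2, k3⟩ := key q₁ h1
  obtain ⟨l1, l2, l3⟩ := key q₂ h2
  have s1 : SR g c (g^[n] q₁.y) (g^[n] q₂.y) := by
    intro k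
    rw [← Function.iterate_add_apply, ← Function.iterate_add_apply]
    have a1 := k3 (k + n) (Nat.le_add_left _ _)
    have a2 := l3 (k + n) (Nat.le_add_left _ _)
    rw [← hx] at a2
    have a3 := dist_triangle_left (g^[k + n] q₁.y) (g^[k + n] q₂.y) (g^[k + n] q₁.x)
    linarith
  have s2 : SR g.symm c (g^[n] q₁.y) (g^[n] q₂.y) := by
    intro k
    rcases le_or_gt k n with hk | hk
    · have e : ∀ u : X, g.symm^[k] (g^[n] u) = g^[n - k] u := fun u => by
        have e1 : n = k + (n - k) := by omega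
        conv_lhs => rw [e1]
        rw [Function.iterate_add_apply, iterL]
      rw [e, e]
      have a1 := k2 (n - k) (Nat.sub_le _ _)
      have a2 := l2 (n - k) (Nat.sub_le _ _)
      have a3 := dist_triangle_right (g^[n - k] q₁.y) (g^[n - k] q₂.y) (g^[n - k] q.y)
      linarith
    · have e : ∀ u : X, g.symm^[k] (g^[n] u) = g.symm^[k - n] u := fun u => by
        have e1 : k = (k - n) + n := by omega
        conv_lhs => rw [e1]
        rw [Function.iterate_add_apply, iterL]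
      rw [e, e]
      have a1 := k1 (k - n)
      have a2 := l1 (k - n)
      have a3 := dist_triangle_right (g.symm^[k - n] q₁.y) (g.symm^[k - n] q₂.y)
        (g.symm^[k - n] q.y)
      linarith
  have s3 : g^[n] q₁.y = g^[n] q₂.y := expansive h s1 s2
  have s4 : q₁.y = q₂.y := by
    rw [← iterL g n q₁.y, s3, iterL]
  exact Pr.ext hx s4

/-- T2b -/
theorem fst_isLocalHomeomorph [CompactSpace X] {g : X ≃ₜ X} {c : ℝ} (h : LP g c) :
    IsLocalHomeomorph (Pr.fst : Pr g → SM g.symm) := by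
  have hopen : IsOpenMap (Pr.fst : Pr g → SM g.symm) := by
    refine IsOpenMap.of_nhds_le (fun q => ?_)
    rw [Filter.le_map_iff]
    intro s hs
    obtain ⟨ε, hε, hs'⟩ := Metric.mem_nhds_iff.1 hs
    obtain ⟨η, hη, hη'⟩ := fst_open h q (half_pos hε)
    refine mem_of_superset (ball_mem_nhds _ hη) (fun z hz => ?_)
    obtain ⟨q', hq1, hq2⟩ := hη' z hz
    exact ⟨q', hs' (hq2.trans_lt (half_lt_self hε)), hq1⟩
  rw [isLocalHomeomorph_iff_isOpenEmbedding_restrict]
  intro q
  obtain ⟨r, hr, hr'⟩ := fst_inj h q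
  refine ⟨ball q r, ball_mem_nhds _ hr, ?_⟩
  refine IsOpenEmbedding.of_continuous_injective_isOpenMap
    (Pr.fst_continuous.comp continuous_subtype_val) ?_
    (hopen.comp isOpen_ball.isOpenMap_subtype_val)
  rintro ⟨q₁, h1⟩ ⟨q₂, h2⟩ he
  exact Subtype.ext (hr' q₁ q₂ h1 h2 he)

end Pool.Agent.H789R2.GP
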