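import Pool.Agent.H789R2.GP.Defs
import Pool.Agent.H721R2.Cone

/-!
# Points that are jointly forward close coincide
-/

set_option autoImplicit false

open Filter Topology Set Metric unitInterval

namespace Pool.Agent.H789R2.GP

open Pool.Agent.H789R2.AN Pool.Agent.H721R2

/-- a vector outside of the stable space stays away from the stable spaces of the nearby points -/
theorem sep_local {X F : Type*} [MetricSpace X] [NormedAddCommGroup F]
    [NormedSpace ℝ F] [FiniteDimensional ℝ F] (S : HypSys X F) (x : X) (v : F)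
    (hv : v ∉ S.Vs x) :
    ∃ κ : ℝ, 0 < κ ∧ ∃ r : ℝ, 0 < r ∧ ∀ x1, dist x1 x < r → ∀ v1 : F, ‖v1 - v‖ < r → ‖v1‖ = 1 →
      ∀ s ∈ S.Vs x1, κ ≤ ‖v1 - s‖ := by
  have hcl : IsClosed (S.Vs x : Set F) := Submodule.closed_of_finiteDimensional _
  have hne : (S.Vs x : Set F).Nonempty := ⟨0, Submodule.zero_mem _⟩
  have hd : 0 < infDist v (S.Vs x : Set F) := (hcl.notMem_iff_infDist_pos hne).1 hv
  obtain ⟨d, hdd⟩ : ∃ d : ℝ, d = infDist v (S.Vs x : Set F) := ⟨_, rfl⟩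
  rw [← hdd] at hd
  obtain ⟨r, hr, h3⟩ := S.A3 (d / 8) (by positivity)
  refine ⟨min (d / 4) 1, lt_min (by positivity) one_pos, min r (d / 4),
    lt_min hr (by positivity), ?_⟩
  intro x1 hx1 v1 hv1 hv1n s hs
  by_contra hcon
  push Not at hcon
  obtain ⟨s', hs', hss⟩ := h3 x1 x (lt_of_lt_of_le hx1 (min_le_left _ _)) s hs
  have h4 : d ≤ ‖v - s'‖ := by
    rw [hdd, ← dist_eq_norm]
    exact infDist_le_dist_of_mem hs'
  have h5 : ‖v1 - s‖ < d / 4 := lt_of_lt_of_le hcon (min_le_left _ _)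
  have h6 : ‖v1 - s‖ < 1 := lt_of_lt_of_le hcon (min_le_right _ _)
  have h7 : ‖s‖ ≤ 2 := by
    have h8 := norm_sub_le v1 (v1 - s)
    rw [sub_sub_cancel, hv1n] at h8
    linarith
  have h9 : ‖v1 - v‖ < d / 4 := lt_of_lt_of_le hv1 (min_le_right _ _)
  have h10 : ‖s - s'‖ ≤ d / 4 := by
    refine hss.trans ?_
    nlinarith
  have h11 : v - s' = -(v1 - v) + (v1 - s) + (s - s') := by abel
  have h12 : ‖v - s'‖ ≤ ‖v1 - v‖ + ‖v1 - s‖ + ‖s - s'‖ := by
    rw [h11]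
    refine (norm_add_le _ _).trans (add_le_add_left ?_ _)
    refine (norm_add_le _ _).trans (add_le_add_left ?_ _)
    rw [norm_neg]
  linarith

theorem sep_min {ι : Type*} (f : ι → ℝ) (hf : ∀ a, 0 < f a) (l : List ι) :
    ∃ ε : ℝ, 0 < ε ∧ ∀ a ∈ l, ε ≤ f a := by
  induction l with
  | nil => exact ⟨1, one_pos, fun a ha => by simp at ha⟩
  | cons b l ih =>
    obtain ⟨ε, hε, h⟩ := ih
    refine ⟨min ε (f b), lt_min hε (hf b), ?_⟩
    intro a ha
    rcases List.mem_cons.1 ha with h1 | h1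
    · rw [h1]
      exact min_le_right _ _
    · exact (min_le_left _ _).trans (h a h1)

/-- finitely many systems suffice for separating all unit vectors from the stable spaces -/
theorem sep_unif {X F : Type*} [MetricSpace X] [CompactSpace X] [NormedAddCommGroup F]
    [NormedSpace ℝ F] [FiniteDimensional ℝ F] {ι : Type*} (S : ι → HypSys X F)
    (hinf : ∀ x, ⨅ j, (S j).Vs x = ⊥) :
    ∃ (l : List ι) (κ : ℝ), 0 < κ ∧ ∀ (x : X) (v : F), ‖v‖ = 1 →
      ∃ j ∈ l, ∀ s ∈ (S j).Vs x, κ ≤ ‖v - s‖ := by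
  classical
  have := FiniteDimensional.proper_real F
  have hloc : ∀ p : X × {v : F // ‖v‖ = 1}, ∃ j : ι, ∃ κ : ℝ, 0 < κ ∧ ∃ r : ℝ, 0 < r ∧
      ∀ x1, dist x1 p.1 < r → ∀ v1 : F, ‖v1 - p.2.1‖ < r → ‖v1‖ = 1 →
      ∀ s ∈ (S j).Vs x1, κ ≤ ‖v1 - s‖ := by
    rintro ⟨x, v, hv⟩
    have h1 : v ∉ ⨅ j, (S j).Vs x := by
      rw [hinf x, Submodule.mem_bot]
      rintro rfl
      simp at hv
    rw [Submodule.mem_iInf] at h1
    obtain ⟨j, hj⟩ := not_forall.1 h1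
    exact ⟨j, sep_local (S j) x v hj⟩
  choose J κ hκ r hr hJ using hloc
  have hcpt : IsCompact {v : F | ‖v‖ = 1} := by
    have h := isCompact_sphere (0 : F) 1
    have h2 : sphere (0 : F) 1 = {v : F | ‖v‖ = 1} := by
      ext v
      simp
    rwa [h2] at h
  have : CompactSpace {v : F // ‖v‖ = 1} := isCompact_iff_compactSpace.1 hcpt
  obtain ⟨t, -, ht⟩ := (isCompact_univ : IsCompact (univ : Set (X × {v : F // ‖v‖ = 1}))).elim_nhds_subcover
    (fun p => ball p (r p)) (fun p _ => ball_mem_nhds p (hr p))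
  obtain ⟨κ0, hκ0, hκ0'⟩ := sep_min κ hκ t.toList
  refine ⟨t.toList.map J, κ0, hκ0, ?_⟩
  intro x v hv
  have h1 := ht (mem_univ ((x, ⟨v, hv⟩) : X × {v : F // ‖v‖ = 1}))
  rw [mem_iUnion₂] at h1
  obtain ⟨p, hp, hpb⟩ := h1
  rw [mem_ball, Prod.dist_eq, max_lt_iff] at hpb
  refine ⟨J p, List.mem_map.2 ⟨p, Finset.mem_toList.2 hp, rfl⟩, ?_⟩
  intro s hs
  refine (hκ0' p (Finset.mem_toList.2 hp)).trans ?_
  refine hJ p x hpb.1 v ?_ hv s hs
  have h2 := hpb.2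
  rw [Subtype.dist_eq, dist_eq_norm] at h2
  exact h2

/-- T17, with an isometry `e` instead of the hypothesis that there is an index -/
theorem sep_of_isom {X F : Type*} [MetricSpace X] [CompactSpace X] [NormedAddCommGroup F]
    [NormedSpace ℝ F] [FiniteDimensional ℝ F] {ι : Type*} (S : ι → HypSys X F) (e : X → F)
    (hisom : ∀ x y, dist x y = ‖e x - e y‖)
    (he : ∀ i x, (S i).e x = e x) (hinf : ∀ x, ⨅ j, (S j).Vs x = ⊥) :
    ∃ (l : List ι) (ε : ℝ), 0 < ε ∧ ∀ x y, (∀ j ∈ l, SR (S j).g ε x y) → x = y := by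
  obtain ⟨l, κ, hκ, hsep⟩ := sep_unif S hinf
  have hη0 : 0 < min 1 (κ / 4) := lt_min one_pos (by positivity)
  have hc : ∀ j : ι, ∃ ε₁ : ℝ, 0 < ε₁ ∧ ∀ x y : X,
      (S j).SRel ε₁ x y → ∃ s ∈ (S j).Vs x, ∃ u ∈ (S j).Vu x,
      ‖(S j).e y - (S j).e x - (s + u)‖ ≤ min 1 (κ / 4) * dist x y ∧
      ‖u‖ ≤ min 1 (κ / 4) * dist x y := by
    intro j
    obtain ⟨ε₁, hε₁, h⟩ := (S j).coneS (min 1 (κ / 4)) hη0 (min_le_left _ _)
    refine ⟨ε₁, hε₁, fun x y hxy => ?_⟩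
    obtain ⟨s, hs, u, hu, h1, -, h3⟩ := h x y hxy
    exact ⟨s, hs, u, hu, h1, h3⟩
  choose ε₁ hε₁ hcone using hc
  obtain ⟨ε, hε, hεl⟩ := sep_min ε₁ hε₁ l
  refine ⟨l, ε, hε, ?_⟩
  intro x y hxy
  by_contra hne
  have hd : 0 < dist x y := dist_pos.2 hne
  have hl : ∀ v : F, v = (dist x y)⁻¹ • (e y - e x) → ‖v‖ = 1 → False := by
    intro v hv hv1
    obtain ⟨j, hj, hs⟩ := hsep x v hv1
    obtain ⟨s, hs1, u, hu, h1, h3⟩ := hcone j x y (fun k => (hxy j hj k).trans (hεl j hj))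
    have h4 := hs ((dist x y)⁻¹ • s) (Submodule.smul_mem _ _ hs1)
    rw [hv, ← smul_sub, norm_smul, Real.norm_eq_abs, abs_of_pos (inv_pos.2 hd)] at h4
    have h5 : ‖e y - e x - s‖ ≤ ‖(S j).e y - (S j).e x - (s + u)‖ + ‖u‖ := by
      have h6 : e y - e x - s = ((S j).e y - (S j).e x - (s + u)) + u := by
        rw [he, he]
        abel
      rw [h6]
      exact norm_add_le _ _
    have h7 : ‖e y - e x - s‖ ≤ κ / 2 * dist x y := by
      have h8 : min 1 (κ / 4) * dist x y ≤ κ / 4 * dist x y :=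
        mul_le_mul_of_nonneg_right (min_le_right _ _) hd.le
      linarith
    have h9 : (dist x y)⁻¹ * ‖e y - e x - s‖ ≤ κ / 2 := by
      rw [inv_mul_le_iff₀ hd]
      linarith
    linarith
  refine hl _ rfl ?_
  rw [norm_smul, Real.norm_eq_abs, abs_of_pos (inv_pos.2 hd), ← hisom, dist_comm]
  rw [dist_comm] at hd
  exact inv_mul_cancel₀ hd.ne'

/-- T17: points that are forward close for all systems of a family coincide, when the stable
spaces have trivial intersection at each point. -/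
theorem sep_of_inf {X F : Type*} [MetricSpace X] [CompactSpace X] [NormedAddCommGroup F]
    [NormedSpace ℝ F] [FiniteDimensional ℝ F] {ι : Type*} [Nonempty ι] (S : ι → HypSys X F)
    (e : X → F) (he : ∀ i x, (S i).e x = e x) (hinf : ∀ x, ⨅ j, (S j).Vs x = ⊥) :
    ∃ (l : List ι) (ε : ℝ), 0 < ε ∧ ∀ x y, (∀ j ∈ l, SR (S j).g ε x y) → x = y := by
  obtain ⟨j⟩ := (inferInstance : Nonempty ι)
  refine sep_of_isom S e (fun x y => ?_) he hinf
  rw [← he j, ← he j]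
  exact (S j).isom x y

end Pool.Agent.H789R2.GP
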