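import Pool.Agent.H789R2.GP.ManC
import Pool.Agent.H789R2.AN.TNS

set_option autoImplicit false

open scoped Manifold ContDiff Topology
open Set Filter

namespace Pool.Agent.H789R2.GP

open Pool.Agent.H789R2.AN

section tns

variable {E : Type*} [NormedAddCommGroup E] [NormedSpace ℝ E]
  {M : Type*} [TopologicalSpace M] [ChartedSpace E M]

theorem negField_mono {G J : Type*} [AddCommGroup G] (χ : J → G →+ ℝ)
    (F : J → ∀ x : M, Submodule ℝ (TangentSpace 𝓘(ℝ, E) x)) {a b : G}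
    (h : ∀ l, χ l b < 0 → χ l a < 0) (x : M) : negField χ F b x ≤ negField χ F a x := by
  unfold negField
  apply iSup_le
  rintro ⟨j, hj⟩
  exact le_iSup (fun j : {j // χ j a < 0} => F j x) ⟨j, h j hj⟩

end tns

section main

variable {E : Type*} [NormedAddCommGroup E] [NormedSpace ℝ E] [FiniteDimensional ℝ E]
  {M : Type*} [TopologicalSpace M] [T2Space M] [CompactSpace M] [ConnectedSpace M]
  [ChartedSpace E M] [IsManifold 𝓘(ℝ, E) ∞ M]

/-- T14: totally nonsymplectic actions -/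
theorem tns_cov {G J : Type*} [AddCommGroup G] [Finite J]
    (α : G → Diffeomorph 𝓘(ℝ, E) 𝓘(ℝ, E) M M 1) (hα : ∀ a b x, α (a + b) x = α a (α b x))
    (χ : J → G →+ ℝ) (F : J → ∀ x : M, Submodule ℝ (TangentSpace 𝓘(ℝ, E) x))
    (hTNS : ∀ i j, ∀ c : ℝ, 0 < c → ∃ a, χ i a ≠ -c * χ j a)
    (hW : ∀ a, (∀ l, χ l a ≠ 0) → ∃ b, (∀ l, 0 < χ l a * χ l b) ∧
      IsAnosov (α b) (negField χ F b) (posField χ F b))
    (hne : ∃ a, ∀ l, χ l a ≠ 0) : ∃ π : E → M, IsCoveringMap π ∧ Function.Surjective π := by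
  obtain ⟨a, ha⟩ := hne
  let ι := {b : G // (∀ l, χ l b ≠ 0) ∧ IsAnosov (α b) (negField χ F b) (posField χ F b)}
  have hrep : ∀ a : {a : G // ∀ l, χ l a ≠ 0}, ∃ i : ι, ∀ l, 0 < χ l a.1 * χ l i.1 := by
    rintro ⟨a, ha⟩
    obtain ⟨b, hb1, hb2⟩ := hW a ha
    exact ⟨⟨b, fun l h => by
      have := hb1 l
      rw [h, mul_zero] at this
      exact lt_irrefl _ this, hb2⟩, hb1⟩
  choose r hr using hrep
  have hpos1 : ∀ a l, 0 < χ l (a : {a : G // ∀ l, χ l a ≠ 0}).1 → 0 < χ l (r a).1 :=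
    fun a l h => pos_of_mul_pos_left' h (hr a l)
  have hpos2 : ∀ a l, 0 < χ l (r a).1 → 0 < χ l (a : {a : G // ∀ l, χ l a ≠ 0}).1 :=
    fun a l h => pos_of_mul_pos_left' h (by rw [mul_comm]; exact hr a l)
  have hcomm : ∀ (i j : ι) (x : M), α i.1 (α j.1 x) = α j.1 (α i.1 x) := by
    intro i j x
    rw [← hα, ← hα, add_comm]
  let R : ι → ι → Prop := fun i j =>
    ∀ x, posField χ F i.1 x ≤ posField χ F j.1 x ∧ negField χ F j.1 x ≤ negField χ F i.1 x
  have hR : ∀ i j : ι, (∀ l, 0 < χ l i.1 → 0 < χ l j.1) → R i j := fun i j h x =>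
    ⟨posField_mono χ F h x, negField_mono χ F (fun l hl => by
      by_contra h0
      have h1 : 0 < χ l i.1 := lt_of_le_of_ne (not_lt.mp h0) (i.2.1 l).symm
      exact absurd (h l h1) (not_lt.mpr hl.le)) x⟩
  have hconn : ∀ i j : ι, Relation.EqvGen R i j := by
    intro i j
    have h1 : ∀ a b : {a : G // ∀ l, χ l a ≠ 0}, Relation.EqvGen R (r a) (r b) := by
      intro a b
      have h2 := reg_conn χ hTNS a b
      induction h2 with
      | rel a b h => exact Relation.EqvGen.rel _ _ (hR _ _ fun l hl =>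
          hpos1 b l (h l (hpos2 a l hl)))
      | refl a => exact Relation.EqvGen.refl _
      | symm a b _ ih => exact Relation.EqvGen.symm _ _ ih
      | trans a b c _ _ ih1 ih2 => exact Relation.EqvGen.trans _ _ _ ih1 ih2
    have h3 : ∀ i : ι, Relation.EqvGen R i (r ⟨i.1, i.2.1⟩) := fun i =>
      Relation.EqvGen.rel _ _ (hR _ _ fun l hl => hpos1 ⟨i.1, i.2.1⟩ l hl)
    exact Relation.EqvGen.trans _ _ _ (h3 i)
      (Relation.EqvGen.trans _ _ _ (h1 _ _) (Relation.EqvGen.symm _ _ (h3 j)))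
  have hna : ∀ l, χ l (-a) ≠ 0 := fun l => by
    rw [map_neg]; exact neg_ne_zero.mpr (ha l)
  refine man_cov (fun i : ι => α i.1) (fun i => negField χ F i.1) (fun i => posField χ F i.1)
    (fun i => i.2.2) hcomm (r ⟨a, ha⟩) (r ⟨-a, hna⟩) (hconn _ _) ?_
  intro x
  refine negField_le χ F (fun l hl => hpos1 ⟨-a, hna⟩ l ?_) x
  show 0 < χ l (-a)
  rw [map_neg]
  by_contra h
  have h1 : 0 < χ l a := lt_of_le_of_ne (by linarith) (ha l).symm
  have h2 := hpos1 ⟨a, ha⟩ l h1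
  linarith

end main

end Pool.Agent.H789R2.GP
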