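import Pool.Agent.H789R2.GP.Ext
import Pool.Agent.H789R2.GP.ManC
import Pool.Agent.H789R2.GP.Auto
import Pool.Agent.H789R2.GP.TnsC
import Pool.Agent.H789R2.GP.Sep

set_option autoImplicit false
set_option linter.unusedSectionVars false

open Filter Topology Set Metric
open scoped Manifold ContDiff

namespace Pool.Agent.H789R2.GP

open Pool.Agent.H789R2.AN Pool.Agent.H721R2

section abstract

variable {X F : Type*} [MetricSpace X] [NormedAddCommGroup F] [NormedSpace ℝ F]

theorem abs_cov' [FiniteDimensional ℝ F] [CompactSpace X] [Nonempty X] {E : Type*}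
    [NormedAddCommGroup E] [NormedSpace ℝ E]
    [ProperSpace E] [ChartedSpace E X] {ι : Type*} (S : ι → HypSys X F)
    (e : X → F) (he : ∀ i x, (S i).e x = e x)
    (hc : ∀ i j x, (S i).g ((S j).g x) = (S j).g ((S i).g x)) (i : ι)
    (hconn : ∀ j, Relation.EqvGen
      (fun i j => ∀ x, (S i).Vu x ≤ (S j).Vu x ∧ (S j).Vs x ≤ (S i).Vs x) i j)
    (hinf : ∀ x, ⨅ j, (S j).Vs x = ⊥) : ∃ π : E → X, IsCoveringMap π := by
  have hLP : ∀ k, ∃ c, LP (S k).g c := fun k => exists_LP (S k)
  choose c hcLP using hLP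
  have : Nonempty ι := ⟨i⟩
  obtain ⟨l, ε, hε, hsep⟩ := sep_of_inf S e he hinf
  have hall : ∀ a s, WS (S i).g a s → Lf (S i).g a s := by
    refine all_good' (fun k => (S k).g) c hcLP hc i l (fun j _ => ?_) hε hsep
    refine Relation.EqvGen.mono ?_ i j (hconn j)
    intro a b hab
    refine ⟨?_, ?_⟩
    · exact nest_of_le (S b).symm (S a).symm (fun x => ((he b x).trans (he a x).symm))
        (fun x => by
          show (S b).g.symm ((S a).g.symm x) = (S a).g.symm ((S b).g.symm x)
          exact comm_symm_left (g := (S a).g.symm) (φ := (S b).g)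
            (comm_symm_right (g := (S a).g) (φ := (S b).g) (fun x => hc b a x)) x)
        (fun x => (hab x).2)
    · exact nest_of_le (S a) (S b) (fun x => ((he a x).trans (he b x).symm))
        (fun x => hc a b x) (fun x => (hab x).1)
  obtain ⟨c', hc', ⟨T⟩⟩ := exists_QS (hcLP i) (ulc_of_charted (X := X) (E := E)) hall
  obtain ⟨q, hq, p, hp⟩ := (S i).exists_periodic
  exact exists_covering (hcLP i) hc' T p q hq hp

end abstract

section manifold

variable {E : Type*} [NormedAddCommGroup E] [NormedSpace ℝ E] [FiniteDimensional ℝ E]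
  {M : Type*} [TopologicalSpace M] [T2Space M] [CompactSpace M] [ConnectedSpace M]
  [ChartedSpace E M] [IsManifold 𝓘(ℝ, E) ∞ M]

theorem iInf_map_bot {E F ι : Type*} [AddCommGroup E] [Module ℝ E] [AddCommGroup F] [Module ℝ F]
    (i₀ : ι) (L : E →ₗ[ℝ] F) (hL : Function.Injective L) (V : ι → Submodule ℝ E)
    (h : ⨅ j, V j = ⊥) : ⨅ j, Submodule.map L (V j) = ⊥ := by
  rw [eq_bot_iff]
  intro v hv
  rw [Submodule.mem_iInf] at hv
  obtain ⟨w, hw, rfl⟩ := hv i₀
  have h1 : w ∈ ⨅ j, V j := by
    rw [Submodule.mem_iInf]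
    intro j
    obtain ⟨w', hw', h2⟩ := hv j
    rw [← hL h2]
    exact hw'
  rw [h, Submodule.mem_bot] at h1
  rw [h1, map_zero]
  exact Submodule.zero_mem _

theorem man_cov' {ι : Type*} (f : ι → Diffeomorph 𝓘(ℝ, E) 𝓘(ℝ, E) M M 1)
    (Es Eu : ι → ∀ x : M, Submodule ℝ (TangentSpace 𝓘(ℝ, E) x))
    (hA : ∀ i, IsAnosov (f i) (Es i) (Eu i)) (hc : ∀ i j x, f i (f j x) = f j (f i x))
    (i : ι) (hconn : ∀ j, Relation.EqvGen (fun i j => ∀ x, Eu i x ≤ Eu j x) i j)
    (hinf : ∀ x, ⨅ j, Es j x = ⊥) : ∃ π : E → M, IsCoveringMap π ∧ Function.Surjective π := by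
  obtain ⟨m, e, he, hemb, hinj⟩ := exists_embedding_euclidean_of_compact (I := 𝓘(ℝ, E)) (M := M)
  let _ : MetricSpace M := hemb.isEmbedding.comapMetricSpace e
  have hiso : ∀ x y : M, dist x y = ‖e x - e y‖ := fun x y => dist_eq_norm (e x) (e y)
  have he1 : ContMDiff 𝓘(ℝ, E) (𝓡 m) 1 e := he.of_le (by simp)
  have hsys := fun i => exists_sys hiso he1 hinj (f i) (Es i) (Eu i) (hA i)
  choose n S hg hSe hVs hVu using hsys
  have hgi : ∀ i x, (S i).g x = (f i)^[n i] x := fun i x => by
    rw [hg]; rfl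
  have : ProperSpace E := FiniteDimensional.proper_real E
  obtain ⟨π, hπ⟩ := abs_cov' (E := E) S e (fun i x => by rw [hSe])
    (fun a b x => by
      rw [hgi, hgi, hgi, hgi]
      exact iter_iter_comm (hc a b) _ _ x) i (fun j => by
      refine Relation.EqvGen.mono ?_ i j (hconn j)
      intro a b hab x
      have h1 := es_le_of_eu_le (f a) (f b) (Es a) (Eu a) (Es b) (Eu b) (hA a) (hA b)
        (hc a b) hab x
      rw [hVu, hVu, hVs, hVs]
      exact ⟨Submodule.map_mono (hab x), Submodule.map_mono h1⟩) (by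
      intro x
      have h1 := iInf_map_bot i (dm E e x).toLinearMap (hinj x) (fun j => Es j x) (hinf x)
      rw [← h1]
      exact iInf_congr fun j => hVs j x)
  exact ⟨π, hπ, covering_surj hπ⟩

end manifold

section regular

/-- Finitely many nonzero real characters are simultaneously nonzero at some element. -/
theorem exists_regular {G J : Type*} [AddCommGroup G] [Finite J] (χ : J → G →+ ℝ)
    (h : ∀ l, ∃ a, χ l a ≠ 0) : ∃ a, ∀ l, χ l a ≠ 0 := by
  have key : ∀ s : Set J, s.Finite → ∃ a, ∀ l ∈ s, χ l a ≠ 0 := by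
    intro s hs
    induction s, hs using Set.Finite.induction_on with
    | empty => exact ⟨0, fun l hl => absurd hl (Set.notMem_empty l)⟩
    | @insert k s _ hs ih =>
      obtain ⟨a, ha⟩ := ih
      obtain ⟨b, hb⟩ := h k
      have hfin : (⋃ l ∈ insert k s, {n : ℕ | χ l (a + n • b) = 0}).Finite := by
        refine (hs.insert k).biUnion (fun l hl => Set.Subsingleton.finite ?_)
        intro m hm n hn
        have hm' : χ l a + m * χ l b = 0 := by
          have h1 : χ l (a + m • b) = 0 := hm
          rwa [map_add, map_nsmul, nsmul_eq_mul] at h1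
        have hn' : χ l a + n * χ l b = 0 := by
          have h1 : χ l (a + n • b) = 0 := hn
          rwa [map_add, map_nsmul, nsmul_eq_mul] at h1
        have hlb : χ l b ≠ 0 := by
          intro h0
          rw [h0, mul_zero, add_zero] at hm'
          rcases Set.mem_insert_iff.mp hl with h1 | h1
          · rw [h1] at h0; exact hb h0
          · exact ha l h1 hm'
        have h2 : ((m : ℝ) - n) * χ l b = 0 := by linarith
        rcases mul_eq_zero.mp h2 with h3 | h3
        · exact_mod_cast sub_eq_zero.mp h3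
        · exact absurd h3 hlb
      obtain ⟨n, hn⟩ := hfin.exists_notMem
      refine ⟨a + n • b, fun l hl h0 => hn ?_⟩
      exact Set.mem_biUnion hl h0
  obtain ⟨a, ha⟩ := key Set.univ Set.finite_univ
  exact ⟨a, fun l => ha l (Set.mem_univ l)⟩

end regular

end Pool.Agent.H789R2.GP
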