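import Pool.Agent.H789R2.GP.Defs
import Pool.Agent.H789R2.AN.TNS
import Pool.Agent.H721R2.PerPt

set_option autoImplicit false

open Filter Topology Set Metric unitInterval
open scoped Manifold ContDiff

namespace Pool.Agent.H789R2.GP.Stubs

open Pool.Agent.H789R2.AN Pool.Agent.H789R2.GP

variable {X : Type*} [MetricSpace X]

/-- T1a -/
theorem expansive {g : X ≃ₜ X} {c : ℝ} (h : LP g c) {x y : X} (h1 : SR g c x y)
    (h2 : SR g.symm c x y) : x = y := by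
  sorry

/-- T1b -/
theorem fin_exp [CompactSpace X] {g : X ≃ₜ X} {c : ℝ} (h : LP g c) : ∀ ε > 0, ∃ N : ℕ, ∀ x y : X,
    (∀ k ≤ N, dist (g^[k] x) (g^[k] y) ≤ c) → (∀ k ≤ N, dist (g.symm^[k] x) (g.symm^[k] y) ≤ c) →
    dist x y < ε := by
  sorry

/-- T1c -/
theorem br_unif [CompactSpace X] {g : X ≃ₜ X} {c : ℝ} (h : LP g c) : ∀ ε > 0, ∃ η > 0,
    ∀ x x' y y' z z' : X, SR g (c / 3) x z → SR g.symm (c / 3) y z → SR g (c / 3) x' z' →
      SR g.symm (c / 3) y' z' → dist x x' < η → dist y y' < η → dist z z' < ε := by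
  sorry

/-- T1d: the bracket -/
theorem exists_br [CompactSpace X] {g : X ≃ₜ X} {c : ℝ} (h : LP g c) :
    ∃ (br : X → X → X) (δ : ℝ), 0 < δ ∧
      (∀ x y, dist x y < δ → SR g (c / 3) x (br x y) ∧ SR g.symm (c / 3) y (br x y)) ∧
      (∀ ε > 0, ∃ η > 0, ∀ x y, dist x y < η → SR g ε x (br x y) ∧ SR g.symm ε y (br x y)) ∧
      (∀ x y z, dist x y < δ → SR g (c / 3) x z → SR g.symm (c / 3) y z → z = br x y) ∧
      (∀ ε > 0, ∃ η > 0, ∀ x x' y y', dist x y < δ → dist x' y' < δ → dist x x' < η →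
        dist y y' < η → dist (br x y) (br x' y') < ε) := by
  sorry

/-- T2a: continuity criterion for maps to pairs -/
theorem Pr.continuous_iff [CompactSpace X] {g : X ≃ₜ X} {A : Type*} [TopologicalSpace A]
    (F : A → Pr g) : Continuous F ↔ Continuous (fun a => (F a).fst) ∧
      Continuous (fun a => (F a).snd) ∧ ∀ a, ∀ ε > 0, ∃ n : ℕ, ∀ᶠ a' in 𝓝 a, ∀ k ≥ n,
        dist (g^[k] (F a').x) (g^[k] (F a').y) ≤ ε := by
  sorry

/-- T2b -/
theorem fst_isLocalHomeomorph [CompactSpace X] {g : X ≃ₜ X} {c : ℝ} (h : LP g c) :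
    IsLocalHomeomorph (Pr.fst : Pr g → SM g.symm) := by
  sorry

/-- T3a -/
theorem map_SM [CompactSpace X] {g φ : X ≃ₜ X} (hc : ∀ x, φ (g x) = g (φ x)) : ∀ ε > 0, ∃ η > 0,
    ∀ x y : X, SR g η x y → SR g ε (φ x) (φ y) := by
  sorry

/-- T3b -/
theorem map_Pr_continuous [CompactSpace X] {g φ : X ≃ₜ X} (hc : ∀ x, φ (g x) = g (φ x)) :
    Continuous (fun q : Pr g => (⟨φ q.x, φ q.y, q.h.map hc⟩ : Pr g)) := by
  sorry

/-- T3c: liftability is invariant -/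
theorem LO_of_map [CompactSpace X] {g φ : X ≃ₜ X} (hc : ∀ x, φ (g x) = g (φ x))
    (υ υ' : C(I, SM g.symm)) (hυ : ∀ t, (υ' t).val = φ (υ t).val) {s x : X}
    (h : LO υ' (φ s) (φ x)) : LO υ s x := by
  sorry

/-- T3d: composition of strips -/
theorem LO_comp [CompactSpace X] {g : X ≃ₜ X} {υ υ' : C(I, SM g.symm)} {s x s' x' : X}
    (h : ∃ Γ : C(I, Pr g), (Γ 0).y = s ∧ (Γ 1).y = x ∧ (∀ t, (Γ t).x = (υ t).val) ∧
      ∀ t, (Γ t).y = (υ' t).val) (h' : LO υ' s' x') : LO υ s' x' := by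
  sorry

/-- T3e: the diagonal strip -/
theorem LO_diag [CompactSpace X] {g : X ≃ₜ X} (υ : C(I, SM g.symm)) :
    LO υ (υ 0).val (υ 1).val := by
  sorry

/-- T3f: concatenation of strips -/
theorem LO_trans [CompactSpace X] {g : X ≃ₜ X} {υ υ₁ υ₂ : C(I, SM g.symm)}
    (h1 : ∀ t s : I, (s : ℝ) = t / 2 → υ₁ t = υ s) (h2 : ∀ t s : I, (s : ℝ) = (1 + t) / 2 → υ₂ t = υ s)
    {s x x' : X} (a : LO υ₁ s x) (b : LO υ₂ x x') : LO υ s x' := by
  sorry

/-- T4: local lifting by brackets -/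
theorem local_lift [CompactSpace X] {g : X ≃ₜ X} {c : ℝ} (h : LP g c) : ∃ η > 0,
    ∀ (υ : C(I, SM g.symm)) (s : X), (∀ t, dist (υ 0) (υ t) ≤ η) → SR g η (υ 0).val s →
      ∃ x, LO υ s x := by
  sorry

/-- T5: lifting by contraction -/
theorem lift_contr [CompactSpace X] {g φ : X ≃ₜ X} {c : ℝ} (h : LP g c)
    (hc : ∀ x, φ (g x) = g (φ x)) (υ : C(I, SM g.symm)) (s : X) (hs : CC g φ (υ 0).val s)
    (hu : UC g.symm φ (fun _ : I => (υ 0).val) (fun t => (υ t).val)) : ∃ x, LO υ s x := by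
  sorry

/-- T6a: decomposition of a stable displacement -/
theorem decomp [CompactSpace X] {g φ : X ≃ₜ X} {c c' : ℝ} (h : LP g c) (hφ : LP φ c')
    (hc : ∀ x, φ (g x) = g (φ x)) (x y : X) (hxy : WS g x y) :
    ∃ z, CC g φ x z ∧ CC g φ.symm z y := by
  sorry

/-- T6b: the bracket of a small unstable path with itself -/
theorem self_bracket [CompactSpace X] {g φ : X ≃ₜ X} {c c' : ℝ} (h : LP g c) (hφ : LP φ c')
    (hc : ∀ x, φ (g x) = g (φ x)) : ∃ η > 0, ∀ υ : C(I, SM g),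
      (∀ t t', dist (υ t) (υ t') ≤ η) → ∃ P : C(I × I, SM g), (∀ s, P (s, s) = υ s) ∧
      UC g φ.symm (fun p : I × I => (υ p.1).val) (fun p : I × I => (P p).val) ∧
      UC g φ (fun p : I × I => (υ p.2).val) (fun p : I × I => (P p).val) := by
  sorry

/-- T7a -/
theorem UC.nest [CompactSpace X] {A : Type*} {g φ ψ : X ≃ₜ X} (hg : ∀ x, φ (g x) = g (φ x))
    (hg' : ∀ x, ψ (g x) = g (ψ x)) (hc : ∀ x, φ (ψ x) = ψ (φ x)) (hn : Nest φ ψ) {x y : A → X}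
    (h : UC g φ x y) : UC g ψ x y := by
  sorry

/-- T7b: the main step -/
theorem good_step [CompactSpace X] {g h h' : X ≃ₜ X} {c d d' : ℝ} (hg : LP g c) (hh : LP h d)
    (hh' : LP h' d') (c1 : ∀ x, h (g x) = g (h x)) (c2 : ∀ x, h' (g x) = g (h' x))
    (c3 : ∀ x, h (h' x) = h' (h x)) (hn : Nest h' h) (hG : Good g h) : Good g h' := by
  sorry

/-- T8: everything is liftable -/
theorem all_good [CompactSpace X] {ι : Type*} (f : ι → X ≃ₜ X) (c : ι → ℝ) (hf : ∀ i, LP (f i) (c i))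
    (hc : ∀ i j x, f i (f j x) = f j (f i x)) (i j : ι)
    (hconn : Relation.EqvGen (fun i j => Nest (f j) (f i) ∧ Nest (f i).symm (f j).symm) i j)
    (hend : Nest (f i) (f j).symm) : ∀ a s, WS (f i) a s → Lf (f i) a s := by
  sorry

/-- T9: compact manifolds -/
theorem ulc_of_charted {E : Type*} [NormedAddCommGroup E] [NormedSpace ℝ E] [ChartedSpace E X]
    [CompactSpace X] : ULC X := by
  sorry

/-- T10a: small paths in stable leaves -/
theorem leaf_path [CompactSpace X] {g : X ≃ₜ X} {c : ℝ} (h : LP g c) (hX : ULC X) : ∀ ε > 0,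
    ∃ η > 0, ∀ x y : SM g, dist x y ≤ η → ∃ υ : C(I, SM g), υ 0 = x ∧ υ 1 = y ∧
      ∀ t, dist x (υ t) ≤ ε := by
  sorry

/-- T10b: stable leaves are path connected -/
theorem leaf_conn [CompactSpace X] {g : X ≃ₜ X} {c : ℝ} (h : LP g c) (hX : ULC X) (x y : X)
    (hxy : WS g x y) : ∃ υ : C(I, SM g), υ 0 = ⟨x⟩ ∧ υ 1 = ⟨y⟩ := by
  sorry

/-- T10c: stable leaves are simply connected -/
theorem leaf_homotopy [CompactSpace X] {g : X ≃ₜ X} {c : ℝ} (h : LP g c) (hX : ULC X)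
    (υ υ' : C(I, SM g)) (h0 : υ 0 = υ' 0) (h1 : υ 1 = υ' 1) :
    ∃ H : C(I × I, SM g), (∀ t, H (0, t) = υ t) ∧ (∀ t, H (1, t) = υ' t) ∧
      (∀ s, H (s, 0) = υ 0) ∧ (∀ s, H (s, 1) = υ 1) := by
  sorry

/-- T11: the quadrilateral structure -/
theorem exists_QS [CompactSpace X] {g : X ≃ₜ X} {c : ℝ} (h : LP g c) (hX : ULC X)
    (hall : ∀ a s, WS g a s → Lf g a s) : ∃ c' > 0, Nonempty (QS g c') := by
  sorry

/-- T12: the covering -/
theorem exists_covering [CompactSpace X] {E : Type*} [NormedAddCommGroup E] [NormedSpace ℝ E]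
    [ProperSpace E] [ChartedSpace E X] {g : X ≃ₜ X} {c c' : ℝ} (h : LP g c) (hc' : 0 < c')
    (T : QS g c') (p : X) (N : ℕ) (hN : 1 ≤ N) (hp : g^[N] p = p) :
    ∃ π : E → X, IsCoveringMap π := by
  sorry

end Pool.Agent.H789R2.GP.Stubs

namespace Pool.Agent.H789R2.GP.Stubs

open Pool.Agent.H789R2.AN Pool.Agent.H789R2.GP Pool.Agent.H721R2

section abstract

variable {X F : Type*} [MetricSpace X] [NormedAddCommGroup F] [NormedSpace ℝ F]

/-- T13a -/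
theorem nest_of_le [CompactSpace X] (S₁ S₂ : HypSys X F) (he : ∀ x, S₁.e x = S₂.e x)
    (hc : ∀ x, S₁.g (S₂.g x) = S₂.g (S₁.g x)) (hV : ∀ x, S₁.Vu x ≤ S₂.Vu x) :
    Nest S₁.g.symm S₂.g.symm := by
  sorry

/-- T13b -/
theorem abs_cov [CompactSpace X] [Nonempty X] {E : Type*} [NormedAddCommGroup E] [NormedSpace ℝ E]
    [ProperSpace E] [ChartedSpace E X] {ι : Type*} (S : ι → HypSys X F)
    (e : X → F) (he : ∀ i x, (S i).e x = e x)
    (hc : ∀ i j x, (S i).g ((S j).g x) = (S j).g ((S i).g x)) (i j : ι)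
    (hconn : Relation.EqvGen (fun i j => ∀ x, (S i).Vu x ≤ (S j).Vu x ∧ (S j).Vs x ≤ (S i).Vs x) i j)
    (hend : ∀ x, (S i).Vs x ≤ (S j).Vu x) : ∃ π : E → X, IsCoveringMap π := by
  sorry

end abstract

section manifold

variable {E : Type*} [NormedAddCommGroup E] [NormedSpace ℝ E] [FiniteDimensional ℝ E]
  {M : Type*} [TopologicalSpace M] [T2Space M] [CompactSpace M] [ConnectedSpace M]
  [ChartedSpace E M] [IsManifold 𝓘(ℝ, E) ∞ M]

/-- T13c -/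
theorem man_cov {ι : Type*} (f : ι → Diffeomorph 𝓘(ℝ, E) 𝓘(ℝ, E) M M 1)
    (Es Eu : ι → ∀ x : M, Submodule ℝ (TangentSpace 𝓘(ℝ, E) x))
    (hA : ∀ i, IsAnosov (f i) (Es i) (Eu i)) (hc : ∀ i j x, f i (f j x) = f j (f i x)) (i j : ι)
    (hconn : Relation.EqvGen (fun i j => ∀ x, Eu i x ≤ Eu j x ∧ Es j x ≤ Es i x) i j)
    (hend : ∀ x, Es i x ≤ Eu j x) : ∃ π : E → M, IsCoveringMap π ∧ Function.Surjective π := by
  sorry

/-- T14: totally nonsymplectic actions -/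
theorem tns_cov {G J : Type*} [AddCommGroup G] [Finite J]
    (α : G → Diffeomorph 𝓘(ℝ, E) 𝓘(ℝ, E) M M 1) (hα : ∀ a b x, α (a + b) x = α a (α b x))
    (χ : J → G →+ ℝ) (F : J → ∀ x : M, Submodule ℝ (TangentSpace 𝓘(ℝ, E) x))
    (hTNS : ∀ i j, ∀ c : ℝ, 0 < c → ∃ a, χ i a ≠ -c * χ j a)
    (hW : ∀ a, (∀ l, χ l a ≠ 0) → ∃ b, (∀ l, 0 < χ l a * χ l b) ∧
      IsAnosov (α b) (negField χ F b) (posField χ F b))
    (hne : ∃ a, ∀ l, χ l a ≠ 0) : ∃ π : E → M, IsCoveringMap π ∧ Function.Surjective π := by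
  sorry

end manifold

end Pool.Agent.H789R2.GP.Stubs
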