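import Pool.Agent.H789R2.GP.Leaf

set_option autoImplicit false

open Filter Topology Set Metric

namespace Pool.Agent.H789R2.GP.Stubs

open Pool.Agent.H789R2.AN Pool.Agent.H789R2.GP

variable {X : Type*} [MetricSpace X]

/-- T12a: the corner map is a covering -/
theorem pr_isCoveringMap [CompactSpace X] {g : X ≃ₜ X} {c c' : ℝ} (h : LP g c) (hc' : 0 < c')
    (T : QS g c') (p : X) : IsCoveringMap (Leaf.pr T : Leaf g p → X) := by
  sorry

/-- T12b: the leaf space is a cell -/
theorem leaf_homeo [CompactSpace X] {E : Type*} [NormedAddCommGroup E] [NormedSpace ℝ E]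
    [ProperSpace E] {g : X ≃ₜ X} {c : ℝ} (h : LP g c) (p : X) (N : ℕ) (hN : 1 ≤ N)
    (hp : g^[N] p = p) (Φ : OpenPartialHomeomorph (Leaf g p) E) (hΦ : Leaf.base g p ∈ Φ.source) :
    Nonempty (E ≃ₜ Leaf g p) := by
  sorry

end Pool.Agent.H789R2.GP.Stubs
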