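import Pool.Agent.H789R2.GP.Defs
import Pool.Agent.H789R2.AN.TNS

set_option autoImplicit false

open Filter Topology Set Metric unitInterval
open scoped Manifold ContDiff

namespace Pool.Agent.H789R2.GP.Stubs

open Pool.Agent.H789R2.AN Pool.Agent.H789R2.GP Pool.Agent.H721R2

/-- T17: points that are forward close for all systems of a family coincide, when the stable
spaces have trivial intersection at each point. -/
theorem sep_of_inf {X F : Type*} [MetricSpace X] [CompactSpace X] [NormedAddCommGroup F]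
    [NormedSpace ℝ F] [FiniteDimensional ℝ F] {ι : Type*} (S : ι → HypSys X F) (e : X → F)
    (he : ∀ i x, (S i).e x = e x) (hinf : ∀ x, ⨅ j, (S j).Vs x = ⊥) :
    ∃ (l : List ι) (ε : ℝ), 0 < ε ∧ ∀ x y, (∀ j ∈ l, SR (S j).g ε x y) → x = y := by
  sorry

/-- T18: decomposition of a stable displacement of `g` with respect to `φ`, keeping the
contraction under further commuting homeomorphisms. -/
theorem decomp_ref {X : Type*} [MetricSpace X] [CompactSpace X] {g φ : X ≃ₜ X} {c c' : ℝ}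
    (h : LP g c) (hφ : LP φ c') (hc : ∀ x, φ (g x) = g (φ x)) (l : List (X ≃ₜ X))
    (hl1 : ∀ ψ ∈ l, ∀ x, ψ (g x) = g (ψ x)) (hl2 : ∀ ψ ∈ l, ∀ x, ψ (φ x) = φ (ψ x))
    (x y : X) (hxy : WS g x y) (hxl : ∀ ψ ∈ l, CC g ψ x y) :
    ∃ z, CC g φ x z ∧ CC g φ.symm z y ∧ ∀ ψ ∈ l, CC g ψ x z ∧ CC g ψ z y := by
  sorry

end Pool.Agent.H789R2.GP.Stubs
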